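import Pool.Agent.helper36.WE.Seg

/-! Short paths inside segments. -/

namespace Pool.Agent.helper36.WE

set_option linter.unusedSectionVars false

variable {X A : Type} [DecidableEq X] [DecidableEq A]

attribute [local instance] lawfulBEq_sum

lemma spell_congr {T T' : X → List (X ⊕ A)} {a : List X} (h : ∀ x ∈ a, T x = T' x) :
    spell T a = spell T' a := by
  induction a with
  | nil => rfl
  | cons y a ih =>
      rw [spell_cons, spell_cons, h y (by simp), ih (fun x hx => h x (List.mem_cons_of_mem _ hx))]

/-- Lists of units with distinct heads are spelled by a function. -/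
lemma exists_spell_units (D : Finset X) : ∀ l : List (X × List (X ⊕ A)),
    (∀ u ∈ l, GoodU D u) → (l.map Prod.fst).Nodup →
    ∃ T, TokT D T ∧ spell T (l.map Prod.fst) = flat l := by
  intro l
  induction l with
  | nil => intro _ _; exact ⟨fun _ => [], fun _ t ht => by simp at ht, rfl⟩
  | cons u l ih =>
      intro hg hn
      rw [List.map_cons, List.nodup_cons] at hn
      obtain ⟨T, hT, he⟩ := ih (fun v hv => hg v (List.mem_cons_of_mem _ hv)) hn.2
      refine ⟨fun y => if y = u.1 then u.2 else T y, ?_, ?_⟩
      · intro y t ht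
        by_cases hy : y = u.1
        · simp only [hy, if_true] at ht
          exact (hg u (by simp)).2 t ht
        · simp only [hy, if_false] at ht
          exact hT y t ht
      · rw [List.map_cons, spell_cons, flat_cons, ← he]
        simp only [if_true, List.cons_append]
        congr 2
        apply spell_congr
        intro y hy
        have : y ≠ u.1 := by
          rintro rfl
          exact hn.1 hy
        simp [this]

/-- A word that contains every letter of `D` once and starts with a letter of `D` is spelled by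
a duplicate free list. -/
lemma exists_spell (D : Finset X) (z : X) (hz : z ∈ D) (w : List (X ⊕ A))
    (hc : ∀ x ∈ D, (Sum.inl z :: w).count (Sum.inl x) = 1) :
    ∃ a T, TokT D T ∧ (z :: a).Nodup ∧ (∀ x, x ∈ z :: a ↔ x ∈ D) ∧
      spell T (z :: a) = Sum.inl z :: w := by
  obtain ⟨l, hl, hg⟩ := exists_units D _ (Sum.inl z :: w) le_rfl (Or.inr ⟨z, hz, w, rfl⟩)
  have hcount : ∀ x ∈ D, (l.map Prod.fst).count x = 1 := by
    intro x hx
    rw [← count_flat l hg hx, hl]
    exact hc x hx
  have hmem : ∀ x, x ∈ l.map Prod.fst ↔ x ∈ D := by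
    intro x
    constructor
    · intro hx
      obtain ⟨u, hu, rfl⟩ := List.mem_map.mp hx
      exact (hg u hu).1
    · intro hx
      rw [← List.count_pos_iff, hcount x hx]
      exact Nat.one_pos
  have hn : (l.map Prod.fst).Nodup := by
    rw [List.nodup_iff_count_le_one]
    intro x
    by_cases hx : x ∈ D
    · exact (hcount x hx).le
    · rw [List.count_eq_zero_of_not_mem (fun h => hx ((hmem x).mp h))]
      omega
  obtain ⟨T, hT, he⟩ := exists_spell_units D l hg hn
  cases l with
  | nil => simp [flat_nil] at hl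
  | cons u l =>
      have hz' : z = u.1 := by
        rw [flat_cons, List.cons_append, List.cons.injEq] at hl
        exact (Sum.inl.inj hl.1).symm
      subst hz'
      exact ⟨l.map Prod.fst, T, hT, hn, hmem, he.trans hl⟩

/-- The structure of a segment whose first step has its winner on the left. -/
lemma seg_init {D : Finset X} {s s1 : Eqn X A} (hstep : DStepL D s s1)
    (hc : ∀ x ∈ D, s.1.count (Sum.inl x) = 1 ∧ s.2.count (Sum.inl x) = 1) :
    (∃ x U b V, s = (Sum.inl x :: U, b ++ Sum.inl x :: V) ∧ x ∈ D ∧ b ≠ [] ∧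
      (∀ t ∈ b, Tok D t) ∧ Sum.inl x ∉ U ∧ Sum.inl x ∉ V) ∨
    ∃ TL TR p c, TokT D TL ∧ TokT D TR ∧ PairD D p ∧ Seg TL TR s p c := by
  classical
  obtain ⟨x, hx, y, U, V, hy, rfl, -⟩ := hstep
  set b := (y :: V).takeWhile (fun s => decide (Tok D s)) with hbdef
  set V1 := (y :: V).dropWhile (fun s => decide (Tok D s)) with hV1def
  have hw : y :: V = b ++ V1 := (List.takeWhile_append_dropWhile).symm
  have hbt : ∀ t ∈ b, Tok D t := by
    intro t ht
    have := List.mem_takeWhile_imp ht
    simpa using this
  have hbx : ∀ z ∈ D, Sum.inl z ∉ b := fun z hz => notMem_of_tok hbt hz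
  have hV1 : V1 = [] ∨ ∃ z ∈ D, ∃ V2, V1 = Sum.inl z :: V2 := by
    rcases hrr : V1 with _ | ⟨s, r'⟩
    · exact Or.inl rfl
    · right
      have hs : ¬ Tok D s := by
        have := List.head?_dropWhile_not (fun s => decide (Tok D s)) (y :: V)
        rw [← hV1def, hrr] at this
        simpa using this
      unfold Tok at hs
      push Not at hs
      obtain ⟨z, hz, hsz⟩ := hs
      exact ⟨z, hz, r', by rw [hsz]⟩
  clear_value b V1
  rw [hw] at hc ⊢
  have hxU : Sum.inl x ∉ U := by
    have := (hc x hx).1
    simp only [List.count_cons_self] at this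
    exact List.count_eq_zero.mp (by omega)
  have hcV1 : ∀ z ∈ D, V1.count (Sum.inl z) = 1 := by
    intro z hz
    have := (hc z hz).2
    rw [List.count_append, List.count_eq_zero_of_not_mem (hbx z hz), zero_add] at this
    exact this
  rcases hV1 with hV1 | ⟨z, hz, V2, rfl⟩
  · exfalso
    have := hcV1 x hx
    rw [hV1] at this
    simp at this
  -- the left word
  obtain ⟨A', TL, hTL, hnA, hmA, heA⟩ := exists_spell D x hx U (fun z hz => (hc z hz).1)
  obtain ⟨B', T, hT, hnB, hmB, heB⟩ := exists_spell D z hz V2 hcV1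
  by_cases hb0 : b = []
  · -- clean
    right
    refine ⟨TL, T, (x :: A', z :: B'), (x :: A', z :: B'), hTL, hT, ⟨hnA, hnB, hmA, hmB⟩,
      Or.inl ⟨?_, rfl⟩⟩
    simp only [real, heA, heB, hb0, List.nil_append]
  by_cases hzx : z = x
  · left
    subst hzx
    refine ⟨z, U, b, V2, rfl, hz, hb0, hbt, hxU, ?_⟩
    have := hcV1 z hz
    rw [List.count_cons_self] at this
    exact List.count_eq_zero.mp (by omega)
  · right
    have hxB : x ∈ B' := by
      have := (hmB x).mpr hx
      simpa [Ne.symm hzx] using this
    obtain ⟨P0, Q, rfl⟩ := List.append_of_mem hxB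
    -- the letter before `x`
    obtain ⟨P, d, hP⟩ : ∃ P d, z :: P0 = P ++ [d] := by
      rcases List.eq_nil_or_concat (z :: P0) with h | ⟨u, v, h⟩
      · simp at h
      · exact ⟨u, v, by rw [h, List.concat_eq_append]⟩
    have e1 : z :: (P0 ++ x :: Q) = P ++ d :: x :: Q := by
      rw [← List.cons_append, hP]; simp
    rw [e1] at hnB hmB heB
    have hnB' := hnB
    simp only [List.nodup_append, List.nodup_cons, List.mem_cons, not_or] at hnB'
    have hdP : d ∉ P := by
      intro h
      exact hnB'.2.2 d h d (Or.inl rfl) rfl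
    have hdx : d ≠ x := hnB'.2.1.1.1
    have hdQ : d ∉ Q := hnB'.2.1.1.2
    set TR : X → List (X ⊕ A) := fun y => if y = d then T d ++ b else T y with hTR
    have hTR' : TokT D TR := by
      intro y t ht
      by_cases hyd : y = d
      · simp only [hTR, hyd, if_true, List.mem_append] at ht
        rcases ht with ht | ht
        · exact hT d t ht
        · exact hbt t ht
      · simp only [hTR, hyd, if_false] at ht
        exact hT y t ht
    have c1 : spell TR P = spell T P := by
      apply spell_congr
      intro y hyP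
      have : y ≠ d := by rintro rfl; exact hdP hyP
      simp [hTR, this]
    have c2 : spell TR (x :: Q) = spell T (x :: Q) := by
      apply spell_congr
      intro y hyQ
      have : y ≠ d := by
        rintro rfl
        rcases List.mem_cons.mp hyQ with h | h
        · exact hdx h
        · exact hdQ h
      simp [hTR, this]
    refine ⟨TL, TR, (x :: A', d :: (P ++ x :: Q)), (x :: A', P ++ d :: x :: Q), hTL, hTR',
      ⟨hnA, ?_, hmA, ?_⟩, Or.inr (Or.inl ⟨x, A', d, P, Q, T d, b, rfl, rfl, by simp [hTR], ?_⟩)⟩
    · exact (List.perm_middle).nodup_iff.mp hnB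
    · intro y
      rw [← hmB y]
      exact (List.perm_middle).mem_iff.symm
    · rw [heA, c1, c2]
      rw [← heB, spell_append, spell_cons T d]
      simp

/-- Inside a segment there are short paths. -/
lemma seg_bound_left {D : Finset X} {s s1 t : Eqn X A} (hstep : DStepL D s s1)
    (hc : ∀ x ∈ D, s.1.count (Sum.inl x) = 1 ∧ s.2.count (Sum.inl x) = 1)
    (h : Relation.ReflTransGen (DStep D) s t) :
    ∃ n ≤ size s * (55 * D.card ^ 4 + 2), Walk Step n s t := by
  rcases seg_init hstep hc with ⟨x, U, b, V, rfl, hx, hb0, hb, hU, hV⟩ |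
    ⟨TL, TR, p, c, hTL, hTR, hp, hseg⟩
  · obtain ⟨c, hcb, rfl⟩ := special_reach D x U b V hb0 hb hU hV t h
    obtain ⟨u, v, rfl, rfl⟩ := exists_split_of_rot hcb.symm
    have hux : Sum.inl x ∉ u := notMem_of_tok (fun t ht => hb t (by simp [ht])) hx
    have hvx : Sum.inl x ∉ v := notMem_of_tok (fun t ht => hb t (by simp [ht])) hx
    have h1 := walk_rotate x U hU u (v ++ Sum.inl x :: V) hux
    have h2 : ins u x (v ++ Sum.inl x :: V) = (v ++ u) ++ Sum.inl x :: V := by
      rw [ins_append, ins_of_notMem _ _ hvx, ins_cons, if_pos rfl, ins_of_notMem _ _ hV]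
      simp
    rw [h2, ← List.append_assoc] at h1
    refine ⟨u.length, ?_, h1⟩
    simp only [size, List.length_append]
    nlinarith [Nat.zero_le (D.card ^ 4)]
  · -- the position of `t`
    have ht : ∃ p' c', Seg TL TR t p' c' ∧ PairD D p' ∧ Relation.ReflTransGen Sup p p' := by
      induction h with
      | refl => exact ⟨p, c, hseg, hp, Relation.ReflTransGen.refl⟩
      | tail _ hbc ih =>
          obtain ⟨p', c', h1, h2, h3⟩ := ih
          obtain ⟨p'', c'', h4, h5, h6⟩ := seg_step hTL hTR h2 h1 hbc
          exact ⟨p'', c'', h4, h5, h3.trans h6⟩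
    obtain ⟨p', c', hseg', hp', hpp'⟩ := ht
    have hcD : PairD D c := by
      rcases hseg.sup with h1 | h1
      · rw [h1]; exact hp
      · exact hp.sup h1
    have hcp' : Relation.ReflTransGen Sup c p' := by
      rcases hseg.sup with h1 | h1
      · rw [h1]; exact hpp'
      · exact hpp'.head h1.symm
    have hs1 : size (real TL TR p) = size s := hseg.size.symm
    have hsc : size (real TL TR c) = size s := by
      rcases hseg.sup with h1 | h1
      · rw [h1]; exact hs1
      · rw [real_size h1]; exact hs1
    have hsp' : size (real TL TR p') = size s := by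
      have : ∀ q, Relation.ReflTransGen Sup p q → size (real TL TR q) = size (real TL TR p) := by
        intro q hq
        induction hq with
        | refl => rfl
        | tail _ hbc ih => rw [real_size hbc, ih]
      rw [this p' hpp', hs1]
    obtain ⟨n1, hn1, w1⟩ := hseg.into hTL hTR hp
    obtain ⟨n3, hn3, w3⟩ := hseg'.out hTL hTR hp'
    have hpermc : c.1.Perm c.2 :=
      (List.perm_ext_iff_of_nodup hcD.nodupA hcD.nodupB).mpr
        (fun x => (hcD.suppA x).trans (hcD.suppB x).symm)
    obtain ⟨n2, hn2, w2⟩ := sup_bound (a := c.1) (b := c.2) hcD.nodupA hpermc hcp'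
    obtain ⟨n2', hn2', w2'⟩ := real_walk hTL hTR n2 hcD w2
    have hlen : c.1.length = D.card := by
      rw [← List.toFinset_card_of_nodup hcD.nodupA]
      congr 1
      ext x
      rw [List.mem_toFinset]
      exact hcD.suppA x
    rw [hlen] at hn2
    rw [hsc] at hn2'
    rw [hseg'.size, hsp'] at hn3
    refine ⟨n1 + n2' + n3, ?_, (w1.append w2').append w3⟩
    have h5 : n2 * size s ≤ 55 * D.card ^ 4 * size s := Nat.mul_le_mul_right _ hn2
    have h6 : size s * (55 * D.card ^ 4 + 2) = 55 * D.card ^ 4 * size s + 2 * size s := by ring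
    omega

theorem seg_bound {D : Finset X} {s t : Eqn X A}
    (hc : ∀ x ∈ D, s.1.count (Sum.inl x) = 1 ∧ s.2.count (Sum.inl x) = 1)
    (h : Relation.ReflTransGen (DStep D) s t) :
    ∃ n ≤ size s * (55 * D.card ^ 4 + 2), Walk Step n s t := by
  rcases Relation.ReflTransGen.cases_head h with h0 | ⟨s1, h1, -⟩
  · subst h0
    exact ⟨0, Nat.zero_le _, Walk.refl _ _⟩
  · rcases h1 with h1 | h1
    · exact seg_bound_left h1 hc h
    · obtain ⟨n, hn, hw⟩ := seg_bound_left h1 (fun x hx => ⟨(hc x hx).2, (hc x hx).1⟩)
        (reach_swap h)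
      rw [size_swap] at hn
      refine ⟨n, hn, ?_⟩
      have := walk_swap hw
      simpa using this

end Pool.Agent.helper36.WE
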