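import Mathlib

/-! Shortening walks of a relation whose reachable set is finite. -/

namespace Pool.Agent.helper36.WE

variable {α : Type*}

/-- A walk with `n` edges. -/
def Walk (r : α → α → Prop) (n : ℕ) (a b : α) : Prop :=
  ∃ f : ℕ → α, f 0 = a ∧ f n = b ∧ ∀ i < n, r (f i) (f (i + 1))

lemma Walk.refl (r : α → α → Prop) (a : α) : Walk r 0 a a :=
  ⟨fun _ => a, rfl, rfl, fun i hi => absurd hi (Nat.not_lt_zero i)⟩

lemma Walk.append {r : α → α → Prop} {m n : ℕ} {a b c : α} (h1 : Walk r m a b)
    (h2 : Walk r n b c) : Walk r (m + n) a c := by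
  obtain ⟨f, f0, fm, hf⟩ := h1
  obtain ⟨g, g0, gn, hg⟩ := h2
  refine ⟨fun i => if i ≤ m then f i else g (i - m), ?_, ?_, ?_⟩
  · simp [f0]
  · by_cases hn : n = 0
    · subst hn
      simp only [Nat.add_zero, le_refl, if_true]
      rw [fm, ← g0, gn]
    · have : ¬ (m + n ≤ m) := by omega
      simp only [this, if_false]
      rw [Nat.add_sub_cancel_left, gn]
  · intro i hi
    by_cases h1 : i + 1 ≤ m
    · have h2 : i ≤ m := by omega
      simp only [h1, h2, if_true]
      exact hf i (by omega)
    · by_cases h2 : i ≤ m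
      · have h3 : i = m := by omega
        subst h3
        simp only [le_refl, if_true, h1, if_false]
        have : i + 1 - i = 0 + 1 := by omega
        rw [this, fm, ← g0]
        exact hg 0 (by omega)
      · simp only [h1, h2, if_false]
        have : i + 1 - m = (i - m) + 1 := by omega
        rw [this]
        exact hg (i - m) (by omega)

lemma Walk.single {r : α → α → Prop} {a b : α} (h : r a b) : Walk r 1 a b := by
  refine ⟨fun i => if i = 0 then a else b, by simp, by simp, ?_⟩
  intro i hi
  have : i = 0 := by omega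
  subst this
  simpa using h

lemma Walk.mono {r s : α → α → Prop} (hrs : ∀ a b, r a b → s a b) {n : ℕ} {a b : α}
    (h : Walk r n a b) : Walk s n a b := by
  obtain ⟨f, f0, fn, hf⟩ := h
  exact ⟨f, f0, fn, fun i hi => hrs _ _ (hf i hi)⟩

lemma exists_walk {r : α → α → Prop} {a b : α} (h : Relation.ReflTransGen r a b) :
    ∃ n, Walk r n a b := by
  induction h with
  | refl => exact ⟨0, Walk.refl r a⟩
  | tail _ hbc ih =>
      obtain ⟨n, hn⟩ := ih
      exact ⟨n + 1, hn.append (Walk.single hbc)⟩

lemma Walk.reach {r : α → α → Prop} {n : ℕ} {f : ℕ → α} (hf : ∀ i < n, r (f i) (f (i + 1))) :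
    ∀ i ≤ n, Relation.ReflTransGen r (f 0) (f i) := by
  intro i
  induction i with
  | zero => intro _; exact Relation.ReflTransGen.refl
  | succ i ih => intro hi; exact (ih (by omega)).tail (hf i (by omega))

/-- If every vertex reachable from `a` lies in a finite set of at most `N` elements, then a
reachable vertex is reached by a walk with fewer than `N` edges. -/
lemma exists_short_walk {r : α → α → Prop} {a b : α} (S : Set α) (hS : S.Finite) (N : ℕ)
    (hN : S.ncard ≤ N) (hreach : ∀ x, Relation.ReflTransGen r a x → x ∈ S)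
    (h : Relation.ReflTransGen r a b) : ∃ n < N, Walk r n a b := by
  classical
  have hex := exists_walk h
  have hmin := Nat.find_spec hex
  set n := Nat.find hex with hn
  refine ⟨n, ?_, hmin⟩
  by_contra hlt
  push Not at hlt
  obtain ⟨f, f0, fn, hf⟩ := hmin
  have hmem : ∀ i ∈ Finset.range (n + 1), f i ∈ hS.toFinset := by
    intro i hi
    rw [Set.Finite.mem_toFinset]
    apply hreach
    rw [← f0]
    exact Walk.reach hf i (by simpa [Nat.lt_succ_iff] using hi)
  have hcard : hS.toFinset.card < (Finset.range (n + 1)).card := by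
    rw [Finset.card_range, ← Set.ncard_eq_toFinset_card S hS]
    omega
  obtain ⟨i, hi, j, hj, hij, hfij⟩ := Finset.exists_ne_map_eq_of_card_lt_of_maps_to hcard hmem
  wlog hlt' : i < j generalizing i j
  · exact this j hj i hi hij.symm hfij.symm (by omega)
  have hj' : j ≤ n := by simpa [Nat.lt_succ_iff] using hj
  have w1 : Walk r i a (f i) := ⟨f, f0, rfl, fun k hk => hf k (by omega)⟩
  have w2 : Walk r (n - j) (f j) b := by
    refine ⟨fun k => f (j + k), by simp, ?_, ?_⟩
    · show f (j + (n - j)) = b
      rw [Nat.add_sub_cancel' hj', fn]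
    · intro k hk
      have := hf (j + k) (by omega)
      simpa [add_assoc] using this
  rw [← hfij] at w2
  have w3 := w1.append w2
  have : n ≤ i + (n - j) := Nat.find_min' hex w3
  omega

end Pool.Agent.helper36.WE
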