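import Pool.Agent.helper36.WE.Count
import Pool.Agent.helper36.WE.Graph

/-! The number of equations reachable with all winners in `D`. -/

namespace Pool.Agent.helper36.WE

set_option linter.unusedSectionVars false

variable {X A : Type} [DecidableEq X] [DecidableEq A]

attribute [local instance] lawfulBEq_sum

lemma size_swap (s : Eqn X A) : size s.swap = size s := by
  simp [size, add_comm]

lemma occ_swap (s : Eqn X A) (x : X) : occ s.swap x = occ s x := by
  simp [occ, add_comm]

lemma DStep.swap {D : Finset X} {s s' : Eqn X A} (h : DStep D s s') :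
    DStep D s.swap s'.swap := by
  rcases h with h | h
  · right; simpa using h
  · left; exact h

lemma reach_swap {D : Finset X} {s s' : Eqn X A} (h : Relation.ReflTransGen (DStep D) s s') :
    Relation.ReflTransGen (DStep D) s.swap s'.swap := by
  induction h with
  | refl => exact Relation.ReflTransGen.refl
  | tail _ hbc ih => exact ih.tail hbc.swap

lemma length_flat_mem {l : List (X × List (X ⊕ A))} {u : X × List (X ⊕ A)} (h : u ∈ l) :
    u.2.length ≤ (flat l).length := by
  induction l with
  | nil => simp at h
  | cons v l ih =>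
      rw [flat_cons, List.length_append, List.length_cons]
      rcases List.mem_cons.mp h with rfl | h
      · omega
      · have := ih h; omega

lemma init_general (D : Finset X) (x : X) (hx : x ∈ D) (U b V1 : List (X ⊕ A))
    (hb : ∀ t ∈ b, Tok D t)
    (hV : V1 = [] ∨ ∃ z ∈ D, z ≠ x ∧ ∃ V2, V1 = Sum.inl z :: V2)
    (hocc : ∀ z ∈ D, occ ((Sum.inl x :: U, b ++ V1) : Eqn X A) z = 2) :
    ∃ L : List (X × List (X ⊕ A)), (∀ u ∈ L, GoodU D u) ∧
      (∀ z ∈ D, (L.map Prod.fst).count z = 2) ∧
      (∀ u ∈ L, u.2.length ≤ size ((Sum.inl x :: U, b ++ V1) : Eqn X A)) ∧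
      L.length = 2 * D.card ∧
      Good D L (size ((Sum.inl x :: U, b ++ V1) : Eqn X A)) (Sum.inl x :: U, b ++ V1) := by
  classical
  have hbx : Sum.inl x ∉ b := notMem_of_tok hb hx
  have hc : U.count (Sum.inl x) + V1.count (Sum.inl x) = 1 := by
    have := hocc x hx
    simp only [occ, List.count_cons_self, List.count_append,
      List.count_eq_zero_of_not_mem hbx] at this
    omega
  obtain ⟨l, hl, hlg⟩ := exists_units D _ (Sum.inl x :: ins b x U) le_rfl
    (Or.inr ⟨x, hx, _, rfl⟩)
  obtain ⟨r, hr, hrg⟩ := exists_units D _ (ins b x V1) le_rfl (by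
    rcases hV with rfl | ⟨z, hz, hzx, V2, rfl⟩
    · left; rfl
    · right
      refine ⟨z, hz, ins b x V2, ?_⟩
      have : ¬ ((Sum.inl z : X ⊕ A) = Sum.inl x) := by simpa using hzx
      rw [ins_cons, if_neg this]; rfl)
  have hlen : (flat l).length + (flat r).length =
      size ((Sum.inl x :: U, b ++ V1) : Eqn X A) := by
    rw [hl, hr, List.length_cons, length_ins, length_ins]
    simp only [size, List.length_cons, List.length_append]
    have : U.length + U.count (Sum.inl x) * b.length + 1 +
        (V1.length + V1.count (Sum.inl x) * b.length) =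
        U.length + 1 + V1.length + (U.count (Sum.inl x) + V1.count (Sum.inl x)) * b.length := by
      ring
    rw [this, hc]
    ring
  have hcount : ∀ z ∈ D, ((l ++ r).map Prod.fst).count z = 2 := by
    intro z hz
    have hbz : Sum.inl z ∉ b := notMem_of_tok hb hz
    rw [List.map_append, List.count_append, ← count_flat l hlg hz, ← count_flat r hrg hz, hl, hr,
      List.count_cons, count_ins, count_ins, List.count_eq_zero_of_not_mem hbz]
    have := hocc z hz
    simp only [occ, List.count_cons, List.count_append,
      List.count_eq_zero_of_not_mem hbz] at this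
    omega
  refine ⟨l ++ r, ?_, hcount, ?_, ?_, ?_⟩
  · intro u hu
    rcases List.mem_append.mp hu with hu | hu
    · exact hlg u hu
    · exact hrg u hu
  · intro u hu
    rcases List.mem_append.mp hu with hu | hu
    · have := length_flat_mem hu; omega
    · have := length_flat_mem hu; omega
  · have h1 := Multiset.sum_count_eq_card (s := D) (m := (((l ++ r).map Prod.fst : List X) :
      Multiset X)) (by
        intro a ha
        rw [Multiset.mem_coe, List.mem_map] at ha
        obtain ⟨u, hu, rfl⟩ := ha
        rcases List.mem_append.mp hu with hu | hu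
        · exact (hlg u hu).1
        · exact (hrg u hu).1)
    rw [Multiset.coe_card, List.length_map] at h1
    rw [← h1]
    have : ∀ z ∈ D, Multiset.count z (((l ++ r).map Prod.fst : List X) : Multiset X) = 2 := by
      intro z hz
      rw [Multiset.coe_count]
      exact hcount z hz
    rw [Finset.sum_congr rfl this, Finset.sum_const, smul_eq_mul, mul_comm]
  · by_cases hb0 : b = []
    · left
      refine ⟨l, r, List.Perm.refl _, ?_⟩
      rw [hl, hr, hb0, ins_empty, ins_empty]
      rfl
    · right; left
      refine ⟨l, r, b.length, x, hx, U, b, V1, hb0, hb, rfl, ?_, rfl, hc, List.Perm.refl _, ?_⟩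
      · simp only [size, List.length_cons, List.length_append]
        omega
      · rw [hl, hr]

lemma special_reach (D : Finset X) (x : X) (U b V2 : List (X ⊕ A)) (hb0 : b ≠ [])
    (hb : ∀ t ∈ b, Tok D t) (hU : Sum.inl x ∉ U) (hV2 : Sum.inl x ∉ V2) (s : Eqn X A)
    (h : Relation.ReflTransGen (DStep D) (Sum.inl x :: U, b ++ Sum.inl x :: V2) s) :
    ∃ c, c ~r b ∧ s = (Sum.inl x :: U, c ++ Sum.inl x :: V2) := by
  induction h with
  | refl => exact ⟨b, List.IsRotated.refl b, rfl⟩
  | tail _ hbc ih =>
      obtain ⟨c, hc, rfl⟩ := ih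
      have hc0 : c ≠ [] := by
        rintro rfl
        exact hb0 (List.isRotated_nil_iff'.mp hc).symm
      have hct : ∀ t ∈ c, Tok D t := fun t ht => hb t (hc.mem_iff.mp ht)
      cases c with
      | nil => exact absurd rfl hc0
      | cons c1 c =>
        rcases hbc with h | h
        · obtain ⟨z, hz, y, U', V', hy, he, rfl⟩ := h
          simp only [List.cons_append, Prod.mk.injEq, List.cons.injEq, Sum.inl.injEq] at he
          obtain ⟨⟨rfl, rfl⟩, rfl, rfl⟩ := he
          refine ⟨c ++ [c1], ?_, ?_⟩
          · refine List.IsRotated.trans ?_ hc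
            exact (List.IsRotated.symm ⟨1, by simp⟩)
          · have hcx : Sum.inl x ∉ c :=
              notMem_of_tok (fun t ht => hct t (List.mem_cons_of_mem _ ht)) hz
            rw [ins_of_notMem _ x hU, ins_append, ins_of_notMem _ x hcx, ins_cons, if_pos rfl,
              ins_of_notMem _ x hV2]
            simp
        · exfalso
          obtain ⟨z, hz, y, U', V', hy, he, -⟩ := h
          simp only [Prod.swap_prod_mk, List.cons_append, Prod.mk.injEq, List.cons.injEq] at he
          exact (hct c1 (by simp)).ne hz he.1.1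

lemma init_left (D : Finset X) (s0 s1 : Eqn X A) (hstep : DStepL D s0 s1)
    (hocc : ∀ z ∈ D, occ s0 z = 2) :
    ∃ S : Set (Eqn X A), S.Finite ∧ S.ncard ≤ 2 * (size s0 + 1) * (2 * D.card + 1).factorial ∧
      ∀ s, Relation.ReflTransGen (DStep D) s0 s → s ∈ S := by
  classical
  obtain ⟨x, hx, y, U, V, hy, rfl, -⟩ := hstep
  set b := (y :: V).takeWhile (fun s => decide (Tok D s)) with hbdef
  set V1 := (y :: V).dropWhile (fun s => decide (Tok D s)) with hV1def
  have hw : y :: V = b ++ V1 := (List.takeWhile_append_dropWhile).symm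
  have hbt : ∀ t ∈ b, Tok D t := by
    intro t ht
    have := List.mem_takeWhile_imp ht
    simpa using this
  have hV1 : V1 = [] ∨ ∃ z ∈ D, ∃ V2, V1 = Sum.inl z :: V2 := by
    rcases hrr : V1 with _ | ⟨s, r'⟩
    · exact Or.inl rfl
    · right
      have hs : ¬ Tok D s := by
        have := List.head?_dropWhile_not (fun s => decide (Tok D s)) (y :: V)
        rw [← hV1def, hrr] at this
        simpa using this
      unfold Tok at hs
      push Not at hs
      obtain ⟨z, hz, hsz⟩ := hs
      exact ⟨z, hz, r', by rw [hsz]⟩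
  clear_value b V1
  rw [hw] at hocc ⊢
  by_cases hsp : ∃ V2, V1 = Sum.inl x :: V2
  · obtain ⟨V2, rfl⟩ := hsp
    have hb0 : b ≠ [] := by
      rintro rfl
      rw [List.nil_append] at hw
      exact hy (List.cons.inj hw).1
    have hc := hocc x hx
    simp only [occ, List.count_cons_self, List.count_append] at hc
    have hU : Sum.inl x ∉ U := List.count_eq_zero.mp (by omega)
    have hV2 : Sum.inl x ∉ V2 := List.count_eq_zero.mp (by omega)
    refine ⟨(fun c => ((Sum.inl x :: U, c ++ Sum.inl x :: V2) : Eqn X A)) ''
      ((b.cyclicPermutations.toFinset : Finset (List (X ⊕ A))) : Set (List (X ⊕ A))),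
      (Finset.finite_toSet _).image _, ?_, ?_⟩
    · refine (Set.ncard_image_le (Finset.finite_toSet _)).trans ?_
      rw [Set.ncard_coe_finset]
      refine (List.toFinset_card_le _).trans ?_
      rw [List.length_cyclicPermutations_of_ne_nil b hb0]
      have h1 : b.length ≤ size ((Sum.inl x :: U, b ++ Sum.inl x :: V2) : Eqn X A) := by
        simp only [size, List.length_append]; omega
      have h2 : 1 ≤ (2 * D.card + 1).factorial := Nat.factorial_pos _
      nlinarith
    · intro s hs
      obtain ⟨c, hc, rfl⟩ := special_reach D x U b V2 hb0 hbt hU hV2 s hs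
      refine ⟨c, ?_, rfl⟩
      simp only [Finset.mem_coe, List.mem_toFinset, List.mem_cyclicPermutations_iff]
      exact hc
  · obtain ⟨L, h1, h2, h3, h4, h5⟩ := init_general D x hx U b V1 hbt (by
      rcases hV1 with h | ⟨z, hz, V2, h⟩
      · exact Or.inl h
      · right
        refine ⟨z, hz, ?_, V2, h⟩
        rintro rfl
        exact hsp ⟨V2, h⟩) hocc
    obtain ⟨hf, hcard⟩ := good_finite D L (size ((Sum.inl x :: U, b ++ V1) : Eqn X A))
    rw [h4] at hcard
    refine ⟨_, hf, hcard, ?_⟩
    intro s hs
    induction hs with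
    | refl => exact h5
    | tail _ hbc ih => exact good_step h1 h2 h3 ih hbc

theorem reach_bound (D : Finset X) (s0 : Eqn X A) (hocc : ∀ z ∈ D, occ s0 z = 2) :
    ∃ S : Set (Eqn X A), S.Finite ∧ S.ncard ≤ 2 * (size s0 + 1) * (2 * D.card + 1).factorial ∧
      ∀ s, Relation.ReflTransGen (DStep D) s0 s → s ∈ S := by
  by_cases hL : ∃ s1, DStepL D s0 s1
  · obtain ⟨s1, h⟩ := hL
    exact init_left D s0 s1 h hocc
  by_cases hR : ∃ s1, DStepL D s0.swap s1
  · obtain ⟨s1, h⟩ := hR
    obtain ⟨S, hS, hc, hr⟩ := init_left D s0.swap s1 h (fun z hz => by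
      rw [occ_swap]; exact hocc z hz)
    refine ⟨Prod.swap '' S, hS.image _, ?_, ?_⟩
    · rw [size_swap] at hc
      exact (Set.ncard_image_le hS).trans hc
    · intro s hs
      exact ⟨s.swap, hr _ (reach_swap hs), by simp⟩
  · refine ⟨{s0}, Set.finite_singleton _, ?_, ?_⟩
    · rw [Set.ncard_singleton]
      have h2 : 1 ≤ (2 * D.card + 1).factorial := Nat.factorial_pos _
      nlinarith
    · intro s hs
      rcases Relation.ReflTransGen.cases_head hs with h | ⟨s1, h, -⟩
      · exact h.symm
      · rcases h with h | h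
        · exact absurd ⟨s1, h⟩ hL
        · exact absurd ⟨s1.swap, h⟩ hR

end Pool.Agent.helper36.WE
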