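import Pool.Agent.helper36.WE.Units

/-! Counting the equations reachable by steps whose winner is in `D`. -/

namespace Pool.Agent.helper36.WE

set_option linter.unusedSectionVars false

variable {X A : Type} [DecidableEq X] [DecidableEq A]

attribute [local instance] lawfulBEq_sum

/-- A step with the left head `x ∈ D` as winner. -/
def DStepL (D : Finset X) (s s' : Eqn X A) : Prop :=
  ∃ x ∈ D, ∃ y U V, y ≠ Sum.inl x ∧ s = (Sum.inl x :: U, y :: V) ∧
    s' = (Sum.inl x :: ins [y] x U, ins [y] x V)

/-- A step with the left or right head in `D` as winner. -/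
def DStep (D : Finset X) (s s' : Eqn X A) : Prop :=
  DStepL D s s' ∨ DStepL D s.swap s'.swap

/-- An equation made of complete units. -/
def Clean (L : List (X × List (X ⊕ A))) (s : Eqn X A) : Prop :=
  ∃ l r, (l ++ r).Perm L ∧ s = (flat l, flat r)

/-- An equation in which the tail of a unit is being moved with winner on the left. -/
def TransL (D : Finset X) (L : List (X × List (X ⊕ A))) (n : ℕ) (s : Eqn X A)
    (l r : List (X × List (X ⊕ A))) (j : ℕ) : Prop :=
  ∃ x ∈ D, ∃ U b V, b ≠ [] ∧ (∀ t ∈ b, Tok D t) ∧ b.length = j ∧ j ≤ n ∧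
    s = (Sum.inl x :: U, b ++ V) ∧ U.count (Sum.inl x) + V.count (Sum.inl x) = 1 ∧
    (l ++ r).Perm L ∧ (flat l, flat r) = ((Sum.inl x :: ins b x U, ins b x V) : Eqn X A)

/-- The set containing all reachable equations. -/
def Good (D : Finset X) (L : List (X × List (X ⊕ A))) (n : ℕ) (s : Eqn X A) : Prop :=
  Clean L s ∨ (∃ l r j, TransL D L n s l r j) ∨ (∃ l r j, TransL D L n s.swap l r j)

lemma Clean.swap {L : List (X × List (X ⊕ A))} {s : Eqn X A} (h : Clean L s) :
    Clean L s.swap := by
  obtain ⟨l, r, hp, rfl⟩ := h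
  exact ⟨r, l, List.perm_append_comm.trans hp, rfl⟩

lemma Good.swap {D : Finset X} {L : List (X × List (X ⊕ A))} {n : ℕ} {s : Eqn X A}
    (h : Good D L n s) : Good D L n s.swap := by
  rcases h with h | h | h
  · exact Or.inl h.swap
  · right; right; simpa using h
  · right; left; exact h

lemma Tok.ne {D : Finset X} {s : X ⊕ A} (h : Tok D s) {x : X} (hx : x ∈ D) :
    s ≠ Sum.inl x := h x hx

lemma notMem_of_tok {D : Finset X} {b : List (X ⊕ A)} (h : ∀ t ∈ b, Tok D t) {x : X}
    (hx : x ∈ D) : Sum.inl x ∉ b := fun hm => (h _ hm).ne hx rfl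

lemma count_flat {D : Finset X} (l : List (X × List (X ⊕ A))) (h : ∀ u ∈ l, GoodU D u) {x : X}
    (hx : x ∈ D) : (flat l).count (Sum.inl x) = (l.map Prod.fst).count x := by
  induction l with
  | nil => rfl
  | cons u l ih =>
      have hu := h u (by simp)
      rw [flat_cons, List.count_append, ih (fun u hu => h u (List.mem_cons_of_mem _ hu)),
        List.map_cons, List.count_cons, List.count_cons,
        List.count_eq_zero_of_not_mem (notMem_of_tok hu.2 hx)]
      by_cases hux : u.1 = x
      · simp [hux]; ring
      · have h1 : (u.1 == x) = false := by simpa using hux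
        have h2 : ((Sum.inl u.1 : X ⊕ A) == Sum.inl x) = false := by simpa using hux
        simp [h1, h2]

lemma insU_perm_pair (u v : X × List (X ⊕ A)) (x : X) (l r : List (X × List (X ⊕ A)))
    (h : (l.map Prod.fst).count x + (r.map Prod.fst).count x = 1) :
    ((u :: insU v x l) ++ insU v x r).Perm ((u :: l) ++ (v :: r)) := by
  have hl := insU_perm v x l
  have hr := insU_perm v x r
  rcases Nat.eq_zero_or_pos ((l.map Prod.fst).count x) with h0 | h0
  · have h1 : (r.map Prod.fst).count x = 1 := by omega
    rw [h0] at hl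
    rw [h1] at hr
    simp only [List.replicate_zero, List.nil_append] at hl
    simp only [List.replicate_one, List.singleton_append] at hr
    exact (hl.cons u).append hr
  · have h1 : (l.map Prod.fst).count x = 1 := by omega
    have h2 : (r.map Prod.fst).count x = 0 := by omega
    rw [h1] at hl
    rw [h2] at hr
    simp only [List.replicate_zero, List.nil_append] at hr
    simp only [List.replicate_one, List.singleton_append] at hl
    refine ((hl.cons u).append hr).trans ?_
    simp only [List.cons_append]
    refine List.Perm.cons u ?_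
    exact List.perm_middle.symm

lemma good_stepL {D : Finset X} {L : List (X × List (X ⊕ A))} {n : ℕ}
    (h1 : ∀ u ∈ L, GoodU D u) (h2 : ∀ x ∈ D, (L.map Prod.fst).count x = 2)
    (h3 : ∀ u ∈ L, u.2.length ≤ n) {s s' : Eqn X A} (hs : Good D L n s)
    (hstep : DStepL D s s') : Good D L n s' := by
  obtain ⟨x, hx, y, U, V, hy, rfl, rfl⟩ := hstep
  rcases hs with hs | hs | hs
  · obtain ⟨l, r, hp, he⟩ := hs
    rw [Prod.mk.injEq] at he
    obtain ⟨hel, her⟩ := he
    cases l with
    | nil => simp [flat_nil] at hel
    | cons u l =>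
      cases r with
      | nil => simp [flat_nil] at her
      | cons v r =>
        rw [flat_cons] at hel her
        simp only [List.cons_append, List.cons.injEq, Sum.inl.injEq] at hel her
        obtain ⟨hxu, rfl⟩ := hel
        obtain ⟨rfl, rfl⟩ := her
        have hvx : v.1 ≠ x := fun h => hy (by rw [h])
        have hmem : ∀ w ∈ (u :: l) ++ (v :: r), GoodU D w := fun w hw => h1 w (hp.subset hw)
        have hu := hmem u (by simp)
        have hv := hmem v (by simp)
        have hl : ∀ w ∈ l, GoodU D w := fun w hw => hmem w (by simp [hw])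
        have hr : ∀ w ∈ r, GoodU D w := fun w hw => hmem w (by simp [hw])
        have hcount : (l.map Prod.fst).count x + (r.map Prod.fst).count x = 1 := by
          have e1 := (hp.map Prod.fst).count_eq x
          rw [h2 x hx, List.map_append, List.count_append, List.map_cons, List.map_cons,
            List.count_cons, List.count_cons] at e1
          have e2 : (u.1 == x) = true := by simp [hxu]
          have e3 : (v.1 == x) = false := by simpa using hvx
          simp only [e2, e3, if_true, Bool.false_eq_true, if_false] at e1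
          omega
        have hpl : ((u :: insU v x l) ++ insU v x r).Perm L :=
          (insU_perm_pair u v x l r hcount).trans hp
        have hu2 : Sum.inl x ∉ u.2 := notMem_of_tok hu.2 hx
        have hv2 : Sum.inl x ∉ v.2 := notMem_of_tok hv.2 hx
        have fl : ins (Sum.inl v.1 :: v.2) x (flat l) = flat (insU v x l) :=
          ins_flat v x l (fun w hw => notMem_of_tok (hl w hw).2 hx)
        have fr : ins (Sum.inl v.1 :: v.2) x (flat r) = flat (insU v x r) :=
          ins_flat v x r (fun w hw => notMem_of_tok (hr w hw).2 hx)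
        rw [ins_append, ins_append, ins_of_notMem _ x hu2, ins_of_notMem _ x hv2]
        by_cases hb : v.2 = []
        · left
          refine ⟨u :: insU v x l, insU v x r, hpl, ?_⟩
          rw [flat_cons, ← fl, ← fr, hb, hxu]
          simp
        · right; left
          refine ⟨u :: insU v x l, insU v x r, v.2.length, x, hx,
            u.2 ++ ins [Sum.inl v.1] x (flat l), v.2, ins [Sum.inl v.1] x (flat r), hb,
            hv.2, rfl, h3 v (hp.subset (by simp)), rfl, ?_, hpl, ?_⟩
          · rw [List.count_append, count_ins, count_ins, count_flat l hl hx, count_flat r hr hx,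
              List.count_eq_zero_of_not_mem hu2]
            have : List.count (Sum.inl x : X ⊕ A) [Sum.inl v.1] = 0 := by
              apply List.count_eq_zero_of_not_mem
              simp [Ne.symm hvx]
            rw [this]
            omega
          · have hne : (Sum.inl x : X ⊕ A) ∉ [(Sum.inl v.1 : X ⊕ A)] := by
              simp [Ne.symm hvx]
            rw [ins_append, ins_of_notMem _ x hu2, ins_ins _ _ x hne, ins_ins _ _ x hne]
            simp only [List.singleton_append]
            rw [fl, fr, flat_cons, hxu]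
            rfl
  · obtain ⟨l, r, j, z, hz, U', b, V', hb, hbt, hj, hjn, he, hc, hp, hf⟩ := hs
    rw [Prod.mk.injEq] at he
    obtain ⟨he1, he2⟩ := he
    simp only [List.cons.injEq, Sum.inl.injEq] at he1
    obtain ⟨rfl, rfl⟩ := he1
    cases b with
    | nil => exact absurd rfl hb
    | cons b1 b =>
      simp only [List.cons_append, List.cons.injEq] at he2
      obtain ⟨rfl, rfl⟩ := he2
      have hbx : Sum.inl x ∉ b := notMem_of_tok (fun t ht => hbt t (List.mem_cons_of_mem _ ht)) hx
      have hne : (Sum.inl x : X ⊕ A) ∉ [y] := by simp [Ne.symm hy]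
      rw [ins_append, ins_of_notMem _ x hbx]
      by_cases hb' : b = []
      · subst hb'
        left
        refine ⟨l, r, hp, ?_⟩
        rw [hf]
        simp
      · right; left
        refine ⟨l, r, b.length, x, hx, ins [y] x U, b, ins [y] x V', hb',
          (fun t ht => hbt t (List.mem_cons_of_mem _ ht)), rfl, ?_, rfl, ?_, hp, ?_⟩
        · simp only [List.length_cons] at hj
          omega
        · rw [count_ins, count_ins, List.count_eq_zero_of_not_mem hne]
          simpa using hc
        · rw [ins_ins _ _ x hne, ins_ins _ _ x hne]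
          simpa using hf
  · exfalso
    obtain ⟨l, r, j, z, hz, U', b, V', hb, hbt, hj, hjn, he, hc, hp, hf⟩ := hs
    rw [Prod.swap_prod_mk, Prod.mk.injEq] at he
    obtain ⟨he1, he2⟩ := he
    cases b with
    | nil => exact absurd rfl hb
    | cons b1 b =>
      simp only [List.cons_append, List.cons.injEq] at he2
      exact (hbt b1 (by simp)).ne hx he2.1.symm

lemma good_step {D : Finset X} {L : List (X × List (X ⊕ A))} {n : ℕ}
    (h1 : ∀ u ∈ L, GoodU D u) (h2 : ∀ x ∈ D, (L.map Prod.fst).count x = 2)
    (h3 : ∀ u ∈ L, u.2.length ≤ n) {s s' : Eqn X A} (hs : Good D L n s)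
    (hstep : DStep D s s') : Good D L n s' := by
  rcases hstep with h | h
  · exact good_stepL h1 h2 h3 hs h
  · have := (good_stepL h1 h2 h3 hs.swap h).swap
    simpa using this

/-- A relation that determines its first argument bounds cardinalities. -/
lemma ncard_le_of_rel {α β : Type*} (S : Set α) (T : Set β) (hT : T.Finite) (Q : α → β → Prop)
    (h1 : ∀ s ∈ S, ∃ t ∈ T, Q s t) (h2 : ∀ s s' t, Q s t → Q s' t → s = s') :
    S.Finite ∧ S.ncard ≤ T.ncard := by
  classical
  rcases S.eq_empty_or_nonempty with rfl | ⟨s₀, hs₀⟩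
  · simp
  have : Nonempty β := ⟨(h1 s₀ hs₀).choose⟩
  choose! f hf hQ using h1
  have hinj : Set.InjOn f S := by
    intro a ha b hb hab
    have := hQ b hb
    rw [← hab] at this
    exact h2 _ _ _ (hQ a ha) this
  exact ⟨Set.Finite.of_finite_image (hT.subset (Set.image_subset_iff.mpr hf)) hinj,
    Set.ncard_le_ncard_of_injOn f hf hinj hT⟩

/-- The pairs of unit lists that together are a rearrangement of `L`. -/
lemma pairs_finite {β : Type*} (L : List β) :
    {p : List β × List β | (p.1 ++ p.2).Perm L}.Finite ∧
      {p : List β × List β | (p.1 ++ p.2).Perm L}.ncard ≤ (L.length + 1).factorial := by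
  classical
  have h := ncard_le_of_rel {p : List β × List β | (p.1 ++ p.2).Perm L}
    (((L.permutations.toFinset ×ˢ Finset.range (L.length + 1) : Finset (List β × ℕ)) :
      Set (List β × ℕ)))
    (Finset.finite_toSet _) (fun p (q : List β × ℕ) => p.1 ++ p.2 = q.1 ∧ p.1.length = q.2) ?_ ?_
  · refine ⟨h.1, h.2.trans ?_⟩
    rw [Set.ncard_coe_finset, Finset.card_product, Finset.card_range, Nat.factorial_succ,
      mul_comm]
    refine Nat.mul_le_mul_left _ ?_
    rw [← List.length_permutations]
    exact List.toFinset_card_le _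
  · rintro ⟨l, r⟩ hp
    refine ⟨(l ++ r, l.length), ?_, rfl, rfl⟩
    simp only [Finset.coe_product, Set.mem_prod, Finset.mem_coe, List.mem_toFinset,
      List.mem_permutations, Finset.mem_range]
    refine ⟨hp, ?_⟩
    have := hp.length_eq
    simp only [List.length_append] at this
    omega
  · rintro ⟨l, r⟩ ⟨l', r'⟩ ⟨q, m⟩ ⟨h1, h2⟩ ⟨h3, h4⟩
    simp only at h1 h2 h3 h4
    have := List.append_inj (h1.trans h3.symm) (h2.trans h4.symm)
    rw [this.1, this.2]

lemma transL_unique {D : Finset X} {L : List (X × List (X ⊕ A))} {n : ℕ} {s s' : Eqn X A}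
    {l r : List (X × List (X ⊕ A))} {j : ℕ} (h : TransL D L n s l r j)
    (h' : TransL D L n s' l r j) : s = s' := by
  obtain ⟨x, hx, U, b, V, hb, hbt, hj, hjn, rfl, hc, hp, hf⟩ := h
  obtain ⟨x', hx', U', b', V', hb', hbt', hj', hjn', rfl, hc', hp', hf'⟩ := h'
  rw [hf] at hf'
  simp only [Prod.mk.injEq, List.cons.injEq, Sum.inl.injEq] at hf'
  obtain ⟨⟨rfl, hU⟩, hV⟩ := hf'
  have hbx : Sum.inl x ∉ b := notMem_of_tok hbt hx
  have hbx' : Sum.inl x ∉ b' := notMem_of_tok hbt' hx
  have key : ∀ W W' : List (X ⊕ A), W.count (Sum.inl x) = 1 → W'.count (Sum.inl x) = 1 →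
      ins b x W = ins b' x W' → b = b' ∧ W = W' := by
    intro W W' hW hW' he
    have hm : Sum.inl x ∈ W := List.count_pos_iff.mp (by omega)
    have hm' : Sum.inl x ∈ W' := List.count_pos_iff.mp (by omega)
    obtain ⟨P, Q, rfl⟩ := List.append_of_mem hm
    obtain ⟨P', Q', rfl⟩ := List.append_of_mem hm'
    rw [List.count_append, List.count_cons_self] at hW hW'
    have hP : Sum.inl x ∉ P := fun h => by
      have := List.count_pos_iff.mpr h; omega
    have hQ : Sum.inl x ∉ Q := fun h => by
      have := List.count_pos_iff.mpr h; omega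
    have hP' : Sum.inl x ∉ P' := fun h => by
      have := List.count_pos_iff.mpr h; omega
    have hQ' : Sum.inl x ∉ Q' := fun h => by
      have := List.count_pos_iff.mpr h; omega
    rw [ins_append, ins_append, ins_cons, ins_cons, if_pos rfl, if_pos rfl,
      ins_of_notMem _ x hP, ins_of_notMem _ x hQ, ins_of_notMem _ x hP',
      ins_of_notMem _ x hQ'] at he
    have e1 : (P ++ b) ++ Sum.inl x :: Q = (P' ++ b') ++ Sum.inl x :: Q' := by
      simpa using he
    have hPb : Sum.inl x ∉ P ++ b := by simp [hP, hbx]
    have hPb' : Sum.inl x ∉ P' ++ b' := by simp [hP', hbx']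
    have htw : ∀ (M N : List (X ⊕ A)), Sum.inl x ∉ M →
        (M ++ Sum.inl x :: N).takeWhile (fun s => decide (s ≠ Sum.inl x)) = M := by
      intro M N hM
      rw [List.takeWhile_append_of_pos]
      · simp
      · intro a ha
        simp only [decide_eq_true_eq]
        intro h
        exact hM (h ▸ ha)
    have e2 : P ++ b = P' ++ b' := by
      rw [← htw (P ++ b) Q hPb, e1, htw _ _ hPb']
    have e3 : Sum.inl x :: Q = Sum.inl x :: Q' := by
      rw [e2] at e1
      exact List.append_cancel_left e1
    have e4 := List.append_inj' e2 (by omega)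
    rw [e4.1, e4.2, (List.cons.inj e3).2]
    exact ⟨rfl, rfl⟩
  rcases Nat.eq_zero_or_pos (U.count (Sum.inl x)) with h0 | h0
  · have hV1 : V.count (Sum.inl x) = 1 := by omega
    have hcU := congrArg (List.count (Sum.inl x)) hU
    rw [count_ins, count_ins, h0, List.count_eq_zero_of_not_mem hbx,
      List.count_eq_zero_of_not_mem hbx'] at hcU
    have h0' : U'.count (Sum.inl x) = 0 := by simpa using hcU.symm
    have hV1' : V'.count (Sum.inl x) = 1 := by omega
    obtain ⟨rfl, rfl⟩ := key V V' hV1 hV1' hV
    rw [ins_of_notMem _ x (List.count_eq_zero.mp h0),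
      ins_of_notMem _ x (List.count_eq_zero.mp h0')] at hU
    rw [hU]
  · have hU1 : U.count (Sum.inl x) = 1 := by omega
    have hV0 : V.count (Sum.inl x) = 0 := by omega
    have hcV := congrArg (List.count (Sum.inl x)) hV
    rw [count_ins, count_ins, hV0, List.count_eq_zero_of_not_mem hbx,
      List.count_eq_zero_of_not_mem hbx'] at hcV
    have h0' : V'.count (Sum.inl x) = 0 := by simpa using hcV.symm
    have hU1' : U'.count (Sum.inl x) = 1 := by omega
    obtain ⟨rfl, rfl⟩ := key U U' hU1 hU1' hU
    rw [ins_of_notMem _ x (List.count_eq_zero.mp hV0),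
      ins_of_notMem _ x (List.count_eq_zero.mp h0')] at hV
    rw [hV]

lemma good_finite (D : Finset X) (L : List (X × List (X ⊕ A))) (n : ℕ) :
    {s : Eqn X A | Good D L n s}.Finite ∧
      {s : Eqn X A | Good D L n s}.ncard ≤ 2 * (n + 1) * (L.length + 1).factorial := by
  classical
  obtain ⟨hPf, hPc⟩ := pairs_finite L
  set P : Set (List (X × List (X ⊕ A)) × List (X × List (X ⊕ A))) :=
    {p | (p.1 ++ p.2).Perm L} with hP
  have hC := ncard_le_of_rel {s : Eqn X A | Clean L s} P hPf
    (fun s p => s = (flat p.1, flat p.2))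
    (fun s hs => by
      obtain ⟨l, r, hp, rfl⟩ := hs
      exact ⟨(l, r), hp, rfl⟩)
    (fun s s' p h h' => h.trans h'.symm)
  have hT : (P ×ˢ ((Finset.Icc 1 n : Finset ℕ) : Set ℕ)).Finite :=
    hPf.prod (Finset.finite_toSet _)
  have hTc : (P ×ˢ ((Finset.Icc 1 n : Finset ℕ) : Set ℕ)).ncard = P.ncard * n := by
    rw [Set.ncard_prod, Set.ncard_coe_finset, Nat.card_Icc]
    simp
  have hL := ncard_le_of_rel {s : Eqn X A | ∃ l r j, TransL D L n s l r j} _ hT
    (fun s q => TransL D L n s q.1.1 q.1.2 q.2)
    (fun s hs => by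
      obtain ⟨l, r, j, h⟩ := hs
      refine ⟨((l, r), j), ?_, h⟩
      obtain ⟨x, hx, U, b, V, hb, hbt, hj, hjn, rfl, hc, hp, hf⟩ := h
      refine ⟨hp, ?_⟩
      simp only [Finset.coe_Icc, Set.mem_Icc]
      refine ⟨?_, hjn⟩
      rw [← hj]
      exact List.length_pos_iff.mpr hb)
    (fun s s' q h h' => transL_unique h h')
  have hR := ncard_le_of_rel {s : Eqn X A | ∃ l r j, TransL D L n s.swap l r j} _ hT
    (fun s q => TransL D L n s.swap q.1.1 q.1.2 q.2)
    (fun s hs => by
      obtain ⟨l, r, j, h⟩ := hs
      refine ⟨((l, r), j), ?_, h⟩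
      obtain ⟨x, hx, U, b, V, hb, hbt, hj, hjn, he, hc, hp, hf⟩ := h
      refine ⟨hp, ?_⟩
      simp only [Finset.coe_Icc, Set.mem_Icc]
      refine ⟨?_, hjn⟩
      rw [← hj]
      exact List.length_pos_iff.mpr hb)
    (fun s s' q h h' => Prod.swap_injective (transL_unique h h'))
  have hsub : {s : Eqn X A | Good D L n s} = {s : Eqn X A | Clean L s} ∪
      ({s : Eqn X A | ∃ l r j, TransL D L n s l r j} ∪
        {s : Eqn X A | ∃ l r j, TransL D L n s.swap l r j}) := by
    ext s; rfl
  rw [hsub]
  refine ⟨hC.1.union (hL.1.union hR.1), ?_⟩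
  refine (Set.ncard_union_le _ _).trans ?_
  have h2 := Set.ncard_union_le {s : Eqn X A | ∃ l r j, TransL D L n s l r j}
    {s : Eqn X A | ∃ l r j, TransL D L n s.swap l r j}
  rw [hTc] at hL hR
  have h3 := hC.2
  have h4 := hL.2
  have h5 := hR.2
  nlinarith [Nat.zero_le (L.length + 1).factorial]

end Pool.Agent.helper36.WE
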