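import Pool.Agent.helper36.WE.Graph

/-!
# Triple swaps of pairs of cyclic words and the join lemma

A state is a pair of duplicate free words on the same letters, both up to rotation.  A triple swap
exchanges the first two of three blocks in both words, where the blocks start with the same three
letters in the same cyclic order.
-/

namespace Pool.Agent.helper36.WE

set_option linter.unusedSectionVars false

variable {X : Type} [DecidableEq X]

/-- Triple swap. -/
def CM (s s' : List X × List X) : Prop :=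
  ∃ (x y z : X) (P Q R P' Q' R' : List X),
    s.1 ~r (x :: P) ++ (y :: Q) ++ (z :: R) ∧ s.2 ~r (x :: P') ++ (y :: Q') ++ (z :: R') ∧
    s'.1 ~r (y :: Q) ++ (x :: P) ++ (z :: R) ∧ s'.2 ~r (y :: Q') ++ (x :: P') ++ (z :: R')

lemma CM.swap {s s' : List X × List X} (h : CM s s') : CM s.swap s'.swap := by
  obtain ⟨x, y, z, P, Q, R, P', Q', R', h1, h2, h3, h4⟩ := h
  exact ⟨x, y, z, P', Q', R', P, Q, R, h2, h1, h4, h3⟩

lemma walk_CM_swap {n : ℕ} {s s' : List X × List X} (h : Walk CM n s s') :
    Walk CM n s.swap s'.swap := by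
  obtain ⟨f, f0, fn, hf⟩ := h
  exact ⟨fun i => (f i).swap, by simp [f0], by simp [fn], fun i hi => (hf i hi).swap⟩

lemma rot_append (u v : List X) : (u ++ v) ~r (v ++ u) := List.isRotated_append

lemma rot_of_eq {l l' u v : List X} (h1 : l = u ++ v) (h2 : l' = v ++ u) : l ~r l' := by
  rw [h1, h2]; exact rot_append u v

/-- Joining: if `w` comes after `z` in both words then `z` can be made the first letter. -/
lemma move_join (x z w : X) (a1 f1 f2 b1 g1 g2 : List X) :
    CM (x :: (a1 ++ z :: (f1 ++ w :: f2)), x :: (b1 ++ z :: (g1 ++ w :: g2)))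
      (z :: (f1 ++ x :: (a1 ++ w :: f2)), z :: (g1 ++ x :: (b1 ++ w :: g2))) := by
  refine ⟨x, z, w, a1, f1, f2, b1, g1, g2, ?_, ?_, ?_, ?_⟩
  all_goals
    simp only [List.cons_append, List.append_assoc]
    exact List.IsRotated.refl _

/-- The move that enlarges the part after `z` in the second word. -/
lemma move_ii (x t y z : X) (c1 c2 c3 a2 d1 d2 e1 e2 : List X) :
    CM (x :: (c1 ++ t :: (c2 ++ y :: (c3 ++ z :: a2))),
        x :: (d1 ++ y :: (d2 ++ z :: (e1 ++ t :: e2))))
      (x :: (c1 ++ y :: (c3 ++ t :: (c2 ++ z :: a2))),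
        x :: (d1 ++ z :: (e1 ++ y :: (d2 ++ t :: e2)))) := by
  refine ⟨t, y, z, c2, c3, a2 ++ x :: c1, e2 ++ x :: d1, d2, e1, ?_, ?_, ?_, ?_⟩
  · exact rot_of_eq (u := x :: c1) (v := t :: (c2 ++ y :: (c3 ++ z :: a2))) (by simp) (by simp)
  · exact rot_of_eq (u := x :: (d1 ++ y :: (d2 ++ z :: e1))) (v := t :: e2) (by simp) (by simp)
  · exact rot_of_eq (u := x :: c1) (v := y :: (c3 ++ t :: (c2 ++ z :: a2))) (by simp) (by simp)
  · exact rot_of_eq (u := x :: (d1 ++ z :: e1)) (v := y :: (d2 ++ t :: e2)) (by simp) (by simp)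

/-- The move that changes the first letter to `m`. -/
lemma move_iii (x m t : X) (c1 c2 c3 d1 d2 d3 : List X) :
    CM (x :: (c1 ++ m :: (c2 ++ t :: c3)), x :: (d1 ++ m :: (d2 ++ t :: d3)))
      (m :: (c2 ++ x :: (c1 ++ t :: c3)), m :: (d2 ++ x :: (d1 ++ t :: d3))) :=
  move_join x m t c1 c2 c3 d1 d2 d3

/-- The data of a state that is cut after the letters `p` (first word) and `r` (second word). -/
structure CutState (p r : X) (a b : List X) : Prop where
  nodup : a.Nodup
  perm : a.Perm b
  lastA : a.getLast? = some p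
  lastB : b.getLast? = some r

lemma CutState.nodupB {p r : X} {a b : List X} (h : CutState p r a b) : b.Nodup :=
  h.perm.nodup_iff.mp h.nodup

lemma CutState.swap {p r : X} {a b : List X} (h : CutState p r a b) : CutState r p b a :=
  ⟨h.nodupB, h.perm.symm, h.lastB, h.lastA⟩

lemma CutState.trans {p r : X} {a b a' b' : List X} (h : CutState p r a b) (ha : a.Perm a')
    (hb : b.Perm b') (la : a'.getLast? = a.getLast?) (lb : b'.getLast? = b.getLast?) :
    CutState p r a' b' :=
  ⟨ha.nodup_iff.mp h.nodup, ha.symm.trans (h.perm.trans hb), la.trans h.lastA, lb.trans h.lastB⟩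

/-- The target of the join lemma. -/
def Joined (p r z : X) (a b : List X) : Prop :=
  CutState p r a b ∧ a.head? = some z ∧ b.head? = some z

/-- Two words are reverse to each other as cyclic words. -/
def Rev (a b : List X) : Prop := b ~r a.reverse

lemma Rev.swap {a b : List X} (h : Rev a b) : Rev b a := by
  unfold Rev at *
  have := h.reverse
  rw [List.reverse_reverse] at this
  exact this.symm

/-- From `(a,b)` one reaches within `n` triple swaps a joined or reversed state. -/
def Reachable (p r z : X) (n : ℕ) (a b : List X) : Prop :=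
  ∃ k ≤ n, ∃ a' b', Walk CM k (a, b) (a', b') ∧
    ((CutState p r a' b' ∧ Rev a' b') ∨ Joined p r z a' b')

lemma Reachable.swap {p r z : X} {n : ℕ} {a b : List X} (h : Reachable p r z n a b) :
    Reachable r p z n b a := by
  obtain ⟨k, hk, a', b', hw, h⟩ := h
  refine ⟨k, hk, b', a', walk_CM_swap hw, ?_⟩
  rcases h with ⟨h0, h⟩ | ⟨h1, h2, h3⟩
  · exact Or.inl ⟨h0.swap, h.swap⟩
  · exact Or.inr ⟨h1.swap, h3, h2⟩

lemma Reachable.step {p r z : X} {n : ℕ} {a b a' b' : List X} (h : CM (a, b) (a', b'))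
    (h' : Reachable p r z n a' b') : Reachable p r z (n + 1) a b := by
  obtain ⟨k, hk, a'', b'', hw, h''⟩ := h'
  exact ⟨1 + k, by omega, a'', b'', (Walk.single h).append hw, h''⟩

lemma Reachable.mono {p r z : X} {m n : ℕ} (hmn : m ≤ n) {a b : List X}
    (h : Reachable p r z m a b) : Reachable p r z n a b := by
  obtain ⟨k, hk, rest⟩ := h
  exact ⟨k, hk.trans hmn, rest⟩

lemma perm_of_counts {l l' : List X} (h : ∀ s, l.count s = l'.count s) : l.Perm l' :=
  List.perm_iff_count.mpr h

lemma reachable_unblocked {p r x z w : X} {a1 a2 b1 b2 : List X}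
    (h : CutState p r (x :: (a1 ++ z :: a2)) (x :: (b1 ++ z :: b2))) (h1 : w ∈ a2)
    (h2 : w ∈ b2) :
    Reachable p r z 1 (x :: (a1 ++ z :: a2)) (x :: (b1 ++ z :: b2)) := by
  obtain ⟨f1, f2, rfl⟩ := List.append_of_mem h1
  obtain ⟨g1, g2, rfl⟩ := List.append_of_mem h2
  refine ⟨1, le_rfl, _, _, Walk.single (move_join x z w a1 f1 f2 b1 g1 g2),
    Or.inr ⟨h.trans ?_ ?_ ?_ ?_, rfl, rfl⟩⟩
  · refine perm_of_counts fun s => ?_
    simp only [List.count_append, List.count_cons]; ring
  · refine perm_of_counts fun s => ?_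
    simp only [List.count_append, List.count_cons]; ring
  · simp [List.getLast?_append, List.getLast?_cons]
  · simp [List.getLast?_append, List.getLast?_cons]

end Pool.Agent.helper36.WE
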