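import Mathlib

/-!
# Nielsen transformations of word equations

Symbols are variables (`Sum.inl`, type `X`) or constants (`Sum.inr`, type `A`).
-/

namespace Pool.Agent.helper36.WE

variable {X A : Type} [DecidableEq X] [DecidableEq A]

/-- A word equation: the pair of its two sides.  A letter is a variable `Sum.inl x` or a
constant `Sum.inr a`. -/
abbrev Eqn (X A : Type) := List (X ⊕ A) × List (X ⊕ A)

/-- The morphism `ψ_(x,y)`: it replaces the variable `y` by `x y` and fixes every other letter. -/
def psi (x : X ⊕ A) (y : X) (w : List (X ⊕ A)) : List (X ⊕ A) :=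
  w.flatMap (fun s => if s = Sum.inl y then [x, s] else [s])

/-- The morphism `ψ̂_(x,y)`: it replaces the variable `y` by `x` and fixes every other letter. -/
def psiHat (x : X ⊕ A) (y : X) (w : List (X ⊕ A)) : List (X ⊕ A) :=
  w.map (fun s => if s = Sum.inl y then x else s)

/-- The Nielsen transformation relation between word equations. -/
inductive Step : Eqn X A → Eqn X A → Prop
  | cancel (a : A) (U V : List (X ⊕ A)) : Step (Sum.inr a :: U, Sum.inr a :: V) (U, V)
  | replLeft (x : X) (y : X ⊕ A) (U V : List (X ⊕ A)) :
      Step (Sum.inl x :: U, y :: V) (psiHat y x U, psiHat y x V)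
  | replRight (x : X ⊕ A) (y : X) (U V : List (X ⊕ A)) :
      Step (x :: U, Sum.inl y :: V) (psiHat x y U, psiHat x y V)
  | insLeft (x : X) (y : X ⊕ A) (U V : List (X ⊕ A)) :
      Step (Sum.inl x :: U, y :: V) (Sum.inl x :: psi y x U, psi y x V)
  | insRight (x : X ⊕ A) (y : X) (U V : List (X ⊕ A)) :
      Step (x :: U, Sum.inl y :: V) (psi x y U, Sum.inl y :: psi x y V)

/-- The length of a word equation. -/
def size (E : Eqn X A) : ℕ := E.1.length + E.2.length

/-- The number of occurrences of the variable `x` in the equation `E`. -/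
def occ (E : Eqn X A) (x : X) : ℕ := E.1.count (Sum.inl x) + E.2.count (Sum.inl x)

/-- Every variable occurs at most twice. -/
def Quadratic (E : Eqn X A) : Prop := ∀ x : X, occ E x ≤ 2

/-- `v` is a vertex of the graph of `E`, respectively `w` is reachable from `v`. -/
abbrev Reach : Eqn X A → Eqn X A → Prop := Relation.ReflTransGen Step

/-- There is a directed path with exactly `n` edges from `v` to `w`. -/
def PathLen (n : ℕ) (v w : Eqn X A) : Prop :=
  ∃ f : ℕ → Eqn X A, f 0 = v ∧ f n = w ∧ ∀ i < n, Step (f i) (f (i + 1))

/-- Every variable occurs at most once on the right side. -/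
def RightLinear (E : Eqn X A) : Prop := ∀ x : X, E.2.count (Sum.inl x) ≤ 1

/-- The variable `x` occurs on both sides. -/
def Shared (E : Eqn X A) (x : X) : Prop := Sum.inl x ∈ E.1 ∧ Sum.inl x ∈ E.2

/-- `b` arranges the shared variables in consecutive blocks: a shared variable of a smaller block
precedes a shared variable of a larger block on both sides. -/
def Blocks (b : X → ℕ) (E : Eqn X A) : Prop :=
  ∀ x y, Shared E x → Shared E y → b x < b y →
    [Sum.inl x, Sum.inl y].Sublist E.1 ∧ [Sum.inl x, Sum.inl y].Sublist E.2

end Pool.Agent.helper36.WE
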