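import Pool.Agent.helper36.WE.Cyc

/-! Triple swaps and the cyclic permutations of the words. -/

namespace Pool.Agent.helper36.WE

set_option linter.unusedSectionVars false

open Equiv Equiv.Perm List

variable {X : Type} [DecidableEq X]

lemma swap_mul_swap_conj {x p y : X} (hxy : x ≠ y) (hpy : p ≠ y) :
    swap x p * swap p y = swap x y * swap x p := by
  ext s
  simp only [Perm.mul_apply]
  by_cases h1 : s = x
  · subst h1
    rcases eq_or_ne s p with h | h
    · subst h; simp
    · rw [swap_apply_of_ne_of_ne h hxy, swap_apply_left, swap_apply_of_ne_of_ne h.symm hpy]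
  by_cases h2 : s = p
  · subst h2
    rw [swap_apply_left, swap_apply_of_ne_of_ne hxy.symm hpy.symm, swap_apply_right,
      swap_apply_left]
  by_cases h3 : s = y
  · subst h3
    rw [swap_apply_right, swap_apply_right, swap_apply_of_ne_of_ne h1 h2, swap_apply_right]
  · rw [swap_apply_of_ne_of_ne h2 h3, swap_apply_of_ne_of_ne h1 h2, swap_apply_of_ne_of_ne h1 h3]

lemma formPerm_append2 (x y : X) (P Q : List X) (h : ((x :: P) ++ (y :: Q)).Nodup) :
    formPerm ((x :: P) ++ (y :: Q)) = swap x y * (formPerm (x :: P) * formPerm (y :: Q)) := by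
  induction P generalizing x with
  | nil =>
      simp only [List.cons_append, List.nil_append, formPerm_cons_cons, formPerm_singleton, one_mul]
  | cons p P ih =>
      have h1 : ((p :: P) ++ (y :: Q)).Nodup := (List.nodup_cons.mp h).2
      have e1 : (x :: p :: P) ++ (y :: Q) = x :: p :: (P ++ y :: Q) := rfl
      have e2 : (p :: P) ++ (y :: Q) = p :: (P ++ y :: Q) := rfl
      rw [e1, formPerm_cons_cons, ← e2, ih p h1, formPerm_cons_cons]
      have hxy : x ≠ y := by
        rintro rfl
        simp at h
      have hpy : p ≠ y := by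
        rintro rfl
        simp at h
      rw [← mul_assoc, swap_mul_swap_conj hxy hpy]
      simp only [mul_assoc]

lemma formPerm_append3 (x y z : X) (P Q R : List X)
    (h : ((x :: P) ++ (y :: Q) ++ (z :: R)).Nodup) :
    formPerm ((x :: P) ++ (y :: Q) ++ (z :: R)) =
      swap x y * swap y z * (formPerm (x :: P) * formPerm (y :: Q) * formPerm (z :: R)) := by
  have e : (x :: P) ++ (y :: Q) ++ (z :: R) = (x :: P) ++ (y :: (Q ++ z :: R)) := by simp
  have h2 : ((y :: Q) ++ (z :: R)).Nodup := by
    rw [List.append_assoc] at h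
    exact (List.nodup_append.mp h).2.1
  rw [e] at h ⊢
  have e3 : y :: (Q ++ z :: R) = (y :: Q) ++ (z :: R) := rfl
  rw [formPerm_append2 x y P _ h, e3, formPerm_append2 y z Q R h2]
  have hd : Disjoint (formPerm (x :: P)) (swap y z) := by
    rw [Equiv.Perm.disjoint_iff_eq_or_eq]
    intro s
    by_cases hs : s ∈ x :: P
    · right
      have hne : s ∉ y :: (Q ++ z :: R) := fun h' =>
        (List.nodup_append.mp h).2.2 s hs s h' rfl
      apply swap_apply_of_ne_of_ne
      · rintro rfl; exact hne (by simp)
      · rintro rfl; exact hne (by simp)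
    · left
      exact formPerm_apply_of_notMem hs
  rw [← mul_assoc (formPerm (x :: P)) (swap y z), hd.commute.eq]
  simp only [mul_assoc]

/-- Exchanging the first two of three blocks multiplies the cycle by a permutation that depends
only on the heads of the blocks. -/
lemma formPerm_triple (x y z : X) (P Q R : List X)
    (h : ((x :: P) ++ (y :: Q) ++ (z :: R)).Nodup) :
    formPerm ((y :: Q) ++ (x :: P) ++ (z :: R)) =
      swap y x * swap x z * (swap x y * swap y z)⁻¹ *
        formPerm ((x :: P) ++ (y :: Q) ++ (z :: R)) := by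
  have h' : ((y :: Q) ++ (x :: P) ++ (z :: R)).Nodup := by
    have : ((x :: P) ++ (y :: Q) ++ (z :: R)).Perm ((y :: Q) ++ (x :: P) ++ (z :: R)) :=
      List.perm_append_comm.append_right _
    exact this.nodup_iff.mp h
  have hd : Disjoint (formPerm (x :: P)) (formPerm (y :: Q)) := by
    rw [Equiv.Perm.disjoint_iff_eq_or_eq]
    intro s
    by_cases hs : s ∈ x :: P
    · right
      apply formPerm_apply_of_notMem
      intro h'
      rw [List.append_assoc] at h
      exact (List.nodup_append.mp h).2.2 s hs s (List.mem_append_left _ h') rfl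
    · left
      exact formPerm_apply_of_notMem hs
  rw [formPerm_append3 x y z P Q R h, formPerm_append3 y x z Q P R h', ← hd.commute.eq]
  group

lemma CM_perm {s s' : List X × List X} (h : CM s s') (h1 : s.1.Nodup) (h2 : s.2.Nodup) :
    ∃ c : Perm X, formPerm s'.1 = c * formPerm s.1 ∧ formPerm s'.2 = c * formPerm s.2 := by
  obtain ⟨x, y, z, P, Q, R, P', Q', R', e1, e2, e3, e4⟩ := h
  have n1 := e1.nodup_iff.mp h1
  have n2 := e2.nodup_iff.mp h2
  have n3 : ((y :: Q) ++ (x :: P) ++ (z :: R)).Nodup :=
    (List.perm_append_comm.append_right _).nodup_iff.mp n1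
  have n4 : ((y :: Q') ++ (x :: P') ++ (z :: R')).Nodup :=
    (List.perm_append_comm.append_right _).nodup_iff.mp n2
  refine ⟨swap y x * swap x z * (swap x y * swap y z)⁻¹, ?_, ?_⟩
  · rw [formPerm_eq_of_isRotated (e3.nodup_iff.mpr n3) e3, formPerm_eq_of_isRotated h1 e1,
      formPerm_triple x y z P Q R n1]
  · rw [formPerm_eq_of_isRotated (e4.nodup_iff.mpr n4) e4, formPerm_eq_of_isRotated h2 e2,
      formPerm_triple x y z P' Q' R' n2]

lemma CM_perm_lists {s s' : List X × List X} (h : CM s s') :
    s.1.Perm s'.1 ∧ s.2.Perm s'.2 := by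
  obtain ⟨x, y, z, P, Q, R, P', Q', R', e1, e2, e3, e4⟩ := h
  exact ⟨e1.perm.trans ((List.perm_append_comm.append_right _).trans e3.perm.symm),
    e2.perm.trans ((List.perm_append_comm.append_right _).trans e4.perm.symm)⟩

/-- No letter has the same successor in both cyclic words. -/
def NoFix (a b : List X) : Prop := ∀ s ∈ a, formPerm a s ≠ formPerm b s

lemma NoFix.swap {a b : List X} (h : NoFix a b) (hp : a.Perm b) : NoFix b a :=
  fun s hs => (h s (hp.mem_iff.mpr hs)).symm

lemma NoFix.CM {a b a' b' : List X} (h : NoFix a b) (hm : CM (a, b) (a', b')) (ha : a.Nodup)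
    (hb : b.Nodup) : NoFix a' b' := by
  obtain ⟨c, h1, h2⟩ := CM_perm hm ha hb
  have hp := (CM_perm_lists hm).1
  intro s hs
  simp only at h1 h2
  rw [h1, h2, Perm.mul_apply, Perm.mul_apply]
  intro he
  exact h s (hp.mem_iff.mpr hs) (c.injective he)

lemma formPerm_adjacent {A1 A2 : List X} {s t : X} (h : (A1 ++ s :: t :: A2).Nodup) :
    formPerm (A1 ++ s :: t :: A2) s = t := by
  have h1 : (A1 ++ s :: t :: A2) ~r (s :: t :: (A2 ++ A1)) :=
    rot_of_eq (u := A1) (v := s :: t :: A2) rfl (by simp)
  rw [formPerm_eq_of_isRotated h h1]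
  have h2 := h1.nodup_iff.mp h
  exact formPerm_apply_head s t (A2 ++ A1) h2

lemma NoFix.adjacent {A1 A2 B1 B2 : List X} {s t : X}
    (h : NoFix (A1 ++ s :: t :: A2) (B1 ++ s :: t :: B2)) (ha : (A1 ++ s :: t :: A2).Nodup)
    (hb : (B1 ++ s :: t :: B2).Nodup) : False := by
  refine h s (by simp) ?_
  rw [formPerm_adjacent ha, formPerm_adjacent hb]

end Pool.Agent.helper36.WE
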