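import Pool.Agent.helper36.WE.Lift
import Pool.Agent.helper36.WE.Count

/-! Hubs, and the distance of connected pairs of words. -/

namespace Pool.Agent.helper36.WE

set_option linter.unusedSectionVars false

open Equiv Equiv.Perm List

lemma Walk.rev {α : Type*} {r : α → α → Prop} (hsym : ∀ a b, r a b → r b a) {n : ℕ} {a b : α}
    (h : Walk r n a b) : Walk r n b a := by
  obtain ⟨f, f0, fn, hf⟩ := h
  refine ⟨fun i => f (n - i), by simp [fn], by simp [f0], ?_⟩
  intro i hi
  have h1 := hf (n - (i + 1)) (by omega)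
  have h2 : n - (i + 1) + 1 = n - i := by omega
  rw [h2] at h1
  exact hsym _ _ h1

lemma Walk.expand {α : Type*} {r : α → α → Prop} {M : ℕ} {s : α → α → Prop}
    (hs : ∀ a b, s a b → ∃ n ≤ M, Walk r n a b) : ∀ (n : ℕ) {a b : α}, Walk s n a b →
    ∃ m ≤ n * M, Walk r m a b := by
  intro n
  induction n with
  | zero =>
      intro a b h
      obtain ⟨f, f0, fn, -⟩ := h
      rw [f0] at fn
      subst fn
      exact ⟨0, by omega, Walk.refl _ _⟩
  | succ n ih =>
      intro a b h
      obtain ⟨c, h1, h2⟩ := Walk.cons_inv h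
      obtain ⟨m1, hm1, w1⟩ := hs _ _ h1
      obtain ⟨m2, hm2, w2⟩ := ih h2
      exact ⟨m1 + m2, by nlinarith, w1.append w2⟩

/-- If every vertex of a class of a symmetric relation is close to a small set of hubs, then
connected vertices are close. -/
lemma hub_walk {α : Type*} {r : α → α → Prop} (hsym : ∀ a b, r a b → r b a) (H : Set α)
    (hH : H.Finite) (N P : ℕ) (hN : H.ncard ≤ N) (s : α)
    (hP : ∀ v, Relation.ReflTransGen r s v → ∃ h ∈ H, ∃ n ≤ P, Walk r n v h) {t : α}
    (ht : Relation.ReflTransGen r s t) : ∃ n ≤ N * (2 * P + 1), Walk r n s t := by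
  have hP' : ∀ v, ∃ h, Relation.ReflTransGen r s v → h ∈ H ∧ ∃ n ≤ P, Walk r n v h := by
    intro v
    by_cases hv : Relation.ReflTransGen r s v
    · obtain ⟨h, h1, h2⟩ := hP v hv
      exact ⟨h, fun _ => ⟨h1, h2⟩⟩
    · exact ⟨v, fun h => absurd h hv⟩
  choose g hg using hP'
  set r' : α → α → Prop := fun h h' => h' ∈ H ∧ ∃ n ≤ 2 * P + 1, Walk r n h h' with hr'
  have hpath : Relation.ReflTransGen r' (g s) (g t) := by
    induction ht with
    | refl => exact Relation.ReflTransGen.refl
    | tail hab hbc ih =>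
        refine ih.tail ⟨(hg _ (hab.tail hbc)).1, ?_⟩
        obtain ⟨n1, hn1, w1⟩ := (hg _ hab).2
        obtain ⟨n2, hn2, w2⟩ := (hg _ (hab.tail hbc)).2
        exact ⟨n1 + 1 + n2, by omega, ((w1.rev hsym).append (Walk.single hbc)).append w2⟩
  have hgs := hg s Relation.ReflTransGen.refl
  obtain ⟨n, hn, hw⟩ := exists_short_walk H hH N hN (by
    intro x hx
    rcases Relation.ReflTransGen.cases_tail hx with h | ⟨c, -, h⟩
    · rw [h]; exact hgs.1
    · exact h.1) hpath
  obtain ⟨m, hm, hw'⟩ := Walk.expand (M := 2 * P + 1) (fun a b h => h.2) n hw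
  obtain ⟨n1, hn1, w1⟩ := hgs.2
  obtain ⟨n2, hn2, w2⟩ := (hg t ht).2
  refine ⟨n1 + m + n2, ?_, (w1.append hw').append (w2.rev hsym)⟩
  have h3 : (n + 1) * (2 * P + 1) ≤ N * (2 * P + 1) := Nat.mul_le_mul_right _ hn
  have h4 : (n + 1) * (2 * P + 1) = n * (2 * P + 1) + (2 * P + 1) := by ring
  omega

variable {X : Type} [DecidableEq X]

lemma eq_of_formPerm {l l' : List X} {q : X} (h : formPerm l = formPerm l') (hn : l.Nodup)
    (hn' : l'.Nodup) (hl : l.getLast? = some q) (hl' : l'.getLast? = some q) : l = l' := by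
  rcases List.eq_nil_or_concat l with h0 | ⟨A0, q0, hA0⟩
  · rw [h0] at hl; simp at hl
  rcases List.eq_nil_or_concat l' with h0 | ⟨A1, q1, hA1⟩
  · rw [h0] at hl'; simp at hl'
  rw [List.concat_eq_append] at hA0 hA1
  have e1 : q0 = q := by
    rw [hA0, List.getLast?_concat, Option.some.injEq] at hl
    exact hl
  have e2 : q1 = q := by
    rw [hA1, List.getLast?_concat, Option.some.injEq] at hl'
    exact hl'
  subst e1 e2
  rcases (formPerm_eq_formPerm_iff hn hn').mp h with h1 | ⟨h1, h2⟩
  · rw [hA0, hA1] at h1 ⊢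
    rw [rot_last_unique h1 (by rw [← hA0]; exact hn)]
  · rw [hA0] at h1
    rw [hA1] at h2
    simp only [List.length_append, List.length_singleton] at h1 h2
    have e1 : A0 = [] := List.length_eq_zero_iff.mp (by omega)
    have e2 : A1 = [] := List.length_eq_zero_iff.mp (by omega)
    rw [hA0, hA1, e1, e2]

/-- A standard state is a state of cyclic words. -/
lemma Cls.st {D : Finset X} {e q : X} {ρ : Perm X} {A B : List X}
    (h : Cls D e q ρ (e :: A) (B ++ [e])) :
    St (D.erase e) (ρ * Equiv.swap e q) A B ∧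
      ((A = [] ∧ B = []) ∨ (A.getLast? = some q ∧ q ∈ B)) := by
  have hn := h.nodup
  have hp : A.Perm B := by
    have h1 : (e :: A).Perm (e :: B) := h.perm.trans List.perm_append_comm
    exact h1.cons_inv
  have he : e ∉ A := (List.nodup_cons.mp hn).1
  have hsupp : A.toFinset = D.erase e := by
    rw [← h.supp, List.toFinset_cons, Finset.erase_insert]
    rw [List.mem_toFinset]; exact he
  cases A with
  | nil =>
      have hB : B = [] := List.nil_perm.mp hp
      subst hB
      refine ⟨⟨List.nodup_nil, hp, hsupp, ?_⟩, Or.inl ⟨rfl, rfl⟩⟩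
      have h1 := h.lastA
      simp only [List.getLast?_singleton, Option.some.injEq] at h1
      subst h1
      have h2 := h.rh
      simp only [List.nil_append, rho] at h2
      rw [← h2]
      simp
      rfl
  | cons s A =>
      have hq : (s :: A).getLast? = some q := by
        have h1 := h.lastA
        rw [List.getLast?_cons_cons] at h1
        exact h1
      have hqA : q ∈ s :: A := List.mem_of_getLast? hq
      refine ⟨⟨(List.nodup_cons.mp hn).2, hp, hsupp, ?_⟩, Or.inr ⟨hq, hp.subset hqA⟩⟩
      cases B with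
      | nil => simp at hp
      | cons t B =>
          have f1 : formPerm ((t :: B) ++ [e]) = Equiv.swap t e * formPerm (t :: B) := by
            have := formPerm_append2 t e B [] h.nodupB
            rw [this, formPerm_singleton, mul_one]
          have f2 : formPerm (e :: s :: A) = Equiv.swap e s * formPerm (s :: A) :=
            formPerm_cons_cons _ _ _
          have h2 := h.rh
          have g1 : rho (e :: s :: A) ((t :: B) ++ [e]) =
            (formPerm ((t :: B) ++ [e]))⁻¹ * Equiv.swap t e * formPerm (e :: s :: A) := rfl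
          rw [g1, f1, f2] at h2
          have f3 : formPerm (s :: A) * Equiv.swap e q = Equiv.swap e s * formPerm (s :: A) := by
            rw [Equiv.mul_swap_eq_swap_mul, formPerm_apply_of_notMem he, formPerm_getLast hq]
          have f4 : Equiv.swap e s * (formPerm (s :: A) * Equiv.swap e q) = formPerm (s :: A) := by
            rw [f3, ← mul_assoc, Equiv.swap_mul_self, one_mul]
          rw [← h2]
          simp only [mul_inv_rev, Equiv.swap_inv, mul_assoc]
          rw [f4, ← mul_assoc (Equiv.swap t e), Equiv.swap_mul_self, one_mul]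

/-- The distance of two connected pairs of words. -/
theorem cls_bound {D : Finset X} {e q : X} {ρ : Perm X} {s t : List X × List X}
    (h : Cls D e q ρ s.1 s.2) (ht : Relation.ReflTransGen Sup s t) :
    ∃ n ≤ 55 * D.card ^ 4, Walk Sup n s t := by
  set T := D.erase e with hT
  set ρ' := ρ * Equiv.swap e q with hρ'
  obtain ⟨N, hN, hNc, hNw⟩ := normal_form T.card T ρ' rfl
  have heD : e ∈ D := by
    rw [← h.supp, List.mem_toFinset]
    exact h.perm.symm.subset (List.mem_of_getLast? h.lastB)
  have hTD : D.card = T.card + 1 := by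
    rw [hT, Finset.card_erase_of_mem heD]
    have := Finset.card_pos.mpr ⟨e, heD⟩
    omega
  let Q : List X × List X → Perm X → Prop := fun v σ =>
    ∃ A B, v = (e :: A, B ++ [e]) ∧ St T ρ' A B ∧
      ((A = [] ∧ B = []) ∨ (A.getLast? = some q ∧ B.getLast? = some q)) ∧ σ = formPerm A
  let H : Set (List X × List X) := {v | ∃ σ ∈ N, Q v σ}
  obtain ⟨hH, hHc⟩ := ncard_le_of_rel H N hN Q (fun v hv => hv) (by
    rintro v v' σ ⟨A, B, rfl, h1, h2, h3⟩ ⟨A', B', rfl, h1', h2', h3'⟩
    have hTe : ∀ (l : List X), l.toFinset = T → l = [] → T = ∅ := by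
      rintro l h rfl; rw [← h]; rfl
    have hnil : ∀ (l : List X), l.toFinset = T → T = ∅ → l = [] := by
      intro l h h'
      exact (List.toFinset_eq_empty_iff l).mp (h.trans h')
    have hTB : ∀ {A B}, St T ρ' A B → B.toFinset = T := by
      intro A B h
      rw [← h.supp]; exact (List.toFinset_eq_of_perm _ _ h.perm).symm
    rcases h2 with ⟨rfl, rfl⟩ | ⟨h4, h5⟩
    · have h6 := hTe _ h1.supp rfl
      rw [hnil A' h1'.supp h6, hnil B' (hTB h1') h6]
    · have hA' : A'.getLast? = some q := by
        rcases h2' with ⟨h6, -⟩ | ⟨h6, -⟩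
        · have := hnil A h1.supp (hTe A' h1'.supp h6)
          rw [this] at h4
          simp at h4
        · exact h6
      have hB' : B'.getLast? = some q := by
        rcases h2' with ⟨h6, -⟩ | ⟨-, h6⟩
        · have := hnil A h1.supp (hTe A' h1'.supp h6)
          rw [this] at h4
          simp at h4
        · exact h6
      have hAA : A = A' := eq_of_formPerm (h3.symm.trans h3') h1.nodup h1'.nodup h4 hA'
      have hBB : B = B' := by
        refine eq_of_formPerm ?_ h1.nodupB h1'.nodupB h5 hB'
        have e1 := h1.rho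
        rw [← h1'.rho, hAA] at e1
        exact inv_injective (mul_right_cancel e1)
      rw [hAA, hBB])
  have hreachHub : ∀ v, Relation.ReflTransGen Sup s v →
      ∃ h ∈ H, ∃ n ≤ 5 * T.card ^ 2 + 32 * T.card + 3, Walk Sup n v h := by
    intro v hv
    have hc := h.reach hv
    obtain ⟨a, b⟩ := v
    simp only at hc
    cases a with
    | nil => have := hc.lastA; simp at this
    | cons x A =>
        have hx : x ∈ b := hc.perm.subset (by simp)
        obtain ⟨V, b3, rfl⟩ := List.append_of_mem hx
        have hlen : b3.length ≤ T.card + 1 := by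
          have h1 := List.toFinset_card_of_nodup hc.nodup
          have h2 := hc.perm.length_eq
          rw [hc.supp, hTD] at h1
          simp only [List.length_append, List.length_cons] at h1 h2
          omega
        obtain ⟨n1, hn1, A', B', hw1⟩ := standardize (T.card + 1) x A V b3 hc hlen
        have hc' := hc.walk (s := (x :: A, V ++ x :: b3)) hw1
        simp only at hc'
        obtain ⟨hst, hcase⟩ := hc'.st
        obtain ⟨n2, hn2, a2, b2, hw2, hfin⟩ := hNw _ _ hst
        have hst2 := hst.walk hw2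
        rcases hcase with ⟨rfl, rfl⟩ | ⟨hqA, hqB⟩
        · -- no letters
          have hTe : T = ∅ := by rw [hT, ← hst.supp]; rfl
          have ha2 : a2 = [] := (List.toFinset_eq_empty_iff a2).mp (hst2.supp.trans hTe)
          rw [ha2] at hfin
          refine ⟨([e], [] ++ [e]), ⟨_, hfin, [], [], rfl, hst, Or.inl ⟨rfl, rfl⟩, rfl⟩, n1, ?_,
            hw1⟩
          nlinarith
        · have hqa2 : q ∈ a2 := by
            rw [← List.mem_toFinset, hst2.supp, ← hst.supp, List.mem_toFinset]
            exact List.mem_of_getLast? hqA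
          have hqb2 : q ∈ b2 := hst2.perm.subset hqa2
          obtain ⟨a3, ha3⟩ := exists_rot_last hqa2
          obtain ⟨b3', hb3⟩ := exists_rot_last hqb2
          have hw3 := lift_walk (e := e) n2 hw2 hst.nodup hqA ha3 hb3 List.getLast?_concat
          have hst3 : St T ρ' (a3 ++ [q]) (b3' ++ [q]) := hst2.rot ha3.symm hb3.symm
          refine ⟨(e :: (a3 ++ [q]), (b3' ++ [q]) ++ [e]), ⟨_, hfin, a3 ++ [q], b3' ++ [q], rfl,
            hst3, Or.inr ⟨List.getLast?_concat, List.getLast?_concat⟩, ?_⟩, n1 + (5 * n2 + 1), ?_,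
            hw1.append hw3⟩
          · exact (formPerm_eq_of_isRotated hst3.nodup ha3).symm
          · nlinarith
  obtain ⟨n, hn, hw⟩ := hub_walk (fun a b h => Sup.symm h) H hH ((T.card + 1) ^ 2) _
    (hHc.trans hNc) s hreachHub ht
  refine ⟨n, hn.trans ?_, hw⟩
  rw [hTD]
  have e1 : 2 * (5 * T.card ^ 2 + 32 * T.card + 3) + 1 ≤ 55 * (T.card + 1) ^ 2 := by nlinarith
  calc (T.card + 1) ^ 2 * (2 * (5 * T.card ^ 2 + 32 * T.card + 3) + 1)
      ≤ (T.card + 1) ^ 2 * (55 * (T.card + 1) ^ 2) := Nat.mul_le_mul_left _ e1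
    _ = 55 * (T.card + 1) ^ 4 := by ring

end Pool.Agent.helper36.WE
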