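import Pool.Agent.helper36.WE.FormPerm

/-! The join lemma. -/

namespace Pool.Agent.helper36.WE

set_option linter.unusedSectionVars false

open Equiv Equiv.Perm List

variable {X : Type} [DecidableEq X]

/-- Two words on the same letters are reverse to each other or contain a pair of letters in the
same order. -/
lemma reverse_or_pair (l : List X) : ∀ l' : List X, l.Nodup → l.Perm l' →
    l' = l.reverse ∨ ∃ y w f1 f2 f3 g1 g2 g3, l = f1 ++ y :: (f2 ++ w :: f3) ∧
      l' = g1 ++ y :: (g2 ++ w :: g3) := by
  induction l with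
  | nil =>
      intro l' _ hp
      left
      rw [List.nil_perm.mp hp]; rfl
  | cons s l ih =>
      intro l' hn hp
      have hs : s ∈ l' := hp.subset (by simp)
      obtain ⟨g1, g2, rfl⟩ := List.append_of_mem hs
      have hp' : l.Perm (g1 ++ g2) := by
        have : (s :: l).Perm (s :: (g1 ++ g2)) := hp.trans List.perm_middle
        exact this.cons_inv
      cases g2 with
      | nil =>
          rw [List.append_nil] at hp'
          rcases ih g1 (List.nodup_cons.mp hn).2 hp' with h | ⟨y, w, f1, f2, f3, h1, h2, h3, e1, e2⟩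
          · left; rw [h]; simp
          · right
            refine ⟨y, w, s :: f1, f2, f3, h1, h2, h3 ++ [s], ?_, ?_⟩
            · rw [e1]; rfl
            · rw [e2]; simp
      | cons w g2 =>
          right
          have hw : w ∈ l := hp'.symm.subset (by simp)
          obtain ⟨f1, f2, rfl⟩ := List.append_of_mem hw
          exact ⟨s, w, [], f1, f2, g1, [], g2, rfl, rfl⟩

/-- The pair can be chosen such that nothing is between its letters in both words. -/
lemma pair_minimal {l l' : List X} : ∀ (n : ℕ) (y w : X) (f1 f2 f3 g1 g2 g3 : List X),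
    f2.length ≤ n → l = f1 ++ y :: (f2 ++ w :: f3) → l' = g1 ++ y :: (g2 ++ w :: g3) →
    ∃ y w f1 f2 f3 g1 g2 g3, l = f1 ++ y :: (f2 ++ w :: f3) ∧
      l' = g1 ++ y :: (g2 ++ w :: g3) ∧ ∀ u ∈ f2, u ∉ g2 := by
  intro n
  induction n with
  | zero =>
      intro y w f1 f2 f3 g1 g2 g3 hn h1 h2
      have : f2 = [] := List.length_eq_zero_iff.mp (by omega)
      subst this
      exact ⟨y, w, f1, [], f3, g1, g2, g3, h1, h2, by simp⟩
  | succ n ih =>
      intro y w f1 f2 f3 g1 g2 g3 hn h1 h2
      by_cases hd : ∀ u ∈ f2, u ∉ g2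
      · exact ⟨y, w, f1, f2, f3, g1, g2, g3, h1, h2, hd⟩
      · push Not at hd
        obtain ⟨u, hu, hu'⟩ := hd
        obtain ⟨s1, s2, rfl⟩ := List.append_of_mem hu
        obtain ⟨t1, t2, rfl⟩ := List.append_of_mem hu'
        refine ih y u f1 s1 (s2 ++ w :: f3) g1 t1 (t2 ++ w :: g3) ?_ ?_ ?_
        · simp only [List.length_append, List.length_cons] at hn
          omega
        · rw [h1]; simp
        · rw [h2]; simp

/-- The case in which the part after `z` in the first word contains a pair of letters that have the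
same order in both words. -/
lemma reachable_pair {p r x z y w τ : X} {a1 b2 f1 f2 f3 g1 g2 g3 : List X}
    (h : CutState p r (x :: (a1 ++ z :: (f1 ++ y :: (f2 ++ w :: f3))))
      (x :: ((g1 ++ y :: (g2 ++ w :: g3)) ++ z :: b2)))
    (hnf : NoFix (x :: (a1 ++ z :: (f1 ++ y :: (f2 ++ w :: f3))))
      (x :: ((g1 ++ y :: (g2 ++ w :: g3)) ++ z :: b2)))
    (hp : (f1 ++ y :: (f2 ++ w :: f3)).Perm (g1 ++ y :: (g2 ++ w :: g3)))
    (hd : ∀ u ∈ f2, u ∉ g2) (h1 : τ ∈ a1) (h2 : τ ∈ b2) :
    Reachable p r z 4 (x :: (a1 ++ z :: (f1 ++ y :: (f2 ++ w :: f3))))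
      (x :: ((g1 ++ y :: (g2 ++ w :: g3)) ++ z :: b2)) := by
  obtain ⟨c1, c2, rfl⟩ := List.append_of_mem h1
  obtain ⟨e1, e2, rfl⟩ := List.append_of_mem h2
  have hnf2 : f2 ≠ [] ∨ g2 ≠ [] := by
    by_contra hcon
    push Not at hcon
    obtain ⟨rfl, rfl⟩ := hcon
    refine NoFix.adjacent (A1 := x :: (c1 ++ τ :: (c2 ++ z :: f1))) (s := y) (t := w) (A2 := f3)
      (B1 := x :: g1) (B2 := g3 ++ z :: (e1 ++ τ :: e2)) ?_ ?_ ?_
    · simpa using hnf
    · simpa using h.nodup
    · simpa using h.nodupB
  have hna := h.nodup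
  have hnb := h.nodupB
  -- first move
  have m1 : CM (x :: ((c1 ++ τ :: c2) ++ z :: (f1 ++ y :: (f2 ++ w :: f3))),
      x :: ((g1 ++ y :: (g2 ++ w :: g3)) ++ z :: (e1 ++ τ :: e2)))
      (y :: (f2 ++ x :: (c1 ++ τ :: (c2 ++ z :: (f1 ++ w :: f3)))),
       y :: (g2 ++ x :: ((g1 ++ w :: (g3 ++ z :: e1)) ++ τ :: e2))) := by
    have := move_join x y w (c1 ++ τ :: (c2 ++ z :: f1)) f2 f3 g1 g2 (g3 ++ z :: (e1 ++ τ :: e2))
    simpa using this
  have m2 : CM (y :: (f2 ++ x :: (c1 ++ τ :: (c2 ++ z :: (f1 ++ w :: f3)))),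
       y :: (g2 ++ x :: ((g1 ++ w :: (g3 ++ z :: e1)) ++ τ :: e2)))
       (x :: ((c1 ++ y :: (f2 ++ τ :: c2)) ++ z :: (f1 ++ w :: f3)),
        x :: ((g1 ++ w :: g3) ++ z :: (e1 ++ y :: (g2 ++ τ :: e2)))) := by
    have := move_join y x τ f2 c1 (c2 ++ z :: (f1 ++ w :: f3)) g2 (g1 ++ w :: (g3 ++ z :: e1)) e2
    simpa using this
  have hcut : CutState p r (x :: ((c1 ++ y :: (f2 ++ τ :: c2)) ++ z :: (f1 ++ w :: f3)))
        (x :: ((g1 ++ w :: g3) ++ z :: (e1 ++ y :: (g2 ++ τ :: e2)))) := by
    refine h.trans (perm_of_counts fun s => ?_) (perm_of_counts fun s => ?_) ?_ ?_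
    · simp only [List.count_append, List.count_cons]; ring
    · simp only [List.count_append, List.count_cons]; ring
    · simp [List.getLast?_append, List.getLast?_cons]
    · simp [List.getLast?_append, List.getLast?_cons]
  have hfin : Reachable p r z 2 (x :: ((c1 ++ y :: (f2 ++ τ :: c2)) ++ z :: (f1 ++ w :: f3)))
        (x :: ((g1 ++ w :: g3) ++ z :: (e1 ++ y :: (g2 ++ τ :: e2)))) := by
    by_cases hg : g2 = []
    · -- `f2` is not empty
      have hf : f2 ≠ [] := by
        rcases hnf2 with h | h
        · exact h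
        · exact absurd hg h
      subst hg
      obtain ⟨u, hu⟩ := List.exists_mem_of_ne_nil f2 hf
      obtain ⟨k1, k2, rfl⟩ := List.append_of_mem hu
      have hu1 : u ∈ g1 ++ y :: ([] ++ w :: g3) := hp.subset (by simp)
      have huy : u ≠ y := by
        rintro rfl
        simp [List.nodup_cons, List.nodup_append] at hna
      have huw : u ≠ w := by
        rintro rfl
        simp [List.nodup_cons, List.nodup_append] at hna
      have hu2 : u ∈ g1 ∨ u ∈ g3 := by
        simpa [huy, huw] using hu1
      rcases hu2 with hu2 | hu2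
      · obtain ⟨h1', h2', rfl⟩ := List.append_of_mem hu2
        have m3 := move_ii x y u z c1 k1 (k2 ++ τ :: c2) (f1 ++ w :: f3) h1' (h2' ++ w :: g3) e1
          (τ :: e2)
        have hcut2 : CutState p r (x :: ((c1 ++ u :: ((k2 ++ τ :: c2) ++ y :: k1)) ++
            z :: (f1 ++ w :: f3)))
            (x :: (h1' ++ z :: (e1 ++ u :: ((h2' ++ w :: g3) ++ y :: (τ :: e2))))) := by
          refine hcut.trans (perm_of_counts fun s => ?_) (perm_of_counts fun s => ?_) ?_ ?_
          · simp only [List.count_append, List.count_cons]; ring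
          · simp only [List.count_append, List.count_cons, List.nil_append]; ring
          · simp [List.getLast?_append, List.getLast?_cons]
          · simp [List.getLast?_append, List.getLast?_cons]
        refine Reachable.step (a' := x :: ((c1 ++ u :: ((k2 ++ τ :: c2) ++ y :: k1)) ++
            z :: (f1 ++ w :: f3))) (b' := x :: (h1' ++ z :: (e1 ++ u :: ((h2' ++ w :: g3) ++
            y :: (τ :: e2))))) ?_ (reachable_unblocked (w := w) hcut2 (by simp) (by simp))
        simpa using m3
      · obtain ⟨h1', h2', rfl⟩ := List.append_of_mem hu2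
        have m3 := (move_ii x w u z g1 h1' h2' (e1 ++ y :: (τ :: e2)) (c1 ++ y :: k1)
          (k2 ++ τ :: c2) f1 f3).swap
        have hcut2 : CutState p r (x :: ((c1 ++ y :: k1) ++ z :: (f1 ++ u :: ((k2 ++ τ :: c2) ++
            w :: f3))))
            (x :: ((g1 ++ u :: (h2' ++ w :: h1')) ++ z :: (e1 ++ y :: (τ :: e2)))) := by
          refine hcut.trans (perm_of_counts fun s => ?_) (perm_of_counts fun s => ?_) ?_ ?_
          · simp only [List.count_append, List.count_cons]; ring
          · simp only [List.count_append, List.count_cons, List.nil_append]; ring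
          · simp [List.getLast?_append, List.getLast?_cons]
          · simp [List.getLast?_append, List.getLast?_cons]
        refine Reachable.step (a' := x :: ((c1 ++ y :: k1) ++ z :: (f1 ++ u :: ((k2 ++ τ :: c2) ++
            w :: f3)))) (b' := x :: ((g1 ++ u :: (h2' ++ w :: h1')) ++ z :: (e1 ++ y :: (τ :: e2))))
            ?_ (reachable_unblocked (w := τ) hcut2 (by simp) (by simp))
        simpa using m3
    · obtain ⟨u, hu⟩ := List.exists_mem_of_ne_nil g2 hg
      have hu1 : u ∈ f1 ++ y :: (f2 ++ w :: f3) := hp.symm.subset (by simp [hu])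
      have huf : u ∉ f2 := fun h' => hd u h' hu
      have huy : u ≠ y := by
        rintro rfl
        simp [List.nodup_cons, List.nodup_append, hu] at hnb
      have huw : u ≠ w := by
        rintro rfl
        clear m1 m2 hcut
        obtain ⟨k1, k2, rfl⟩ := List.append_of_mem hu
        simp [List.nodup_cons, List.nodup_append] at hnb
      have hu2 : u ∈ f1 ∨ u ∈ f3 := by
        simpa [huy, huw, huf] using hu1
      refine (reachable_unblocked (w := u) hcut ?_ ?_).mono (by norm_num)
      · rcases hu2 with h | h <;> simp [h]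
      · simp [hu]
  exact Reachable.step m1 (Reachable.step m2 hfin)


/-- **Join lemma.**  From a state in which no letter has the same successor in both words, one
reaches within `k + 4` triple swaps a state in which `z` is the successor of `p` in the first word
and the successor of `r` in the second word, or a reversed state. -/
theorem join_lemma (z : X) : ∀ (k : ℕ) (p r x : X) (a1 a2 b1 b2 : List X),
    CutState p r (x :: (a1 ++ z :: a2)) (x :: (b1 ++ z :: b2)) → a2 ≠ [] → b2 ≠ [] →
    NoFix (x :: (a1 ++ z :: a2)) (x :: (b1 ++ z :: b2)) → a1.length + b1.length ≤ k →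
    Reachable p r z (k + 4) (x :: (a1 ++ z :: a2)) (x :: (b1 ++ z :: b2)) := by
  intro k
  induction k with
  | zero =>
      intro p r x a1 a2 b1 b2 hcut ha2 hb2 hnf hk
      exfalso
      have e1 : a1 = [] := List.length_eq_zero_iff.mp (by omega)
      have e2 : b1 = [] := List.length_eq_zero_iff.mp (by omega)
      subst e1 e2
      refine NoFix.adjacent (A1 := []) (s := x) (t := z) (A2 := a2) (B1 := []) (B2 := b2) hnf
        hcut.nodup hcut.nodupB
  | succ k ih =>
      intro p r x a1 a2 b1 b2 hcut ha2 hb2 hnf hk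
      have hna := hcut.nodup
      have hnb := hcut.nodupB
      -- the state is unblocked
      by_cases hU : ∃ w ∈ a2, w ∈ b2
      · obtain ⟨w, h1, h2⟩ := hU
        exact (reachable_unblocked hcut h1 h2).mono (by omega)
      push Not at hU
      -- progress
      have key : ∀ (p r : X) (a1 a2 b1 b2 : List X),
          CutState p r (x :: (a1 ++ z :: a2)) (x :: (b1 ++ z :: b2)) → a2 ≠ [] → b2 ≠ [] →
          NoFix (x :: (a1 ++ z :: a2)) (x :: (b1 ++ z :: b2)) → a1.length + b1.length ≤ k + 1 →
          (∃ t ∈ b2, ∃ c1 c2 y c3, a1 = c1 ++ t :: (c2 ++ y :: c3) ∧ y ∈ b1) →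
          Reachable p r z (k + 1 + 4) (x :: (a1 ++ z :: a2)) (x :: (b1 ++ z :: b2)) := by
        rintro p r a1 a2 b1 b2 hcut ha2 hb2 hnf hk ⟨t, ht, c1, c2, y, c3, rfl, hy⟩
        obtain ⟨d1, d2, rfl⟩ := List.append_of_mem hy
        obtain ⟨e1, e2, rfl⟩ := List.append_of_mem ht
        have m := move_ii x t y z c1 c2 c3 a2 d1 d2 e1 e2
        have m' : CM (x :: ((c1 ++ t :: (c2 ++ y :: c3)) ++ z :: a2),
            x :: ((d1 ++ y :: d2) ++ z :: (e1 ++ t :: e2)))
            (x :: ((c1 ++ y :: (c3 ++ t :: c2)) ++ z :: a2),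
              x :: (d1 ++ z :: (e1 ++ y :: (d2 ++ t :: e2)))) := by
          simpa using m
        refine (Reachable.step m' (ih p r x _ _ _ _ ?_ ha2 (by simp) (hnf.CM m' hcut.nodup
          hcut.nodupB) ?_)).mono (by omega)
        · refine hcut.trans (perm_of_counts fun s => ?_) (perm_of_counts fun s => ?_) ?_ ?_
          · simp only [List.count_append, List.count_cons]; ring
          · simp only [List.count_append, List.count_cons]; ring
          · simp [List.getLast?_append, List.getLast?_cons]
          · simp [List.getLast?_append, List.getLast?_cons]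
        · simp only [List.length_append, List.length_cons] at hk ⊢
          omega
      by_cases hii : ∃ t ∈ b2, ∃ c1 c2 y c3, a1 = c1 ++ t :: (c2 ++ y :: c3) ∧ y ∈ b1
      · exact key p r a1 a2 b1 b2 hcut ha2 hb2 hnf hk hii
      by_cases hii' : ∃ t ∈ a2, ∃ c1 c2 y c3, b1 = c1 ++ t :: (c2 ++ y :: c3) ∧ y ∈ a1
      · exact (key r p b1 b2 a1 a2 hcut.swap hb2 ha2 (hnf.swap hcut.perm) (by omega) hii').swap
      -- elements
      have hnba : b1.Nodup ∧ b2.Nodup ∧ a1.Nodup ∧ a2.Nodup := by
        simp only [List.nodup_cons, List.nodup_append] at hna hnb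
        exact ⟨hnb.2.1, hnb.2.2.1.2, hna.2.1, hna.2.2.1.2⟩
      have hmemb2 : ∀ t ∈ b2, t ∈ a1 := by
        intro t ht
        have h1 : t ∈ x :: (a1 ++ z :: a2) := hcut.perm.symm.subset (by simp [ht])
        have h2 : t ≠ x := by
          rintro rfl
          simp [ht] at hnb
        have h3 : t ≠ z := by
          rintro rfl
          simp [List.nodup_cons, List.nodup_append, ht] at hnb
        have h4 : t ∉ a2 := fun h' => hU t h' ht
        simpa [h2, h3, h4] using h1
      have hmema2 : ∀ t ∈ a2, t ∈ b1 := by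
        intro t ht
        have h1 : t ∈ x :: (b1 ++ z :: b2) := hcut.perm.subset (by simp [ht])
        have h2 : t ≠ x := by
          rintro rfl
          simp [ht] at hna
        have h3 : t ≠ z := by
          rintro rfl
          simp [List.nodup_cons, List.nodup_append, ht] at hna
        have h4 : t ∉ b2 := hU t ht
        simpa [h2, h3, h4] using h1
      by_cases hM : ∃ m ∈ a1, m ∈ b1
      · obtain ⟨m, hm1, hm2⟩ := hM
        obtain ⟨c1, c2, rfl⟩ := List.append_of_mem hm1
        obtain ⟨d1, d2, rfl⟩ := List.append_of_mem hm2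
        obtain ⟨τ, hτ⟩ := List.exists_mem_of_ne_nil b2 hb2
        have hτ1 := hmemb2 τ hτ
        have hτm : τ ≠ m := by
          rintro rfl
          clear hmemb2 hmema2 key
          obtain ⟨q1, q2, rfl⟩ := List.append_of_mem hτ
          simp [List.nodup_cons, List.nodup_append] at hnb
        have hτc1 : τ ∉ c1 := by
          intro h'
          obtain ⟨q1, q2, rfl⟩ := List.append_of_mem h'
          exact hii ⟨τ, hτ, q1, q2, m, c2, by simp, hm2⟩
        have hτ2 : τ ∈ c2 := by simpa [hτm, hτc1] using hτ1
        obtain ⟨c3, c4, rfl⟩ := List.append_of_mem hτ2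
        obtain ⟨e1, e2, rfl⟩ := List.append_of_mem hτ
        have mv := move_join x m τ c1 c3 (c4 ++ z :: a2) d1 (d2 ++ z :: e1) e2
        have mv' : CM (x :: ((c1 ++ m :: (c3 ++ τ :: c4)) ++ z :: a2),
            x :: ((d1 ++ m :: d2) ++ z :: (e1 ++ τ :: e2)))
            (m :: ((c3 ++ x :: (c1 ++ τ :: c4)) ++ z :: a2),
              m :: (d2 ++ z :: (e1 ++ x :: (d1 ++ τ :: e2)))) := by
          simpa using mv
        refine (Reachable.step mv' (ih p r m _ _ _ _ ?_ ha2 (by simp) (hnf.CM mv' hcut.nodup
          hcut.nodupB) ?_)).mono (by omega)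
        · refine hcut.trans (perm_of_counts fun s => ?_) (perm_of_counts fun s => ?_) ?_ ?_
          · simp only [List.count_append, List.count_cons]; ring
          · simp only [List.count_append, List.count_cons]; ring
          · simp [List.getLast?_append, List.getLast?_cons]
          · simp [List.getLast?_append, List.getLast?_cons]
        · simp only [List.length_append, List.length_cons] at hk ⊢
          omega
      · push Not at hM
        have hmema1 : ∀ t ∈ a1, t ∈ b2 := by
          intro t ht
          have h1 : t ∈ x :: (b1 ++ z :: b2) := hcut.perm.subset (by simp [ht])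
          have h2 : t ≠ x := by
            rintro rfl
            simp [ht] at hna
          have h3 : t ≠ z := by
            rintro rfl
            simp only [List.nodup_cons, List.nodup_append, List.mem_cons, forall_eq_or_imp] at hna
            exact (hna.2.2.2 t ht).1 rfl
          have h4 : t ∉ b1 := hM t ht
          simpa [h2, h3, h4] using h1
        have hmemb1 : ∀ t ∈ b1, t ∈ a2 := by
          intro t ht
          have h1 : t ∈ x :: (a1 ++ z :: a2) := hcut.perm.symm.subset (by simp [ht])
          have h2 : t ≠ x := by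
            rintro rfl
            simp [ht] at hnb
          have h3 : t ≠ z := by
            rintro rfl
            simp only [List.nodup_cons, List.nodup_append, List.mem_cons, forall_eq_or_imp] at hnb
            exact (hnb.2.2.2 t ht).1 rfl
          have h4 : t ∉ a1 := fun h' => hM t h' ht
          simpa [h2, h3, h4] using h1
        have p1 : a2.Perm b1 := (List.perm_ext_iff_of_nodup hnba.2.2.2 hnba.1).mpr
          fun t => ⟨hmema2 t, hmemb1 t⟩
        have p2 : b2.Perm a1 := (List.perm_ext_iff_of_nodup hnba.2.1 hnba.2.2.1).mpr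
          fun t => ⟨hmemb2 t, hmema1 t⟩
        rcases reverse_or_pair a2 b1 hnba.2.2.2 p1 with h1 | ⟨y, w, f1, f2, f3, g1, g2, g3, e1, e2⟩
        · rcases reverse_or_pair b2 a1 hnba.2.1 p2 with h2 | ⟨y, w, f1, f2, f3, g1, g2, g3, e1, e2⟩
          · -- the reversed state
            refine ⟨0, by omega, _, _, Walk.refl _ _, Or.inl ⟨hcut, ?_⟩⟩
            unfold Rev
            rw [h1, h2]
            refine rot_of_eq (u := [x]) (v := a2.reverse ++ z :: b2) rfl ?_
            simp
          · obtain ⟨y, w, f1, f2, f3, g1, g2, g3, e1, e2, hd⟩ :=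
              pair_minimal _ y w f1 f2 f3 g1 g2 g3 le_rfl e1 e2
            obtain ⟨τ, hτ⟩ := List.exists_mem_of_ne_nil a2 ha2
            subst e1 e2
            refine (reachable_pair (τ := τ) (hcut.swap) (hnf.swap hcut.perm) p2 hd (hmema2 τ hτ)
              hτ).swap.mono (by omega)
        · obtain ⟨y, w, f1, f2, f3, g1, g2, g3, e1, e2, hd⟩ :=
              pair_minimal _ y w f1 f2 f3 g1 g2 g3 le_rfl e1 e2
          obtain ⟨τ, hτ⟩ := List.exists_mem_of_ne_nil b2 hb2
          subst e1 e2
          exact (reachable_pair (τ := τ) hcut hnf p1 hd (hmemb2 τ hτ) hτ).mono (by omega)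

end Pool.Agent.helper36.WE
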