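import Pool.Agent.helper36.WE.Props

/-! Steps that keep the length; shortening of paths. -/

namespace Pool.Agent.helper36.WE

set_option linter.unusedSectionVars false

variable {X A : Type} [DecidableEq X] [DecidableEq A]

attribute [local instance] lawfulBEq_sum

lemma DStepL.step {D : Finset X} {s s' : Eqn X A} (h : DStepL D s s') : Step s s' := by
  obtain ⟨x, hx, y, U, V, hy, rfl, rfl⟩ := h
  exact Step.insLeft x y U V

lemma DStep.step {D : Finset X} {s s' : Eqn X A} (h : DStep D s s') : Step s s' := by
  rcases h with h | h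
  · exact h.step
  · simpa using step_swap h.step

/-- The finite set of variables that occur exactly twice. -/
def dbl (E : Eqn X A) : Finset X :=
  (((E.1 ++ E.2).filterMap Sum.getLeft?).toFinset).filter (fun x => occ E x = 2)

lemma mem_dbl (E : Eqn X A) (x : X) : x ∈ dbl E ↔ occ E x = 2 := by
  unfold dbl
  rw [Finset.mem_filter]
  constructor
  · exact fun h => h.2
  · intro h
    refine ⟨?_, h⟩
    rw [List.mem_toFinset, List.mem_filterMap]
    refine ⟨Sum.inl x, ?_, rfl⟩
    rw [List.mem_append]
    by_contra hn
    push Not at hn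
    simp only [occ, List.count_eq_zero_of_not_mem hn.1, List.count_eq_zero_of_not_mem hn.2] at h
    omega

/-- A step that keeps the length is a step with a winner that occurs twice, and keeps all
numbers of occurrences. -/
lemma levelstep {E E' : Eqn X A} (hq : Quadratic E) (h : Step E E') (hs : size E' = size E) :
    DStep (dbl E) E E' ∧ ∀ z, occ E' z = occ E z := by
  cases h with
  | cancel a U V => simp only [size, List.length_cons] at hs; omega
  | replLeft x y U V => simp only [size, List.length_cons, length_psiHat] at hs; omega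
  | replRight x y U V => simp only [size, List.length_cons, length_psiHat] at hs; omega
  | insLeft x y U V =>
      obtain ⟨h1, h2⟩ := occ_of_insLeft x y U V hq hs
      exact ⟨Or.inl (dstepL_of_insLeft _ x y U V ((mem_dbl _ _).mpr h1) hq hs), h2⟩
  | insRight x y U V =>
      have hs' : size ((Sum.inl y :: ins [x] y V, ins [x] y U) : Eqn X A) =
          size ((Sum.inl y :: V, x :: U) : Eqn X A) := by
        rw [← size_swap, ← size_swap ((Sum.inl y :: V, x :: U) : Eqn X A)]
        exact hs
      obtain ⟨h1, h2⟩ := occ_of_insLeft y x V U (quadratic_swap hq) hs'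
      refine ⟨Or.inr (dstepL_of_insLeft _ y x V U ((mem_dbl _ _).mpr ?_) (quadratic_swap hq) hs'),
        fun z => ?_⟩
      · rw [← occ_swap]; exact h1
      · rw [← occ_swap, ← occ_swap ((x :: U, Sum.inl y :: V) : Eqn X A)]
        exact h2 z

/-- Split a path at the first step that is not an `R`-step. -/
lemma split_path {r R : Eqn X A → Eqn X A → Prop} {a b : Eqn X A}
    (h : Relation.ReflTransGen r a b) :
    Relation.ReflTransGen (fun s s' => r s s' ∧ R s s') a b ∨
      ∃ u u', Relation.ReflTransGen (fun s s' => r s s' ∧ R s s') a u ∧ r u u' ∧ ¬ R u u' ∧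
        Relation.ReflTransGen r u' b := by
  induction h using Relation.ReflTransGen.head_induction_on with
  | refl => exact Or.inl Relation.ReflTransGen.refl
  | head hac hcb ih =>
      rename_i a c
      by_cases hR : R a c
      · rcases ih with ih | ⟨u, u', h1, h2, h3, h4⟩
        · exact Or.inl (ih.head ⟨hac, hR⟩)
        · exact Or.inr ⟨u, u', h1.head ⟨hac, hR⟩, h2, h3, h4⟩
      · exact Or.inr ⟨a, c, Relation.ReflTransGen.refl, hac, hR, hcb⟩

/-- A shortening principle.  `Φ` is a potential that decreases at steps which are not `R`-steps;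
`P` is an invariant; from every equation with property `P`, all the `R`-paths can be shortened to
fewer than `N` steps. -/
lemma shorten (P : Eqn X A → Prop) (R : Eqn X A → Eqn X A → Prop) (Φ : Eqn X A → ℕ) (N : ℕ)
    (hP : ∀ s s', P s → Step s s' → P s')
    (hΦ : ∀ s s', P s → Step s s' → Φ s' ≤ Φ s)
    (hΦ' : ∀ s s', P s → Step s s' → ¬ R s s' → Φ s' < Φ s)
    (hR : ∀ s s', P s → Relation.ReflTransGen (fun s s' => Step s s' ∧ R s s') s s' →
      ∃ n < N, Walk Step n s s') :
    ∀ (m : ℕ) (s t : Eqn X A), P s → Φ s ≤ m → Reach s t →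
      ∃ n, n < (m + 1) * N ∧ Walk Step n s t := by
  have hPr : ∀ s s', P s → Relation.ReflTransGen (fun s s' => Step s s' ∧ R s s') s s' →
      P s' ∧ Φ s' ≤ Φ s := by
    intro s s' hs h
    induction h with
    | refl => exact ⟨hs, le_rfl⟩
    | tail _ hbc ih => exact ⟨hP _ _ ih.1 hbc.1, (hΦ _ _ ih.1 hbc.1).trans ih.2⟩
  intro m
  induction m with
  | zero =>
      intro s t hs hm h
      rcases split_path (R := R) h with h | ⟨u, u', h1, h2, h3, h4⟩
      · obtain ⟨n, hn, hw⟩ := hR s t hs h
        exact ⟨n, by omega, hw⟩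
      · have h5 := hPr s u hs h1
        have := hΦ' u u' h5.1 h2 h3
        omega
  | succ m ih =>
      intro s t hs hm h
      rcases split_path (R := R) h with h | ⟨u, u', h1, h2, h3, h4⟩
      · obtain ⟨n, hn, hw⟩ := hR s t hs h
        exact ⟨n, by nlinarith, hw⟩
      · have h5 := hPr s u hs h1
        have h6 := hΦ' u u' h5.1 h2 h3
        obtain ⟨n1, hn1, hw1⟩ := hR s u hs h1
        obtain ⟨n2, hn2, hw2⟩ := ih u' t (hP _ _ h5.1 h2) (by omega) h4
        refine ⟨n1 + 1 + n2, ?_, (hw1.append (Walk.single h2)).append hw2⟩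
        have : (m + 1 + 1) * N = N + (m + 1) * N := by ring
        omega

lemma walk_pathLen {n : ℕ} {v w : Eqn X A} (h : Walk Step n v w) : PathLen n v w := h

end Pool.Agent.helper36.WE
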