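import Pool.Agent.helper36.WE.Std

/-! Triple swaps of standard states by super moves. -/

namespace Pool.Agent.helper36.WE

set_option linter.unusedSectionVars false

open Equiv Equiv.Perm List

variable {X : Type} [DecidableEq X]

lemma Walk.cons_inv {α : Type*} {r : α → α → Prop} {n : ℕ} {a b : α} (h : Walk r (n + 1) a b) :
    ∃ c, r a c ∧ Walk r n c b := by
  obtain ⟨f, f0, fn, hf⟩ := h
  refine ⟨f 1, ?_, fun i => f (i + 1), rfl, fn, fun i hi => hf (i + 1) (by omega)⟩
  rw [← f0]; exact hf 0 (by omega)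

lemma exists_split_of_rot {α : Type*} {l l' : List α} (h : l ~r l') :
    ∃ u v, l = u ++ v ∧ l' = v ++ u := by
  obtain ⟨k, hk⟩ := h
  rcases List.eq_nil_or_concat l with hl0 | hl0
  · subst hl0
    rw [List.rotate_nil] at hk
    exact ⟨[], [], rfl, hk.symm⟩
  have hlen : 0 < l.length := by
    obtain ⟨u, v, rfl⟩ := hl0
    simp
  refine ⟨l.take (k % l.length), l.drop (k % l.length), (List.take_append_drop _ _).symm, ?_⟩
  rw [← hk, ← List.rotate_mod, List.rotate_eq_drop_append_take (Nat.mod_lt _ hlen).le]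

lemma sup_rotB {e : X} {A B B' : List X} (h : B ~r B') :
    Sup (e :: A, B ++ [e]) (e :: A, B' ++ [e]) := by
  obtain ⟨u, v, rfl, rfl⟩ := exists_split_of_rot h
  exact supL_mk e A u v [] (by simp) (by simp)

lemma lift_block {e x y z : X} {P Q Z1 Z2 P' Q' R' B B'' : List X}
    (hB : B ~r (x :: P') ++ (y :: Q') ++ (z :: R'))
    (hB'' : B'' ~r (y :: Q') ++ (x :: P') ++ (z :: R')) :
    Walk Sup 5 (e :: (Z2 ++ ((x :: P) ++ ((y :: Q) ++ (z :: Z1)))), B ++ [e])
      (e :: (Z2 ++ ((y :: Q) ++ ((x :: P) ++ (z :: Z1)))), B'' ++ [e]) := by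
  have m1 : Sup (e :: (Z2 ++ ((x :: P) ++ ((y :: Q) ++ (z :: Z1)))), B ++ [e])
      (e :: (Z2 ++ ((x :: P) ++ ((y :: Q) ++ (z :: Z1)))),
        (z :: (R' ++ ((x :: P') ++ (y :: Q')))) ++ [e]) := by
    refine sup_rotB (hB.trans ?_)
    exact rot_of_eq (u := (x :: P') ++ (y :: Q')) (v := z :: R') (by simp) (by simp)
  have m2 : Sup (e :: (Z2 ++ ((x :: P) ++ ((y :: Q) ++ (z :: Z1)))),
        (z :: (R' ++ ((x :: P') ++ (y :: Q')))) ++ [e])
      (y :: (Q ++ (e :: (Z2 ++ ((x :: P) ++ (z :: Z1))))),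
        (z :: (R' ++ ((x :: P') ++ (y :: Q')))) ++ [e]) :=
    supR_mk z _ (e :: (Z2 ++ (x :: P))) (y :: Q) Z1 (by simp) (by simp)
  have m3 : Sup (y :: (Q ++ (e :: (Z2 ++ ((x :: P) ++ (z :: Z1))))),
        (z :: (R' ++ ((x :: P') ++ (y :: Q')))) ++ [e])
      (y :: (Q ++ (e :: (Z2 ++ ((x :: P) ++ (z :: Z1))))),
        (x :: (P' ++ ((z :: R') ++ (y :: Q')))) ++ [e]) :=
    supL_mk y _ (z :: R') (x :: P') (Q' ++ [e]) (by simp) (by simp)
  have m4 : Sup (y :: (Q ++ (e :: (Z2 ++ ((x :: P) ++ (z :: Z1))))),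
        (x :: (P' ++ ((z :: R') ++ (y :: Q')))) ++ [e])
      (e :: (Z2 ++ ((y :: Q) ++ ((x :: P) ++ (z :: Z1)))),
        (x :: (P' ++ ((z :: R') ++ (y :: Q')))) ++ [e]) :=
    supR_mk x _ (y :: Q) (e :: Z2) (P ++ (z :: Z1)) (by simp) (by simp)
  have m5 : Sup (e :: (Z2 ++ ((y :: Q) ++ ((x :: P) ++ (z :: Z1)))),
        (x :: (P' ++ ((z :: R') ++ (y :: Q')))) ++ [e])
      (e :: (Z2 ++ ((y :: Q) ++ ((x :: P) ++ (z :: Z1)))), B'' ++ [e]) := by
    refine sup_rotB (List.IsRotated.trans ?_ hB''.symm)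
    exact rot_of_eq (u := (x :: P') ++ (z :: R')) (v := y :: Q') (by simp) (by simp)
  exact ((((Walk.single m1).append (Walk.single m2)).append (Walk.single m3)).append
    (Walk.single m4)).append (Walk.single m5)

lemma lift_third {e x y z q : X} {A A'' P Q R P' Q' R' B B'' : List X}
    (hA : A ~r (x :: P) ++ (y :: Q) ++ (z :: R)) (hA'' : A'' ~r (y :: Q) ++ (x :: P) ++ (z :: R))
    (hB : B ~r (x :: P') ++ (y :: Q') ++ (z :: R'))
    (hB'' : B'' ~r (y :: Q') ++ (x :: P') ++ (z :: R'))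
    (hn : A.Nodup) (hq : A.getLast? = some q) (hq'' : A''.getLast? = some q)
    (hqz : q ∈ z :: R) :
    Walk Sup 5 (e :: A, B ++ [e]) (e :: A'', B'' ++ [e]) := by
  obtain ⟨Z1, Z2, hZ⟩ : ∃ Z1 Z2, z :: R = (z :: Z1) ++ Z2 ∧ (z :: Z1).getLast? = some q := by
    obtain ⟨u, v, h⟩ := List.append_of_mem hqz
    cases u with
    | nil =>
        rw [List.nil_append, List.cons.injEq] at h
        exact ⟨[], R, rfl, by rw [h.1]; rfl⟩
    | cons s u =>
        rw [List.cons_append, List.cons.injEq] at h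
        refine ⟨u ++ [q], v, by rw [h.2]; simp, getLast_cc _ _ _⟩
  obtain ⟨hZ, hZl⟩ := hZ
  rcases List.eq_nil_or_concat (z :: Z1) with h0 | ⟨Z3, q', hZ3⟩
  · simp at h0
  rw [List.concat_eq_append] at hZ3
  have hqq : q' = q := by
    rw [hZ3, List.getLast?_concat, Option.some.injEq] at hZl
    exact hZl
  subst hqq
  have hAe : A = Z2 ++ ((x :: P) ++ ((y :: Q) ++ (z :: Z1))) := by
    rcases List.eq_nil_or_concat A with h0 | ⟨A0, q'', hA0⟩
    · rw [h0] at hq; simp at hq
    rw [List.concat_eq_append] at hA0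
    have : q'' = q' := by
      rw [hA0, List.getLast?_concat, Option.some.injEq] at hq
      exact hq
    subst this
    rw [hA0, hZ3]
    have h1 : (A0 ++ [q'']) ~r ((Z2 ++ ((x :: P) ++ ((y :: Q) ++ Z3))) ++ [q'']) := by
      rw [← hA0]
      refine hA.trans ?_
      refine rot_of_eq (u := (x :: P) ++ ((y :: Q) ++ (z :: Z1))) (v := Z2) ?_ ?_
      · rw [hZ]; simp
      · rw [hZ3]; simp
    rw [rot_last_unique h1 (by rw [← hA0]; exact hn)]
    simp
  have hn'' : A''.Nodup := by
    rw [hA''.nodup_iff, (List.perm_append_comm.append_right _).nodup_iff, ← hA.nodup_iff]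
    exact hn
  have hAe'' : A'' = Z2 ++ ((y :: Q) ++ ((x :: P) ++ (z :: Z1))) := by
    rcases List.eq_nil_or_concat A'' with h0 | ⟨A0, q'', hA0⟩
    · rw [h0] at hq''; simp at hq''
    rw [List.concat_eq_append] at hA0
    have : q'' = q' := by
      rw [hA0, List.getLast?_concat, Option.some.injEq] at hq''
      exact hq''
    subst this
    rw [hA0, hZ3]
    have h1 : (A0 ++ [q'']) ~r ((Z2 ++ ((y :: Q) ++ ((x :: P) ++ Z3))) ++ [q'']) := by
      rw [← hA0]
      refine hA''.trans ?_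
      refine rot_of_eq (u := (y :: Q) ++ ((x :: P) ++ (z :: Z1))) (v := Z2) ?_ ?_
      · rw [hZ]; simp
      · rw [hZ3]; simp
    rw [rot_last_unique h1 (by rw [← hA0]; exact hn'')]
    simp
  rw [hAe, hAe'']
  exact lift_block hB hB''

lemma lift_CM {e q : X} {A B A2 B2 A'' B'' : List X} (h : CM (A, B) (A2, B2)) (hn : A.Nodup)
    (hq : A.getLast? = some q) (hA : A'' ~r A2) (hB : B'' ~r B2) (hq'' : A''.getLast? = some q) :
    Walk Sup 5 (e :: A, B ++ [e]) (e :: A'', B'' ++ [e]) := by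
  obtain ⟨x, y, z, P, Q, R, P', Q', R', h1, h2, h3, h4⟩ := h
  simp only at h1 h2 h3 h4
  have hqA : q ∈ A := List.mem_of_getLast? hq
  have hqm : q ∈ (x :: P) ++ (y :: Q) ++ (z :: R) := h1.mem_iff.mp hqA
  have h3' := hA.trans h3
  have h4' := hB.trans h4
  rcases List.mem_append.mp hqm with hqm | hqm
  · rcases List.mem_append.mp hqm with hqm | hqm
    · -- `q` in the first block
      refine lift_third (x := y) (y := z) (z := x) (P := Q) (Q := R) (R := P) (P' := Q')
        (Q' := R') (R' := P') (h1.trans ?_) (h3'.trans ?_) (h2.trans ?_) (h4'.trans ?_) hn hq hq''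
        hqm
      · exact rot_of_eq (u := x :: P) (v := (y :: Q) ++ (z :: R)) (by simp) (by simp)
      · exact rot_of_eq (u := (y :: Q) ++ (x :: P)) (v := z :: R) (by simp) (by simp)
      · exact rot_of_eq (u := x :: P') (v := (y :: Q') ++ (z :: R')) (by simp) (by simp)
      · exact rot_of_eq (u := (y :: Q') ++ (x :: P')) (v := z :: R') (by simp) (by simp)
    · -- `q` in the second block
      refine lift_third (x := z) (y := x) (z := y) (P := R) (Q := P) (R := Q) (P' := R')
        (Q' := P') (R' := Q') (h1.trans ?_) (h3'.trans ?_) (h2.trans ?_) (h4'.trans ?_) hn hq hq''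
        hqm
      · exact rot_of_eq (u := (x :: P) ++ (y :: Q)) (v := z :: R) (by simp) (by simp)
      · exact rot_of_eq (u := (y :: Q)) (v := (x :: P) ++ z :: R) (by simp) (by simp)
      · exact rot_of_eq (u := (x :: P') ++ (y :: Q')) (v := z :: R') (by simp) (by simp)
      · exact rot_of_eq (u := (y :: Q')) (v := (x :: P') ++ z :: R') (by simp) (by simp)
  · exact lift_third h1 h3' h2 h4' hn hq hq'' hqm

lemma lift_walk {e q : X} : ∀ (n : ℕ) {A B A2 B2 A'' B'' : List X}, Walk CM n (A, B) (A2, B2) →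
    A.Nodup → A.getLast? = some q → A'' ~r A2 → B'' ~r B2 → A''.getLast? = some q →
    Walk Sup (5 * n + 1) (e :: A, B ++ [e]) (e :: A'', B'' ++ [e]) := by
  intro n
  induction n with
  | zero =>
      intro A B A2 B2 A'' B'' hw hn hq hA hB hq''
      obtain ⟨f, f0, fn, -⟩ := hw
      rw [f0, Prod.mk.injEq] at fn
      obtain ⟨rfl, rfl⟩ := fn
      have hAA : A'' = A := by
        rcases List.eq_nil_or_concat A with h0 | ⟨A0, q', hA0⟩
        · rw [h0] at hq; simp at hq
        rcases List.eq_nil_or_concat A'' with h0 | ⟨A1, q1, hA1⟩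
        · rw [h0] at hq''; simp at hq''
        rw [List.concat_eq_append] at hA0 hA1
        have e1 : q' = q := by
          rw [hA0, List.getLast?_concat, Option.some.injEq] at hq
          exact hq
        have e2 : q1 = q := by
          rw [hA1, List.getLast?_concat, Option.some.injEq] at hq''
          exact hq''
        subst e1 e2
        rw [hA0, hA1] at hA ⊢
        rw [rot_last_unique hA.symm (by rw [← hA0]; exact hn)]
      rw [hAA]
      exact Walk.single (sup_rotB hB.symm)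
  | succ n ih =>
      intro A B A2 B2 A'' B'' hw hn hq hA hB hq''
      obtain ⟨⟨A1, B1⟩, h1, h2⟩ := Walk.cons_inv hw
      have hp := (CM_perm_lists h1).1
      simp only at hp
      have hq1 : q ∈ A1 := hp.subset (List.mem_of_getLast? hq)
      obtain ⟨A3, hA3⟩ := exists_rot_last hq1
      have hl3 : (A3 ++ [q]).getLast? = some q := List.getLast?_concat
      have w1 := lift_CM (e := e) h1 hn hq hA3 (List.IsRotated.refl B1) hl3
      obtain ⟨a2, b2, hw2, ha2, hb2⟩ := walk_rot hA3.symm (List.IsRotated.refl B1) h2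
      have w2 := ih hw2 (hA3.nodup_iff.mpr (hp.nodup_iff.mp hn)) hl3 (hA.trans ha2.symm)
        (hB.trans hb2.symm) hq''
      have := w1.append w2
      have e1 : 5 + (5 * n + 1) = 5 * (n + 1) + 1 := by ring
      rwa [e1] at this

end Pool.Agent.helper36.WE
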