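import Pool.Agent.helper36.WE.Level

/-! Quadratic equations whose right side is linear. -/

namespace Pool.Agent.helper36.WE

set_option linter.unusedSectionVars false

variable {X A : Type} [DecidableEq X] [DecidableEq A]

attribute [local instance] lawfulBEq_sum

lemma mem_psiHat {y : X ⊕ A} {x z : X} {l : List (X ⊕ A)} (hz : z ≠ x) (hy : y ≠ Sum.inl z) :
    Sum.inl z ∈ psiHat y x l ↔ Sum.inl z ∈ l := by
  rw [← List.count_pos_iff, ← List.count_pos_iff, count_psiHat hz, if_neg hy]
  simp

lemma notMem_psiHat {y : X ⊕ A} {x : X} {l : List (X ⊕ A)} (h : y ≠ Sum.inl x) :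
    Sum.inl x ∉ psiHat y x l := List.count_eq_zero.mp (count_psiHat_self h l)

lemma psiHat_of_notMem (y : X ⊕ A) {x : X} {l : List (X ⊕ A)} (h : Sum.inl x ∉ l) :
    psiHat y x l = l := by
  induction l with
  | nil => rfl
  | cons s l ih =>
      rw [List.mem_cons, not_or] at h
      rw [psiHat_cons, if_neg (Ne.symm h.1), ih h.2]

lemma sublist_ins (w : List (X ⊕ A)) (x : X) (l : List (X ⊕ A)) : l.Sublist (ins w x l) := by
  induction l with
  | nil => simp [ins_nil]
  | cons s l ih =>
      rw [ins_cons]
      split_ifs with h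
      · rw [List.append_assoc]
        refine List.Sublist.trans ?_ (List.sublist_append_right _ _)
        simpa using ih
      · simpa using ih

lemma ins_sublist_ins (w : List (X ⊕ A)) (x : X) {l l' : List (X ⊕ A)} (h : l.Sublist l') :
    (ins w x l).Sublist (ins w x l') := by
  induction h with
  | slnil => exact List.Sublist.refl _
  | cons a _ ih => rw [ins_cons]; exact ih.trans (List.sublist_append_right _ _)
  | cons_cons a _ ih => rw [ins_cons, ins_cons]; exact (List.Sublist.refl _).append ih

lemma psiHat_sublist (y : X ⊕ A) (x : X) {l l' : List (X ⊕ A)} (h : l.Sublist l') :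
    (psiHat y x l).Sublist (psiHat y x l') := h.map _

/-- The pair relation in a tail. -/
lemma pair_tail {s t u : X ⊕ A} {l : List (X ⊕ A)} (h : [s, t].Sublist (u :: l)) (hs : s ≠ u) :
    [s, t].Sublist l := by
  cases h with
  | cons _ h => exact h
  | cons_cons _ h => exact absurd rfl hs

lemma pair_head {s t : X ⊕ A} {l : List (X ⊕ A)} (h : [s, t].Sublist (t :: l)) (hs : s ≠ t)
    (ht : t ∉ l) : False := by
  have h1 := pair_tail h hs
  exact ht (h1.subset (by simp))

lemma mem_of_pair_right {s t : X ⊕ A} {l : List (X ⊕ A)} (h : [s, t].Sublist l) : t ∈ l :=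
  h.subset (by simp)

/-- Inserting `y` before `x` : if `x` precedes `w` then `y` precedes `w`. -/
lemma pair_ins {y : X ⊕ A} {x : X} {w : X ⊕ A} {l : List (X ⊕ A)}
    (h : [Sum.inl x, w].Sublist l) : [y, w].Sublist (ins [y] x l) := by
  refine List.Sublist.trans ?_ (ins_sublist_ins [y] x h)
  rw [ins_cons, if_pos rfl]
  have h1 : [w].Sublist (ins [y] x [w]) := sublist_ins _ _ _
  have h2 : ([y] ++ [w]).Sublist (([y] ++ [Sum.inl x]) ++ ins [y] x [w]) := by
    refine List.Sublist.append ?_ h1
    exact List.sublist_append_left _ _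
  simpa using h2

lemma pair_psiHat {y : X ⊕ A} {x : X} {w : X ⊕ A} {l : List (X ⊕ A)} (hw : w ≠ Sum.inl x)
    (h : [Sum.inl x, w].Sublist l) : [y, w].Sublist (psiHat y x l) := by
  have := psiHat_sublist y x h
  rw [psiHat_cons, psiHat_cons, if_pos rfl, if_neg hw] at this
  exact this

lemma pair_psiHat' {y : X ⊕ A} {x : X} {s w : X ⊕ A} {l : List (X ⊕ A)} (hs : s ≠ Sum.inl x)
    (hw : w ≠ Sum.inl x) (h : [s, w].Sublist l) : [s, w].Sublist (psiHat y x l) := by
  have := psiHat_sublist y x h
  rw [psiHat_cons, psiHat_cons, if_neg hs, if_neg hw] at this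
  exact this

/-- The invariant for right linear equations. -/
structure Inv (b : X → ℕ) (E : Eqn X A) : Prop where
  quad : Quadratic E
  lin : RightLinear E
  blocks : Blocks b E

lemma shared_counts {E : Eqn X A} (hq : Quadratic E) {x : X} (h : Shared E x) :
    E.1.count (Sum.inl x) = 1 ∧ E.2.count (Sum.inl x) = 1 := by
  have h1 := List.count_pos_iff.mpr h.1
  have h2 := List.count_pos_iff.mpr h.2
  have h3 := hq x
  simp only [occ] at h3
  omega

/-- The left head, if shared, has the smallest block. -/
lemma head_min {b : X → ℕ} {x : X} {U : List (X ⊕ A)} {W : List (X ⊕ A)}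
    (hI : Inv b ((Sum.inl x :: U, W) : Eqn X A)) (hx : Shared ((Sum.inl x :: U, W) : Eqn X A) x)
    {z : X} (hz : Shared ((Sum.inl x :: U, W) : Eqn X A) z) : b x ≤ b z := by
  by_contra hlt
  push Not at hlt
  have h1 := (hI.blocks z x hz hx hlt).1
  have hc := (shared_counts hI.quad hx).1
  simp only [List.count_cons_self] at hc
  have hxU : Sum.inl x ∉ U := List.count_eq_zero.mp (by omega)
  refine pair_head h1 ?_ hxU
  rintro h
  have : z = x := Sum.inl.inj h
  rw [this] at hlt
  exact lt_irrefl _ hlt

lemma head_min' {b : X → ℕ} {y : X} {W : List (X ⊕ A)} {V : List (X ⊕ A)}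
    (hI : Inv b ((W, Sum.inl y :: V) : Eqn X A)) (hy : Shared ((W, Sum.inl y :: V) : Eqn X A) y)
    {z : X} (hz : Shared ((W, Sum.inl y :: V) : Eqn X A) z) : b y ≤ b z := by
  by_contra hlt
  push Not at hlt
  have h1 := (hI.blocks z y hz hy hlt).2
  have hc := (shared_counts hI.quad hy).2
  simp only [List.count_cons_self] at hc
  have hyV : Sum.inl y ∉ V := List.count_eq_zero.mp (by omega)
  refine pair_head h1 ?_ hyV
  rintro h
  have : z = y := Sum.inl.inj h
  rw [this] at hlt
  exact lt_irrefl _ hlt

/-- What one step does: the right side does not get longer, stays linear, no variable becomes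
shared and the blocks are kept. -/
structure StepInv (b : X → ℕ) (E E' : Eqn X A) : Prop where
  len : E'.2.length ≤ E.2.length
  lin : RightLinear E'
  sh : ∀ z, Shared E' z → Shared E z
  blocks : Blocks b E'

lemma stepInv_cancel (b : X → ℕ) (a : A) (U V : List (X ⊕ A))
    (hI : Inv b ((Sum.inr a :: U, Sum.inr a :: V) : Eqn X A)) :
    StepInv b ((Sum.inr a :: U, Sum.inr a :: V) : Eqn X A) (U, V) := by
  have hsh : ∀ z, Shared ((U, V) : Eqn X A) z →
      Shared ((Sum.inr a :: U, Sum.inr a :: V) : Eqn X A) z :=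
    fun z hz => ⟨List.mem_cons_of_mem _ hz.1, List.mem_cons_of_mem _ hz.2⟩
  refine ⟨by simp, ?_, hsh, ?_⟩
  · intro x
    have := hI.lin x
    simp only [List.count_cons] at this
    simp only
    omega
  · intro x y hx hy hxy
    have h := hI.blocks x y (hsh x hx) (hsh y hy) hxy
    exact ⟨pair_tail h.1 (by simp), pair_tail h.2 (by simp)⟩

lemma stepInv_replLeft (b : X → ℕ) (x : X) (y : X ⊕ A) (U V : List (X ⊕ A))
    (hI : Inv b ((Sum.inl x :: U, y :: V) : Eqn X A)) :
    StepInv b ((Sum.inl x :: U, y :: V) : Eqn X A) (psiHat y x U, psiHat y x V) := by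
  by_cases hyx : y = Sum.inl x
  · subst hyx
    rw [psiHat_same, psiHat_same]
    have hcx := hI.quad x
    simp only [occ, List.count_cons_self] at hcx
    have hsh : ∀ z, Shared ((U, V) : Eqn X A) z →
      Shared ((Sum.inl x :: U, Sum.inl x :: V) : Eqn X A) z :=
      fun z hz => ⟨List.mem_cons_of_mem _ hz.1, List.mem_cons_of_mem _ hz.2⟩
    have hne : ∀ z, Shared ((U, V) : Eqn X A) z → z ≠ x := by
      rintro z hz rfl
      have := List.count_pos_iff.mpr hz.1
      simp only at this
      omega
    refine ⟨by simp, ?_, hsh, ?_⟩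
    · intro z
      have := hI.lin z
      simp only [List.count_cons] at this
      simp only
      omega
    · intro z w hz hw hzw
      have h := hI.blocks z w (hsh z hz) (hsh w hw) hzw
      exact ⟨pair_tail h.1 (by simpa using hne z hz), pair_tail h.2 (by simpa using hne z hz)⟩
  have hquad := hI.quad
  have hlin := hI.lin
  -- the variable `y`, if it is one, does not occur in `V`
  have hyV : ∀ z, y = Sum.inl z → Sum.inl z ∉ V := by
    rintro z rfl
    have := hlin z
    simp only [List.count_cons_self] at this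
    exact List.count_eq_zero.mp (by omega)
  have hxelim : ∀ z, Shared ((psiHat y x U, psiHat y x V) : Eqn X A) z → z ≠ x := by
    rintro z hz rfl
    exact notMem_psiHat hyx hz.1
  -- a shared variable `z ≠ y`
  have hold : ∀ z, Shared ((psiHat y x U, psiHat y x V) : Eqn X A) z → y ≠ Sum.inl z →
      Sum.inl z ∈ U ∧ Sum.inl z ∈ V := by
    intro z hz hyz
    exact ⟨(mem_psiHat (hxelim z hz) hyz).mp hz.1, (mem_psiHat (hxelim z hz) hyz).mp hz.2⟩
  -- the case `z = y`
  have hnew : ∀ z, Shared ((psiHat y x U, psiHat y x V) : Eqn X A) z → y = Sum.inl z →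
      Sum.inl x ∈ V ∧ Sum.inl x ∉ U ∧ Sum.inl z ∈ U := by
    intro z hz hyz
    have h2 : Sum.inl z ∈ psiHat y x V := hz.2
    rw [← List.count_pos_iff, count_psiHat (hxelim z hz), if_pos hyz,
      List.count_eq_zero_of_not_mem (hyV z hyz), zero_add, List.count_pos_iff] at h2
    have h3 := hquad x
    have h4 := List.count_pos_iff.mpr h2
    simp only [occ, List.count_cons_self, List.count_cons] at h3
    have h5 : Sum.inl x ∉ U := List.count_eq_zero.mp (by omega)
    refine ⟨h2, h5, ?_⟩
    have h6 : Sum.inl z ∈ psiHat y x U := hz.1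
    rwa [psiHat_of_notMem y h5] at h6
  have hsh : ∀ z, Shared ((psiHat y x U, psiHat y x V) : Eqn X A) z →
      Shared ((Sum.inl x :: U, y :: V) : Eqn X A) z := by
    intro z hz
    by_cases hyz : y = Sum.inl z
    · exact ⟨List.mem_cons_of_mem _ (hnew z hz hyz).2.2, by simp [hyz]⟩
    · exact ⟨List.mem_cons_of_mem _ (hold z hz hyz).1, List.mem_cons_of_mem _ (hold z hz hyz).2⟩
  refine ⟨by simp [length_psiHat], ?_, hsh, ?_⟩
  · intro z
    by_cases hz : z = x
    · subst hz
      simp only [count_psiHat_self hyx]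
      omega
    · simp only [count_psiHat hz]
      have h1 := hlin z
      have h2 := hlin x
      by_cases hyz : y = Sum.inl z
      · rw [if_pos hyz, List.count_eq_zero_of_not_mem (hyV z hyz)]
        simp only [List.count_cons] at h2
        omega
      · rw [if_neg hyz]
        simp only [List.count_cons] at h1
        omega
  · intro z w hz hw hzw
    have hzx := hxelim z hz
    have hwx := hxelim w hw
    have hzx' : (Sum.inl z : X ⊕ A) ≠ Sum.inl x := by simpa using hzx
    have hwx' : (Sum.inl w : X ⊕ A) ≠ Sum.inl x := by simpa using hwx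
    have hP := hI.blocks z w (hsh z hz) (hsh w hw) hzw
    by_cases hyz : y = Sum.inl z
    · obtain ⟨hxV, hxU, hzU⟩ := hnew z hz hyz
      have hxs : Shared ((Sum.inl x :: U, y :: V) : Eqn X A) x :=
        ⟨by simp, List.mem_cons_of_mem _ hxV⟩
      have hxw : b x < b w := lt_of_le_of_lt (head_min hI hxs (hsh z hz)) hzw
      have h1 := hI.blocks x w hxs (hsh w hw) hxw
      refine ⟨pair_psiHat' hzx' hwx' (pair_tail hP.1 hzx'), ?_⟩
      have h2 := pair_tail h1.2 (u := y) (fun h => hyx h.symm)
      rw [← hyz]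
      exact pair_psiHat hwx' h2
    · by_cases hyw : y = Sum.inl w
      · exfalso
        have h2 := hP.2
        rw [hyw] at h2
        refine pair_head h2 ?_ (hyV w hyw)
        rw [← hyw]
        exact fun h => hyz h.symm
      · exact ⟨pair_psiHat' hzx' hwx' (pair_tail hP.1 hzx'),
          pair_psiHat' hzx' hwx' (pair_tail hP.2 (fun h => hyz h.symm))⟩

lemma stepInv_replRight (b : X → ℕ) (x : X ⊕ A) (y : X) (U V : List (X ⊕ A))
    (hI : Inv b ((x :: U, Sum.inl y :: V) : Eqn X A)) :
    StepInv b ((x :: U, Sum.inl y :: V) : Eqn X A) (psiHat x y U, psiHat x y V) := by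
  by_cases hyx : x = Sum.inl y
  · subst hyx
    exact stepInv_replLeft b y (Sum.inl y) U V hI
  have hquad := hI.quad
  have hlin := hI.lin
  have hyV : Sum.inl y ∉ V := by
    have := hlin y
    simp only [List.count_cons_self] at this
    exact List.count_eq_zero.mp (by omega)
  rw [psiHat_of_notMem x hyV]
  have hyelim : ∀ z, Shared ((psiHat x y U, V) : Eqn X A) z → z ≠ y := by
    rintro z hz rfl
    exact notMem_psiHat hyx hz.1
  have hold : ∀ z, Shared ((psiHat x y U, V) : Eqn X A) z → x ≠ Sum.inl z → Sum.inl z ∈ U := by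
    intro z hz hxz
    exact (mem_psiHat (hyelim z hz) hxz).mp hz.1
  have hnew : ∀ z, Shared ((psiHat x y U, V) : Eqn X A) z → x = Sum.inl z →
      Sum.inl z ∉ U ∧ Sum.inl y ∈ U := by
    intro z hz hxz
    have h1 := List.count_pos_iff.mpr hz.2
    simp only at h1
    have h2 := hquad z
    rw [hxz] at h2
    simp only [occ, List.count_cons_self, List.count_cons] at h2
    have h3 : Sum.inl z ∉ U := List.count_eq_zero.mp (by omega)
    refine ⟨h3, ?_⟩
    have h4 : Sum.inl z ∈ psiHat x y U := hz.1
    rwa [← List.count_pos_iff, count_psiHat (hyelim z hz), if_pos hxz,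
      List.count_eq_zero_of_not_mem h3, zero_add, List.count_pos_iff] at h4
  have hsh : ∀ z, Shared ((psiHat x y U, V) : Eqn X A) z →
      Shared ((x :: U, Sum.inl y :: V) : Eqn X A) z := by
    intro z hz
    refine ⟨?_, List.mem_cons_of_mem _ hz.2⟩
    by_cases hxz : x = Sum.inl z
    · simp [hxz]
    · exact List.mem_cons_of_mem _ (hold z hz hxz)
  refine ⟨by simp, ?_, hsh, ?_⟩
  · intro z
    have h1 := hlin z
    simp only [List.count_cons] at h1
    simp only
    omega
  · intro z w hz hw hzw
    have hzy' : (Sum.inl z : X ⊕ A) ≠ Sum.inl y := by simpa using hyelim z hz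
    have hwy' : (Sum.inl w : X ⊕ A) ≠ Sum.inl y := by simpa using hyelim w hw
    have hP := hI.blocks z w (hsh z hz) (hsh w hw) hzw
    refine ⟨?_, pair_tail hP.2 hzy'⟩
    by_cases hxz : x = Sum.inl z
    · obtain ⟨hzU, hyU⟩ := hnew z hz hxz
      have hys : Shared ((x :: U, Sum.inl y :: V) : Eqn X A) y :=
        ⟨List.mem_cons_of_mem _ hyU, by simp⟩
      have hyw : b y < b w := lt_of_le_of_lt (head_min' hI hys (hsh z hz)) hzw
      have h1 := hI.blocks y w hys (hsh w hw) hyw
      have h2 := pair_tail h1.1 (u := x) (fun h => hyx h.symm)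
      rw [← hxz]
      exact pair_psiHat hwy' h2
    · by_cases hxw : x = Sum.inl w
      · exfalso
        have h2 := hP.1
        rw [hxw] at h2
        refine pair_head h2 ?_ (hnew w hw hxw).1
        rw [← hxw]
        exact fun h => hxz h.symm
      · exact pair_psiHat' hzy' hwy' (pair_tail hP.1 (fun h => hxz h.symm))

lemma mem_ins_single {y : X ⊕ A} {x z : X} {l : List (X ⊕ A)} (hy : y ≠ Sum.inl z) :
    Sum.inl z ∈ ins [y] x l ↔ Sum.inl z ∈ l := by
  rw [← List.count_pos_iff, ← List.count_pos_iff, count_ins_single, if_neg hy]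
  simp

lemma stepInv_insLeft (b : X → ℕ) (x : X) (y : X ⊕ A) (U V : List (X ⊕ A))
    (hI : Inv b ((Sum.inl x :: U, y :: V) : Eqn X A)) :
    StepInv b ((Sum.inl x :: U, y :: V) : Eqn X A) (Sum.inl x :: ins [y] x U, ins [y] x V) := by
  have hquad := hI.quad
  have hlin := hI.lin
  have hyV : ∀ z, y = Sum.inl z → Sum.inl z ∉ V := by
    rintro z rfl
    have := hlin z
    simp only [List.count_cons_self] at this
    exact List.count_eq_zero.mp (by omega)
  have hxcount : V.count (Sum.inl x) ≤ 1 := by
    have := hlin x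
    simp only [List.count_cons] at this
    omega
  -- membership on the right
  have hright : ∀ z, Sum.inl z ∈ ins [y] x V →
      Sum.inl z ∈ V ∨ (y = Sum.inl z ∧ Sum.inl x ∈ V ∧ Sum.inl x ∉ U) := by
    intro z hz
    by_cases hyz : y = Sum.inl z
    · right
      rw [← List.count_pos_iff, count_ins_single, if_pos hyz,
        List.count_eq_zero_of_not_mem (hyV z hyz), zero_add, List.count_pos_iff] at hz
      refine ⟨hyz, hz, ?_⟩
      have h3 := hquad x
      have h4 := List.count_pos_iff.mpr hz
      simp only [occ, List.count_cons_self, List.count_cons] at h3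
      exact List.count_eq_zero.mp (by omega)
    · left
      exact (mem_ins_single hyz).mp hz
  have hsh : ∀ z, Shared ((Sum.inl x :: ins [y] x U, ins [y] x V) : Eqn X A) z →
      Shared ((Sum.inl x :: U, y :: V) : Eqn X A) z := by
    intro z hz
    rcases hright z hz.2 with h | ⟨h1, h2, h3⟩
    · refine ⟨?_, List.mem_cons_of_mem _ h⟩
      have hyz : y ≠ Sum.inl z := fun hy => hyV z hy h
      rcases List.mem_cons.mp hz.1 with h' | h'
      · simp [h']
      · exact List.mem_cons_of_mem _ ((mem_ins_single hyz).mp h')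
    · refine ⟨?_, by simp [h1]⟩
      have h4 := hz.1
      simp only at h4
      rwa [ins_of_notMem [y] x h3] at h4
  refine ⟨?_, ?_, hsh, ?_⟩
  · simp only [length_ins, List.length_cons, List.length_nil]
    omega
  · intro z
    simp only [count_ins_single]
    have h1 := hlin z
    by_cases hyz : y = Sum.inl z
    · rw [if_pos hyz, List.count_eq_zero_of_not_mem (hyV z hyz)]
      omega
    · rw [if_neg hyz]
      simp only [List.count_cons] at h1
      omega
  · intro z w hz hw hzw
    have hP := hI.blocks z w (hsh z hz) (hsh w hw) hzw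
    have hzw' : z ≠ w := by rintro rfl; exact lt_irrefl _ hzw
    refine ⟨hP.1.trans ((sublist_ins [y] x U).cons_cons _), ?_⟩
    by_cases hyz : y = Sum.inl z
    · rcases hright z hz.2 with h | ⟨h1, h2, h3⟩
      · exact absurd h (hyV z hyz)
      · have hxs : Shared ((Sum.inl x :: U, y :: V) : Eqn X A) x :=
          ⟨by simp, List.mem_cons_of_mem _ h2⟩
        have hxw : b x < b w := lt_of_le_of_lt (head_min hI hxs (hsh z hz)) hzw
        have h4 := hI.blocks x w hxs (hsh w hw) hxw
        have hxy : (Sum.inl x : X ⊕ A) ≠ y := by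
          rintro rfl
          exact hyV x rfl h2
        rw [← hyz]
        exact pair_ins (pair_tail h4.2 hxy)
    · have h1 : [Sum.inl z, Sum.inl w].Sublist V := pair_tail hP.2 (fun h => hyz h.symm)
      exact h1.trans (sublist_ins [y] x V)

lemma stepInv_insRight (b : X → ℕ) (x : X ⊕ A) (y : X) (U V : List (X ⊕ A))
    (hI : Inv b ((x :: U, Sum.inl y :: V) : Eqn X A)) :
    StepInv b ((x :: U, Sum.inl y :: V) : Eqn X A) (ins [x] y U, Sum.inl y :: ins [x] y V) := by
  have hquad := hI.quad
  have hlin := hI.lin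
  have hyV : Sum.inl y ∉ V := by
    have := hlin y
    simp only [List.count_cons_self] at this
    exact List.count_eq_zero.mp (by omega)
  rw [ins_of_notMem [x] y hyV]
  -- a shared variable equal to the left head
  have hnew : ∀ z, Shared ((ins [x] y U, Sum.inl y :: V) : Eqn X A) z → x = Sum.inl z →
      Sum.inl z ∉ U ∧ Sum.inl y ∈ U := by
    intro z hz hxz
    have h1 := List.count_pos_iff.mpr hz.2
    simp only at h1
    have h2 := hquad z
    rw [hxz] at h2
    simp only [occ, List.count_cons_self] at h2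
    have h3 : Sum.inl z ∉ U := List.count_eq_zero.mp (by omega)
    refine ⟨h3, ?_⟩
    have h4 : Sum.inl z ∈ ins [x] y U := hz.1
    rwa [← List.count_pos_iff, count_ins_single, if_pos hxz,
      List.count_eq_zero_of_not_mem h3, zero_add, List.count_pos_iff] at h4
  have hsh : ∀ z, Shared ((ins [x] y U, Sum.inl y :: V) : Eqn X A) z →
      Shared ((x :: U, Sum.inl y :: V) : Eqn X A) z := by
    intro z hz
    refine ⟨?_, hz.2⟩
    by_cases hxz : x = Sum.inl z
    · simp [hxz]
    · exact List.mem_cons_of_mem _ ((mem_ins_single hxz).mp hz.1)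
  refine ⟨by simp, hlin, hsh, ?_⟩
  intro z w hz hw hzw
  have hP := hI.blocks z w (hsh z hz) (hsh w hw) hzw
  refine ⟨?_, hP.2⟩
  by_cases hxz : x = Sum.inl z
  · obtain ⟨hzU, hyU⟩ := hnew z hz hxz
    have hys : Shared ((x :: U, Sum.inl y :: V) : Eqn X A) y :=
      ⟨List.mem_cons_of_mem _ hyU, by simp⟩
    have hyw : b y < b w := lt_of_le_of_lt (head_min' hI hys (hsh z hz)) hzw
    have h1 := hI.blocks y w hys (hsh w hw) hyw
    have hyx : (Sum.inl y : X ⊕ A) ≠ x := by
      rintro rfl
      have : y = z := Sum.inl.inj hxz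
      rw [this] at hyU
      exact hzU hyU
    rw [← hxz]
    exact pair_ins (pair_tail h1.1 hyx)
  · have h1 : [Sum.inl z, Sum.inl w].Sublist U := pair_tail hP.1 (fun h => hxz h.symm)
    exact h1.trans (sublist_ins [x] y U)

lemma stepInv {b : X → ℕ} {E E' : Eqn X A} (hI : Inv b E) (h : Step E E') : StepInv b E E' := by
  cases h with
  | cancel a U V => exact stepInv_cancel b a U V hI
  | replLeft x y U V => exact stepInv_replLeft b x y U V hI
  | replRight x y U V => exact stepInv_replRight b x y U V hI
  | insLeft x y U V => exact stepInv_insLeft b x y U V hI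
  | insRight x y U V => exact stepInv_insRight b x y U V hI

lemma Inv.step {b : X → ℕ} {E E' : Eqn X A} (hI : Inv b E) (h : Step E E') : Inv b E' :=
  ⟨quadratic_step hI.quad h, (stepInv hI h).lin, (stepInv hI h).blocks⟩

end Pool.Agent.helper36.WE
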