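import Pool.Agent.helper36.WE.NormalForm

/-! The normal form theorem for pairs of cyclic words under triple swaps. -/

namespace Pool.Agent.helper36.WE

set_option linter.unusedSectionVars false

open Equiv Equiv.Perm List

variable {X : Type} [DecidableEq X]

lemma getLast_cc (x p : X) (l : List X) : (x :: (l ++ [p])).getLast? = some p := by
  rw [← List.cons_append]
  exact List.getLast?_concat

lemma formPerm_getLast {l : List X} {x p : X} (hp : (x :: l).getLast? = some p) : formPerm (x :: l) p = x := by
  have h1 := formPerm_apply_getLast x l
  rw [List.getLast?_eq_getLast_of_ne_nil (by simp)] at hp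
  rw [Option.some.injEq] at hp
  rw [← hp]
  exact h1

lemma formPerm_trans {l : List X} (h : l.Nodup) {p t : X} (hp : p ∈ l) (ht : t ∈ l) :
    ∃ j : ℕ, (formPerm l ^ j) p = t := by
  obtain ⟨l', hl'⟩ := exists_rot_cons hp
  rw [formPerm_eq_of_isRotated h hl']
  have h2 := hl'.nodup_iff.mp h
  have h3 : t ∈ p :: l' := hl'.mem_iff.mp ht
  obtain ⟨j, hj, hjt⟩ := List.getElem_of_mem h3
  refine ⟨j, ?_⟩
  rw [formPerm_pow_apply_head p l' h2 j, ← hjt]
  congr 1
  exact Nat.mod_eq_of_lt hj

/-- The permutations of the reversed states. -/
def RevSet (T : Finset X) (ρ : Perm X) : Set (Perm X) :=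
  {σ | ∃ l : List X, l.Nodup ∧ l.toFinset = T ∧ σ = formPerm l ∧ σ * σ = ρ}

lemma revSet_inj (T : Finset X) (ρ : Perm X) {p : X} (hp : p ∈ T) {σ τ : Perm X}
    (h1 : σ ∈ RevSet T ρ) (h2 : τ ∈ RevSet T ρ) (h : σ p = τ p) : σ = τ := by
  obtain ⟨l, hl, hT, hs, hr⟩ := h1
  obtain ⟨l', hl', hT', hs', hr'⟩ := h2
  have key : ∀ j : ℕ, (σ ^ j) p = (τ ^ j) p ∧ (σ ^ (j + 1)) p = (τ ^ (j + 1)) p := by
    intro j
    induction j with
    | zero => exact ⟨rfl, by simpa using h⟩
    | succ j ih =>
        refine ⟨ih.2, ?_⟩
        have e1 : ∀ π : Perm X, (π ^ (j + 1 + 1)) p = (π * π) ((π ^ j) p) := by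
          intro π
          rw [← Perm.mul_apply]
          congr 1
          rw [pow_succ', pow_succ', mul_assoc]
        rw [e1, e1, hr, hr', ih.1]
  ext t
  by_cases ht : t ∈ T
  · have hpl : p ∈ l := by rw [← List.mem_toFinset, hT]; exact hp
    have htl : t ∈ l := by rw [← List.mem_toFinset, hT]; exact ht
    obtain ⟨j, hj⟩ := formPerm_trans hl hpl htl
    rw [← hs] at hj
    have e1 : ∀ π : Perm X, (π ^ (j + 1)) p = π ((π ^ j) p) := by
      intro π
      rw [← Perm.mul_apply, pow_succ']
    have h3 := (key j).2
    rw [e1, e1, ← (key j).1, hj] at h3
    exact h3
  · rw [hs, hs', formPerm_apply_of_notMem, formPerm_apply_of_notMem]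
    · rw [← List.mem_toFinset, hT']; exact ht
    · rw [← List.mem_toFinset, hT]; exact ht

lemma revSet_card (T : Finset X) (ρ : Perm X) {p : X} (hp : p ∈ T) :
    (RevSet T ρ).Finite ∧ (RevSet T ρ).ncard ≤ T.card := by
  have hmaps : ∀ σ ∈ RevSet T ρ, σ p ∈ (T : Set X) := by
    rintro σ ⟨l, hl, hT, hs, hr⟩
    have hpl : p ∈ l := by rw [← List.mem_toFinset, hT]; exact hp
    have h1 : formPerm l p ∈ l := formPerm_apply_mem_of_mem hpl
    rw [hs, Finset.mem_coe, ← hT, List.mem_toFinset]
    exact h1
  have hinj : Set.InjOn (fun σ : Perm X => σ p) (RevSet T ρ) := by
    intro σ hσ τ hτ h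
    exact revSet_inj T ρ hp hσ hτ h
  have hfin : (RevSet T ρ).Finite :=
    Set.Finite.of_finite_image (T.finite_toSet.subset (Set.image_subset_iff.mpr hmaps)) hinj
  refine ⟨hfin, ?_⟩
  have h1 := Set.ncard_le_ncard_of_injOn (fun σ : Perm X => σ p) hmaps hinj T.finite_toSet
  rw [Set.ncard_coe_finset] at h1
  exact h1

lemma St.noFix {T : Finset X} {ρ : Perm X} {a b : List X} (h : St T ρ a b)
    (hn : ∀ f ∈ T, ρ f ≠ f) : NoFix a b := by
  intro s hs he
  have h1 : s ∈ T := by rw [← h.supp, List.mem_toFinset]; exact hs
  apply hn s h1
  rw [← h.rho, Perm.mul_apply, he]
  simp

lemma St.rho_mem {T : Finset X} {ρ : Perm X} {a b : List X} (h : St T ρ a b) {p : X}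
    (hp : p ∈ T) : ρ p ∈ T := by
  have h1 : p ∈ a := by rw [← List.mem_toFinset, h.supp]; exact hp
  have h2 : formPerm a p ∈ b := h.perm.subset (formPerm_apply_mem_of_mem h1)
  rw [← h.rho, Perm.mul_apply, ← h.supp, List.mem_toFinset]
  apply h.perm.symm.subset
  rw [← formPerm_reverse]
  rw [← List.mem_reverse] at h2 ⊢
  exact formPerm_apply_mem_of_mem h2

/-- Two letters with common successor: `f` can be placed before `g` in both words. -/
lemma place_before {T : Finset X} {ρ : Perm X} {a b : List X} (h : St T ρ a b) {f g : X}
    (hf : f ∈ T) (hg : g ∈ T) (hfg : f ≠ g) (hρ : ρ f = f) :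
    ∃ n ≤ 1, ∃ a' b' R R', Walk CM n (a, b) (a', b') ∧ a' ~r f :: g :: R ∧
      b' ~r f :: g :: R' := by
  have hfa : f ∈ a := by rw [← List.mem_toFinset, h.supp]; exact hf
  have hfb : f ∈ b := h.perm.subset hfa
  have hga : g ∈ a := by rw [← List.mem_toFinset, h.supp]; exact hg
  have hgb : g ∈ b := h.perm.subset hga
  obtain ⟨A, hA⟩ := exists_rot_cons hfa
  obtain ⟨B, hB⟩ := exists_rot_cons hfb
  have hAn := hA.nodup_iff.mp h.nodup
  have hBn := hB.nodup_iff.mp h.nodupB
  have hgA : g ∈ A := by
    have : g ∈ f :: A := hA.mem_iff.mp hga
    simpa [hfg.symm] using this
  have hgB : g ∈ B := by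
    have : g ∈ f :: B := hB.mem_iff.mp hgb
    simpa [hfg.symm] using this
  have hsucc : formPerm (f :: A) f = formPerm (f :: B) f := by
    rw [← formPerm_eq_of_isRotated h.nodup hA, ← formPerm_eq_of_isRotated h.nodupB hB]
    have h1 := hρ
    rw [← h.rho, Perm.mul_apply, Perm.inv_eq_iff_eq] at h1
    exact h1
  cases A with
  | nil => simp at hgA
  | cons s A =>
      cases B with
      | nil => simp at hgB
      | cons s' B =>
          rw [formPerm_apply_head f s A hAn, formPerm_apply_head f s' B hBn] at hsucc
          subst hsucc
          by_cases hsg : s = g
          · subst hsg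
            exact ⟨0, by omega, a, b, A, B, Walk.refl _ _, hA, hB⟩
          · have hgA' : g ∈ A := by simpa [Ne.symm hsg] using hgA
            have hgB' : g ∈ B := by simpa [Ne.symm hsg] using hgB
            obtain ⟨Q, R, rfl⟩ := List.append_of_mem hgA'
            obtain ⟨Q', R', rfl⟩ := List.append_of_mem hgB'
            refine ⟨1, le_rfl, (s :: Q) ++ [f] ++ (g :: R), (s :: Q') ++ [f] ++ (g :: R'),
              R ++ (s :: Q), R' ++ (s :: Q'), Walk.single ?_, ?_, ?_⟩
            · refine ⟨f, s, g, [], Q, R, [], Q', R', ?_, ?_, ?_, ?_⟩
              · simpa using hA
              · simpa using hB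
              · exact List.IsRotated.refl _
              · exact List.IsRotated.refl _
            · exact rot_of_eq (u := s :: Q) (v := f :: g :: R) (by simp) (by simp)
            · exact rot_of_eq (u := s :: Q') (v := f :: g :: R') (by simp) (by simp)

/-- **Normal form theorem.** -/
theorem normal_form : ∀ (m : ℕ) (T : Finset X) (ρ : Perm X), T.card = m →
    ∃ N : Set (Perm X), N.Finite ∧ N.ncard ≤ (m + 1) ^ 2 ∧ ∀ a b, St T ρ a b →
      ∃ n ≤ m * (m + 6), ∃ a' b', Walk CM n (a, b) (a', b') ∧ formPerm a' ∈ N := by
  intro m
  induction m with
  | zero =>
      intro T ρ hT
      refine ⟨{1}, Set.finite_singleton _, by simp, ?_⟩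
      intro a b h
      refine ⟨0, by omega, a, b, Walk.refl _ _, ?_⟩
      have h1 : a = [] := by
        have h2 := h.supp
        rw [Finset.card_eq_zero.mp hT] at h2
        exact List.toFinset_eq_empty_iff a |>.mp h2
      rw [h1]; simp
  | succ m ih =>
      intro T ρ hT
      by_cases hF : ∃ f ∈ T, ρ f = f
      · obtain ⟨f, hf, hρ⟩ := hF
        by_cases hg : ∃ g ∈ T, g ≠ f
        · obtain ⟨g, hg, hgf⟩ := hg
          obtain ⟨N, hN, hNc, hNw⟩ := ih (T.erase f) ρ (by rw [Finset.card_erase_of_mem hf, hT]; rfl)
          refine ⟨(fun σ => swap f g * σ) '' N, hN.image _,
            ((Set.ncard_image_le hN).trans hNc).trans (by nlinarith), ?_⟩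
          intro a b h
          obtain ⟨n0, hn0, a', b', R, R', hw, ha', hb'⟩ := place_before h hf hg hgf.symm hρ
          have h1 : St T ρ (f :: g :: R) (f :: g :: R') := (h.walk hw).rot ha' hb'
          have hfR : f ∉ g :: R := (List.nodup_cons.mp h1.nodup).1
          have hfR' : f ∉ g :: R' := (List.nodup_cons.mp h1.nodupB).1
          have hgR : g ∉ R := (List.nodup_cons.mp (List.nodup_cons.mp h1.nodup).2).1
          have hgR' : g ∉ R' := (List.nodup_cons.mp (List.nodup_cons.mp h1.nodupB).2).1
          have h2 : St (T.erase f) ρ (g :: R) (g :: R') := by
            refine ⟨(List.nodup_cons.mp h1.nodup).2, h1.perm.cons_inv, ?_, ?_⟩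
            · rw [← h1.supp, List.toFinset_cons (a := f), Finset.erase_insert]
              rw [List.mem_toFinset]; exact hfR
            · rw [← h1.rho, formPerm_cons_cons, formPerm_cons_cons]
              group
          obtain ⟨n, hn, a1, b1, hw1, ha1⟩ := hNw _ _ h2
          have h3 := h2.walk hw1
          have hw2 := walk_flatMap (φ := insBefore f g) (γ := insBefore f g) (by
            intro s
            by_cases hs : s = g
            · exact ⟨f, [g], [g], by simp [insBefore, hs], by simp [insBefore, hs]⟩
            · exact ⟨s, [], [], by simp [insBefore, hs], by simp [insBefore, hs]⟩) hw1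
          have e1 : (g :: R).flatMap (insBefore f g) = f :: g :: R := by
            rw [List.flatMap_cons, flatMap_insBefore_of_notMem hgR, insBefore, if_pos rfl]; rfl
          have e2 : (g :: R').flatMap (insBefore f g) = f :: g :: R' := by
            rw [List.flatMap_cons, flatMap_insBefore_of_notMem hgR', insBefore, if_pos rfl]; rfl
          rw [e1, e2] at hw2
          obtain ⟨a2, b2, hw3, ha2, hb2⟩ := walk_rot ha'.symm hb'.symm hw2
          refine ⟨n0 + n, by nlinarith, a2, b2, hw.append hw3, ?_⟩
          have h4 : St T ρ a2 b2 := (h.walk hw).walk hw3
          rw [formPerm_eq_of_isRotated h4.nodup ha2, formPerm_insBefore h3.nodup]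
          · exact ⟨_, ha1, rfl⟩
          · rw [← List.mem_toFinset, h3.supp, Finset.mem_erase]; exact ⟨hgf, hg⟩
          · rw [← List.mem_toFinset, h3.supp, Finset.mem_erase]; simp
        · -- one letter
          push Not at hg
          refine ⟨{1}, Set.finite_singleton _, by rw [Set.ncard_singleton]; nlinarith, ?_⟩
          intro a b h
          refine ⟨0, by omega, a, b, Walk.refl _ _, ?_⟩
          rw [Set.mem_singleton_iff]
          ext s
          by_cases hs : s ∈ a
          · have h1 : formPerm a s ∈ T := by
              rw [← h.supp, List.mem_toFinset]; exact formPerm_apply_mem_of_mem hs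
            have h2 : s ∈ T := by rw [← h.supp, List.mem_toFinset]; exact hs
            rw [hg _ h1, hg _ h2]; rfl
          · rw [formPerm_apply_of_notMem hs]; rfl
      · push Not at hF
        by_cases hS : ∃ a b, St T ρ a b
        swap
        · exact ⟨∅, Set.finite_empty, by simp, fun a b h => absurd ⟨a, b, h⟩ hS⟩
        -- there is a state; so there are at least three letters
        have hTne : T.Nonempty := by
          rw [← Finset.card_pos, hT]; omega
        obtain ⟨p, hp⟩ := hTne
        obtain ⟨a0, b0, h0⟩ := hS
        have hr : ρ p ∈ T := h0.rho_mem hp
        set r := ρ p with hrdef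
        have hrp : r ≠ p := hF p hp
        obtain ⟨z, hz, hzp, hzr⟩ : ∃ z ∈ T, z ≠ p ∧ z ≠ r := by
          by_contra hcon
          push Not at hcon
          -- T = {p, r}
          have hpa : p ∈ a0 := by rw [← List.mem_toFinset, h0.supp]; exact hp
          have hpb : p ∈ b0 := h0.perm.subset hpa
          have key : ∀ l : List X, l.Nodup → l.toFinset = T → p ∈ l → formPerm l p = r := by
            intro l hl hlT hpl
            have h1 : formPerm l p ∈ T := by
              rw [← hlT, List.mem_toFinset]; exact formPerm_apply_mem_of_mem hpl
            have h2 : formPerm l p ≠ p := by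
              intro h3
              obtain ⟨l', hl'⟩ := exists_rot_cons hpl
              rw [formPerm_eq_of_isRotated hl hl'] at h3
              have hn' := hl'.nodup_iff.mp hl
              cases l' with
              | nil =>
                  have : r ∈ l := by rw [← List.mem_toFinset, hlT]; exact hr
                  have := hl'.mem_iff.mp this
                  simp at this
                  exact hrp this
              | cons q l' =>
                  rw [formPerm_apply_head p q l' hn'] at h3
                  subst h3
                  simp at hn'
            by_contra h3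
            exact h3 (hcon _ h1 h2)
          have hbT : b0.toFinset = T := by
            rw [← h0.supp]; exact (List.toFinset_eq_of_perm _ _ h0.perm).symm
          have h1 := key a0 h0.nodup h0.supp hpa
          have h2 := key b0 h0.nodupB hbT hpb
          have h3 : ρ p = p := by
            rw [← h0.rho, Perm.mul_apply, h1, ← h2]
            simp
          exact hF p hp h3
        set ρ1 : Perm X := swap r z * ρ * swap p z with hρ1
        obtain ⟨N, hN, hNc, hNw⟩ := ih (T.erase z) ρ1
          (by rw [Finset.card_erase_of_mem hz, hT]; rfl)
        obtain ⟨hRf, hRc⟩ := revSet_card T ρ hp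
        refine ⟨RevSet T ρ ∪ (fun σ => σ * swap p z) '' N, hRf.union (hN.image _), ?_, ?_⟩
        · refine (Set.ncard_union_le _ _).trans ?_
          have h1 := (Set.ncard_image_le hN (f := fun σ : Perm X => σ * swap p z)).trans hNc
          rw [hT] at hRc
          nlinarith
        intro a b h
        have hnf := h.noFix hF
        -- rotate
        have hpa : p ∈ a := by rw [← List.mem_toFinset, h.supp]; exact hp
        have hrb : r ∈ b := by
          apply h.perm.subset
          rw [← List.mem_toFinset, h.supp]; exact hr
        obtain ⟨A, hA⟩ := exists_rot_cons hpa
        obtain ⟨B, hB⟩ := exists_rot_cons hrb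
        have hA' : a ~r (A ++ [p]) := hA.trans (rot_of_eq (u := [p]) (v := A) rfl rfl)
        have hB' : b ~r (B ++ [r]) := hB.trans (rot_of_eq (u := [r]) (v := B) rfl rfl)
        have h1 : St T ρ (A ++ [p]) (B ++ [r]) := h.rot hA' hB'
        have hzA : z ∈ A := by
          have : z ∈ A ++ [p] := by rw [← List.mem_toFinset, h1.supp]; exact hz
          simpa [hzp] using this
        have hzB : z ∈ B := by
          have : z ∈ B ++ [r] := by
            apply h1.perm.subset
            rw [← List.mem_toFinset, h1.supp]; exact hz
          simpa [hzr] using this
        cases A with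
        | nil => simp at hzA
        | cons x A =>
            cases B with
            | nil => simp at hzB
            | cons x' B =>
                have hx : formPerm ((x :: A) ++ [p]) p = x := by
                  rw [List.cons_append]
                  exact formPerm_getLast (getLast_cc _ _ _)
                have hx' : formPerm ((x' :: B) ++ [r]) r = x' := by
                  rw [List.cons_append]
                  exact formPerm_getLast (getLast_cc _ _ _)
                have hxx : x = x' := by
                  have h2 : ρ p = r := rfl
                  rw [← h1.rho, Perm.mul_apply, hx, Perm.inv_eq_iff_eq, hx'] at h2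
                  exact h2
                subst hxx
                -- reach a joined or reversed state
                have hreach : Reachable p r z (2 * (m + 1)) ((x :: A) ++ [p]) ((x :: B) ++ [r]) := by
                  have hcut : CutState p r ((x :: A) ++ [p]) ((x :: B) ++ [r]) :=
                    ⟨h1.nodup, h1.perm, getLast_cc _ _ _, getLast_cc _ _ _⟩
                  by_cases hxz : x = z
                  · subst hxz
                    exact ⟨0, by omega, _, _, Walk.refl _ _, Or.inr ⟨hcut, rfl, rfl⟩⟩
                  · have hzA' : z ∈ A := by simpa [Ne.symm hxz] using hzA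
                    have hzB' : z ∈ B := by simpa [Ne.symm hxz] using hzB
                    obtain ⟨a1, a2, rfl⟩ := List.append_of_mem hzA'
                    obtain ⟨b1, b2, rfl⟩ := List.append_of_mem hzB'
                    have e1 : (x :: (a1 ++ z :: a2)) ++ [p] = x :: (a1 ++ z :: (a2 ++ [p])) := by
                      simp
                    have e2 : (x :: (b1 ++ z :: b2)) ++ [r] = x :: (b1 ++ z :: (b2 ++ [r])) := by
                      simp
                    have hlen1 := List.toFinset_card_of_nodup h1.nodup
                    have hlen2 := h1.perm.length_eq
                    rw [h1.supp, hT] at hlen1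
                    have hnf1 : NoFix ((x :: (a1 ++ z :: a2)) ++ [p])
                        ((x :: (b1 ++ z :: b2)) ++ [r]) := h1.noFix hF
                    rw [e1, e2] at hcut hnf1 hlen2 ⊢
                    rw [e1] at hlen1
                    refine (join_lemma z (a1.length + b1.length) p r x a1 (a2 ++ [p]) b1
                      (b2 ++ [r]) hcut (by simp) (by simp) hnf1 le_rfl).mono ?_
                    simp only [List.length_cons, List.length_append] at hlen1 hlen2
                    omega
                obtain ⟨k, hk, a', b', hw, hend⟩ := hreach
                obtain ⟨a2, b2, hw2, ha2, hb2⟩ := walk_rot hA'.symm hB'.symm hw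
                have h2 : St T ρ a2 b2 := h.walk hw2
                have h3 : St T ρ a' b' := h2.rot ha2 hb2
                rcases hend with ⟨_, hrev⟩ | ⟨hcut, hza, hzb⟩
                · -- reversed
                  refine ⟨k, by nlinarith, a2, b2, hw2, Or.inl ⟨a', h3.nodup, h3.supp,
                    formPerm_eq_of_isRotated h2.nodup ha2, ?_⟩⟩
                  rw [formPerm_eq_of_isRotated h2.nodup ha2]
                  have h4 := h3.rho
                  rw [formPerm_eq_of_isRotated h3.nodupB hrev, formPerm_reverse, inv_inv] at h4
                  exact h4
                · -- joined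
                  obtain ⟨a4, ha4⟩ : ∃ a4, a' = z :: (a4 ++ [p]) := by
                    cases a' with
                    | nil => simp at hza
                    | cons s a' =>
                        simp only [List.head?_cons, Option.some.injEq] at hza
                        subst hza
                        have h5 := hcut.lastA
                        rcases List.eq_nil_or_concat a' with h6 | ⟨u, v, h6⟩
                        · subst h6
                          simp at h5
                          exact absurd h5 hzp
                        · rw [List.concat_eq_append] at h6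
                          rw [h6, getLast_cc, Option.some.injEq] at h5
                          subst h5
                          exact ⟨u, by rw [h6]⟩
                  obtain ⟨b4, hb4⟩ : ∃ b4, b' = z :: (b4 ++ [r]) := by
                    cases b' with
                    | nil => simp at hzb
                    | cons s b' =>
                        simp only [List.head?_cons, Option.some.injEq] at hzb
                        subst hzb
                        have h5 := hcut.lastB
                        rcases List.eq_nil_or_concat b' with h6 | ⟨u, v, h6⟩
                        · subst h6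
                          simp at h5
                          exact absurd h5 hzr
                        · rw [List.concat_eq_append] at h6
                          rw [h6, getLast_cc, Option.some.injEq] at h5
                          subst h5
                          exact ⟨u, by rw [h6]⟩
                  subst ha4 hb4
                  have r1 : (z :: (a4 ++ [p])) ~r (p :: z :: a4) :=
                    rot_of_eq (u := z :: a4) (v := [p]) (by simp) (by simp)
                  have r2 : (z :: (b4 ++ [r])) ~r (r :: z :: b4) :=
                    rot_of_eq (u := z :: b4) (v := [r]) (by simp) (by simp)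
                  have h4 : St T ρ (p :: z :: a4) (r :: z :: b4) := h3.rot r1 r2
                  have n1 : (p :: a4).Nodup := by
                    have := h4.nodup
                    simp only [List.nodup_cons, List.mem_cons, not_or] at this ⊢
                    exact ⟨this.1.2, this.2.2⟩
                  have n2 : (r :: b4).Nodup := by
                    have := h4.nodupB
                    simp only [List.nodup_cons, List.mem_cons, not_or] at this ⊢
                    exact ⟨this.1.2, this.2.2⟩
                  have z1 : z ∉ p :: a4 := by
                    have := h4.nodup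
                    simp only [List.nodup_cons, List.mem_cons, not_or] at this ⊢
                    exact ⟨hzp, this.2.1⟩
                  have z2 : z ∉ r :: b4 := by
                    have := h4.nodupB
                    simp only [List.nodup_cons, List.mem_cons, not_or] at this ⊢
                    exact ⟨hzr, this.2.1⟩
                  have h5 : St (T.erase z) ρ1 (p :: a4) (r :: b4) := by
                    refine ⟨n1, ?_, ?_, ?_⟩
                    · have q1 : (z :: p :: a4).Perm (p :: z :: a4) := List.Perm.swap _ _ _
                      have q2 : (r :: z :: b4).Perm (z :: r :: b4) := List.Perm.swap _ _ _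
                      exact (q1.trans (h4.perm.trans q2)).cons_inv
                    · rw [← h4.supp]
                      ext s
                      simp only [List.mem_toFinset, Finset.mem_erase, List.mem_cons]
                      constructor
                      · intro hs
                        refine ⟨?_, ?_⟩
                        · rintro rfl
                          exact z1 (by simpa using hs)
                        · rcases hs with hs | hs
                          · exact Or.inl hs
                          · exact Or.inr (Or.inr hs)
                      · rintro ⟨hs1, hs | hs | hs⟩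
                        · exact Or.inl hs
                        · exact absurd hs hs1
                        · exact Or.inr hs
                    · have q1 := formPerm_cons_insert p z a4 h4.nodup
                      have q2 := formPerm_cons_insert r z b4 h4.nodupB
                      have q3 := h4.rho
                      rw [q1, q2] at q3
                      rw [hρ1, ← q3]
                      simp only [mul_inv_rev, swap_inv, mul_assoc, swap_mul_self, mul_one]
                      rw [← mul_assoc (swap r z) (swap r z), swap_mul_self, one_mul]
                  obtain ⟨n, hn, a5, b5, hw5, ha5⟩ := hNw _ _ h5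
                  have h6 := h5.walk hw5
                  have hw6 := walk_flatMap (φ := insAfter p z) (γ := insAfter r z) (by
                    intro s
                    by_cases hs : s = p
                    · by_cases hs' : s = r
                      · exact ⟨s, [z], [z], by simp [insAfter, hs], by simp [insAfter, hs']⟩
                      · refine ⟨s, [z], [], by simp [insAfter, hs], by simp [insAfter, hs']⟩
                    · by_cases hs' : s = r
                      · exact ⟨s, [], [z], by simp [insAfter, hs], by simp [insAfter, hs']⟩
                      · refine ⟨s, [], [], by simp [insAfter, hs], by simp [insAfter, hs']⟩) hw5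
                  have e1 : (p :: a4).flatMap (insAfter p z) = p :: z :: a4 := by
                    rw [List.flatMap_cons, flatMap_insAfter_of_notMem (List.nodup_cons.mp n1).1,
                      insAfter, if_pos rfl]
                    rfl
                  have e2 : (r :: b4).flatMap (insAfter r z) = r :: z :: b4 := by
                    rw [List.flatMap_cons, flatMap_insAfter_of_notMem (List.nodup_cons.mp n2).1,
                      insAfter, if_pos rfl]
                    rfl
                  rw [e1, e2] at hw6
                  obtain ⟨a6, b6, hw7, ha6, hb6⟩ := walk_rot (r1.symm.trans ha2.symm)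
                    (r2.symm.trans hb2.symm) hw6
                  refine ⟨k + n, by nlinarith, a6, b6, hw2.append hw7, Or.inr ⟨_, ha5, ?_⟩⟩
                  have h7 : St T ρ a6 b6 := h2.walk hw7
                  rw [formPerm_eq_of_isRotated h7.nodup ha6, formPerm_insAfter h6.nodup]
                  · rw [← List.mem_toFinset, h6.supp, Finset.mem_erase]; exact ⟨hzp.symm, hp⟩
                  · rw [← List.mem_toFinset, h6.supp, Finset.mem_erase]; simp

end Pool.Agent.helper36.WE
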