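import Pool.Agent.helper36.WE.Join

/-! Normal forms of pairs of cyclic words under triple swaps. -/

namespace Pool.Agent.helper36.WE

set_option linter.unusedSectionVars false

open Equiv Equiv.Perm List

variable {X : Type} [DecidableEq X]

/-- A state with letters `T` and invariant `ρ`. -/
structure St (T : Finset X) (ρ : Perm X) (a b : List X) : Prop where
  nodup : a.Nodup
  perm : a.Perm b
  supp : a.toFinset = T
  rho : (formPerm b)⁻¹ * formPerm a = ρ

lemma St.nodupB {T : Finset X} {ρ : Perm X} {a b : List X} (h : St T ρ a b) : b.Nodup :=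
  h.perm.nodup_iff.mp h.nodup

lemma St.CM {T : Finset X} {ρ : Perm X} {a b a' b' : List X} (h : St T ρ a b)
    (hm : CM (a, b) (a', b')) : St T ρ a' b' := by
  obtain ⟨c, h1, h2⟩ := CM_perm hm h.nodup h.nodupB
  obtain ⟨p1, p2⟩ := CM_perm_lists hm
  simp only at h1 h2 p1 p2
  refine ⟨p1.nodup_iff.mp h.nodup, p1.symm.trans (h.perm.trans p2), ?_, ?_⟩
  · rw [← h.supp]; exact (List.toFinset_eq_of_perm _ _ p1).symm
  · rw [h1, h2, ← h.rho]; group

lemma St.walk {T : Finset X} {ρ : Perm X} {n : ℕ} {a b a' b' : List X} (h : St T ρ a b)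
    (hw : Walk WE.CM n (a, b) (a', b')) : St T ρ a' b' := by
  obtain ⟨f, f0, fn, hf⟩ := hw
  have key : ∀ i ≤ n, St T ρ (f i).1 (f i).2 := by
    intro i
    induction i with
    | zero => intro _; rw [f0]; exact h
    | succ i ih => intro hi; exact (ih (by omega)).CM (hf i (by omega))
  have := key n le_rfl
  rw [fn] at this
  exact this

lemma St.rot {T : Finset X} {ρ : Perm X} {a b a' b' : List X} (h : St T ρ a b)
    (ha : a ~r a') (hb : b ~r b') : St T ρ a' b' := by
  refine ⟨ha.nodup_iff.mp h.nodup, ha.perm.symm.trans (h.perm.trans hb.perm), ?_, ?_⟩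
  · rw [← h.supp]; exact (List.toFinset_eq_of_perm _ _ ha.perm).symm
  · rw [← formPerm_eq_of_isRotated h.nodup ha, ← formPerm_eq_of_isRotated h.nodupB hb, h.rho]

lemma walk_rot {n : ℕ} {a b a' b' a0 b0 : List X} (ha : a ~r a0) (hb : b ~r b0)
    (hw : Walk WE.CM n (a, b) (a', b')) :
    ∃ a'' b'', Walk WE.CM n (a0, b0) (a'', b'') ∧ a'' ~r a' ∧ b'' ~r b' := by
  obtain ⟨f, f0, fn, hf⟩ := hw
  by_cases hn : n = 0
  · subst hn
    rw [f0] at fn
    rw [Prod.mk.injEq] at fn
    refine ⟨a0, b0, Walk.refl _ _, ?_, ?_⟩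
    · rw [← fn.1]; exact ha.symm
    · rw [← fn.2]; exact hb.symm
  · refine ⟨a', b', ⟨fun i => if i = 0 then (a0, b0) else f i, by simp, by simp [hn, fn], ?_⟩,
      List.IsRotated.refl _, List.IsRotated.refl _⟩
    intro i hi
    by_cases h0 : i = 0
    · subst h0
      have h1 := hf 0 hi
      rw [f0] at h1
      obtain ⟨x, y, z, P, Q, R, P', Q', R', e1, e2, e3, e4⟩ := h1
      simp only [if_true, Nat.zero_add, one_ne_zero, if_false]
      exact ⟨x, y, z, P, Q, R, P', Q', R', ha.symm.trans e1, hb.symm.trans e2, by simpa using e3,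
        by simpa using e4⟩
    · simp only [h0, if_false, Nat.succ_ne_zero]
      exact hf i hi

/-- Substituting words for letters such that the first letters agree. -/
lemma CM_flatMap {φ γ : X → List X} (h : ∀ s, ∃ t u v, φ s = t :: u ∧ γ s = t :: v)
    {a b a' b' : List X} (hm : CM (a, b) (a', b')) :
    CM (a.flatMap φ, b.flatMap γ) (a'.flatMap φ, b'.flatMap γ) := by
  have hrot : ∀ (f : X → List X) {l l' : List X}, l ~r l' → l.flatMap f ~r l'.flatMap f := by
    intro f l l' hl
    obtain ⟨k, hk⟩ := hl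
    rcases List.eq_nil_or_concat l with hl0 | hl0
    · subst hl0
      rw [List.rotate_nil] at hk
      rw [← hk]
    have hlen : 0 < l.length := by
      obtain ⟨u, v, rfl⟩ := hl0
      simp
    have h1 : l = l.take (k % l.length) ++ l.drop (k % l.length) := (List.take_append_drop _ _).symm
    have h2 : l' = l.drop (k % l.length) ++ l.take (k % l.length) := by
      rw [← hk, ← List.rotate_mod, List.rotate_eq_drop_append_take (Nat.mod_lt _ hlen).le]
    rw [h2]
    conv_lhs => rw [h1]
    rw [List.flatMap_append, List.flatMap_append]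
    exact rot_append _ _
  obtain ⟨x, y, z, P, Q, R, P', Q', R', e1, e2, e3, e4⟩ := hm
  obtain ⟨x1, x2, x3, hx1, hx2⟩ := h x
  obtain ⟨y1, y2, y3, hy1, hy2⟩ := h y
  obtain ⟨z1, z2, z3, hz1, hz2⟩ := h z
  refine ⟨x1, y1, z1, x2 ++ P.flatMap φ, y2 ++ Q.flatMap φ, z2 ++ R.flatMap φ,
    x3 ++ P'.flatMap γ, y3 ++ Q'.flatMap γ, z3 ++ R'.flatMap γ, ?_, ?_, ?_, ?_⟩
  · have := hrot φ e1
    simp only [List.flatMap_append, List.flatMap_cons, hx1, hy1, hz1] at this
    simpa using this
  · have := hrot γ e2
    simp only [List.flatMap_append, List.flatMap_cons, hx2, hy2, hz2] at this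
    simpa using this
  · have := hrot φ e3
    simp only [List.flatMap_append, List.flatMap_cons, hx1, hy1, hz1] at this
    simpa using this
  · have := hrot γ e4
    simp only [List.flatMap_append, List.flatMap_cons, hx2, hy2, hz2] at this
    simpa using this

lemma walk_flatMap {φ γ : X → List X} (h : ∀ s, ∃ t u v, φ s = t :: u ∧ γ s = t :: v) {n : ℕ}
    {a b a' b' : List X} (hw : Walk CM n (a, b) (a', b')) :
    Walk CM n (a.flatMap φ, b.flatMap γ) (a'.flatMap φ, b'.flatMap γ) := by
  obtain ⟨f, f0, fn, hf⟩ := hw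
  exact ⟨fun i => ((f i).1.flatMap φ, (f i).2.flatMap γ), by simp [f0], by simp [fn],
    fun i hi => CM_flatMap h (hf i hi)⟩

/-- Replace `g` by `f g`. -/
def insBefore (f g : X) (s : X) : List X := if s = g then [f, g] else [s]

/-- Replace `p` by `p z`. -/
def insAfter (p z : X) (s : X) : List X := if s = p then [p, z] else [s]

lemma flatMap_insBefore_of_notMem {f g : X} {l : List X} (h : g ∉ l) :
    l.flatMap (insBefore f g) = l := by
  induction l with
  | nil => rfl
  | cons s l ih =>
      rw [List.mem_cons, not_or] at h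
      rw [List.flatMap_cons, ih h.2, insBefore, if_neg (Ne.symm h.1)]
      rfl

lemma flatMap_insAfter_of_notMem {p z : X} {l : List X} (h : p ∉ l) :
    l.flatMap (insAfter p z) = l := by
  induction l with
  | nil => rfl
  | cons s l ih =>
      rw [List.mem_cons, not_or] at h
      rw [List.flatMap_cons, ih h.2, insAfter, if_neg (Ne.symm h.1)]
      rfl

lemma exists_rot_cons {l : List X} {s : X} (h : s ∈ l) : ∃ l', l ~r s :: l' := by
  obtain ⟨u, v, rfl⟩ := List.append_of_mem h
  exact ⟨v ++ u, rot_of_eq (u := u) (v := s :: v) rfl (by simp)⟩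

lemma formPerm_insBefore {f g : X} {l : List X} (hl : l.Nodup) (hg : g ∈ l) (hf : f ∉ l) :
    formPerm (l.flatMap (insBefore f g)) = swap f g * formPerm l := by
  obtain ⟨u, v, rfl⟩ := List.append_of_mem hg
  have hgu : g ∉ u := by
    intro h'
    simp only [List.nodup_append, List.nodup_cons, List.mem_cons, forall_eq_or_imp] at hl
    exact (hl.2.2 g h').1 rfl
  have hgv : g ∉ v := by
    simp only [List.nodup_append, List.nodup_cons] at hl
    exact hl.2.1.1
  have h1 : (u ++ g :: v) ~r (g :: (v ++ u)) :=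
    rot_of_eq (u := u) (v := g :: v) rfl (by simp)
  have h2 : (u ++ g :: v).flatMap (insBefore f g) ~r (f :: g :: (v ++ u)) := by
    rw [List.flatMap_append, List.flatMap_cons, flatMap_insBefore_of_notMem hgu,
      flatMap_insBefore_of_notMem hgv, insBefore, if_pos rfl]
    exact rot_of_eq (u := u) (v := f :: g :: v) rfl (by simp)
  have h3 : (f :: g :: (v ++ u)).Nodup := by
    refine List.nodup_cons.mpr ⟨?_, h1.nodup_iff.mp hl⟩
    intro h'
    exact hf (h1.mem_iff.mpr h')
  rw [formPerm_eq_of_isRotated (h2.nodup_iff.mpr h3) h2, formPerm_cons_cons,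
    formPerm_eq_of_isRotated hl h1]

lemma formPerm_cons_insert (p z : X) (l : List X) (h : (p :: z :: l).Nodup) :
    formPerm (p :: z :: l) = formPerm (p :: l) * swap p z := by
  cases l with
  | nil => simp
  | cons q l =>
      have hpq : p ≠ q := by rintro rfl; simp at h
      have hpz : p ≠ z := by rintro rfl; simp at h
      have hzq : z ≠ q := by rintro rfl; simp at h
      rw [formPerm_cons_cons, formPerm_cons_cons, formPerm_cons_cons p q]
      have hd : Disjoint (formPerm (q :: l)) (swap p z) := by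
        rw [Equiv.Perm.disjoint_iff_eq_or_eq]
        intro s
        by_cases hs : s ∈ q :: l
        · right
          apply swap_apply_of_ne_of_ne
          · rintro rfl
            rw [List.nodup_cons] at h
            exact h.1 (List.mem_cons_of_mem _ hs)
          · rintro rfl
            rw [List.nodup_cons, List.nodup_cons] at h
            exact h.2.1 hs
        · left
          exact formPerm_apply_of_notMem hs
      rw [mul_assoc (swap p q), hd.commute.eq, ← mul_assoc, ← mul_assoc,
        swap_mul_swap_conj hpq hzq]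

lemma formPerm_insAfter {p z : X} {l : List X} (hl : l.Nodup) (hp : p ∈ l) (hz : z ∉ l) :
    formPerm (l.flatMap (insAfter p z)) = formPerm l * swap p z := by
  obtain ⟨u, v, rfl⟩ := List.append_of_mem hp
  have hpu : p ∉ u := by
    intro h'
    simp only [List.nodup_append, List.nodup_cons, List.mem_cons, forall_eq_or_imp] at hl
    exact (hl.2.2 p h').1 rfl
  have hpv : p ∉ v := by
    simp only [List.nodup_append, List.nodup_cons] at hl
    exact hl.2.1.1
  have h1 : (u ++ p :: v) ~r (p :: (v ++ u)) :=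
    rot_of_eq (u := u) (v := p :: v) rfl (by simp)
  have h2 : (u ++ p :: v).flatMap (insAfter p z) ~r (p :: z :: (v ++ u)) := by
    rw [List.flatMap_append, List.flatMap_cons, flatMap_insAfter_of_notMem hpu,
      flatMap_insAfter_of_notMem hpv, insAfter, if_pos rfl]
    exact rot_of_eq (u := u) (v := p :: z :: v) rfl (by simp)
  have hzl : z ∉ p :: (v ++ u) := fun h' => hz (h1.mem_iff.mpr h')
  have h3 : (p :: z :: (v ++ u)).Nodup := by
    have h4 := h1.nodup_iff.mp hl
    rw [List.nodup_cons] at h4
    rw [List.mem_cons, not_or] at hzl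
    rw [List.nodup_cons, List.nodup_cons, List.mem_cons, not_or]
    exact ⟨⟨Ne.symm hzl.1, h4.1⟩, hzl.2, h4.2⟩
  rw [formPerm_eq_of_isRotated (h2.nodup_iff.mpr h3) h2, formPerm_cons_insert p z _ h3,
    formPerm_eq_of_isRotated hl h1]

end Pool.Agent.helper36.WE
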