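import Pool.Agent.helper36.WE.Bound

/-! Elementary properties of Nielsen steps of quadratic equations. -/

namespace Pool.Agent.helper36.WE

set_option linter.unusedSectionVars false

variable {X A : Type} [DecidableEq X] [DecidableEq A]

attribute [local instance] lawfulBEq_sum

lemma length_psiHat (y : X ⊕ A) (x : X) (l : List (X ⊕ A)) : (psiHat y x l).length = l.length := by
  simp [psiHat]

lemma psiHat_cons (y : X ⊕ A) (x : X) (s : X ⊕ A) (l : List (X ⊕ A)) :
    psiHat y x (s :: l) = (if s = Sum.inl x then y else s) :: psiHat y x l := rfl

lemma count_psiHat_self {y : X ⊕ A} {x : X} (h : y ≠ Sum.inl x) (l : List (X ⊕ A)) :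
    (psiHat y x l).count (Sum.inl x) = 0 := by
  induction l with
  | nil => rfl
  | cons s l ih =>
      rw [psiHat_cons]
      by_cases hs : s = Sum.inl x
      · rw [if_pos hs, List.count_cons_of_ne h, ih]
      · rw [if_neg hs, List.count_cons_of_ne hs, ih]

lemma psiHat_same (x : X) (l : List (X ⊕ A)) : psiHat (Sum.inl x) x l = l := by
  induction l with
  | nil => rfl
  | cons s l ih =>
      rw [psiHat_cons, ih]
      split_ifs with h
      · rw [h]
      · rfl

lemma count_psiHat {y : X ⊕ A} {x z : X} (hz : z ≠ x) (l : List (X ⊕ A)) :
    (psiHat y x l).count (Sum.inl z) =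
      l.count (Sum.inl z) + (if y = Sum.inl z then l.count (Sum.inl x) else 0) := by
  induction l with
  | nil => simp [psiHat]
  | cons s l ih =>
      rw [psiHat_cons]
      by_cases hs : s = Sum.inl x
      · subst hs
        have hxz : (Sum.inl x : X ⊕ A) ≠ Sum.inl z := by simpa using Ne.symm hz
        rw [if_pos rfl, List.count_cons_self, List.count_cons_of_ne hxz]
        by_cases hy : y = Sum.inl z
        · rw [if_pos hy] at ih ⊢
          rw [hy, List.count_cons_self]
          rw [hy] at ih
          rw [ih]; ring
        · rw [if_neg hy] at ih ⊢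
          rw [List.count_cons_of_ne hy, ih]
      · rw [if_neg hs, List.count_cons_of_ne hs]
        by_cases hsz : s = Sum.inl z
        · subst hsz
          rw [List.count_cons_self, List.count_cons_self, ih]; ring
        · rw [List.count_cons_of_ne hsz, List.count_cons_of_ne hsz, ih]

/-- The classification of the steps of a quadratic equation. -/
lemma step_swap {E E' : Eqn X A} (h : Step E E') : Step E.swap E'.swap := by
  cases h with
  | cancel a U V => exact Step.cancel a V U
  | replLeft x y U V => exact Step.replRight y x V U
  | replRight x y U V => exact Step.replLeft y x V U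
  | insLeft x y U V => exact Step.insRight y x V U
  | insRight x y U V => exact Step.insLeft y x V U

lemma quadratic_swap {E : Eqn X A} (h : Quadratic E) : Quadratic E.swap := fun x => by
  rw [occ_swap]; exact h x

lemma count_ins_single (y : X ⊕ A) (x : X) (l : List (X ⊕ A)) (t : X ⊕ A) :
    (ins [y] x l).count t = l.count t + (if y = t then l.count (Sum.inl x) else 0) := by
  rw [count_ins]
  by_cases h : y = t
  · simp [h]
  · have h0 : List.count t [y] = 0 := by
      apply List.count_eq_zero_of_not_mem
      simpa using Ne.symm h
    rw [if_neg h, h0]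
    simp

lemma occ_replLeft_le (x : X) (y : X ⊕ A) (U V : List (X ⊕ A))
    (hq : Quadratic ((Sum.inl x :: U, y :: V) : Eqn X A)) (z : X) :
    occ ((psiHat y x U, psiHat y x V) : Eqn X A) z ≤
      occ ((Sum.inl x :: U, y :: V) : Eqn X A) z := by
  by_cases hyx : y = Sum.inl x
  · subst hyx
    rw [psiHat_same, psiHat_same]
    simp only [occ, List.count_cons]
    omega
  by_cases hz : z = x
  · subst hz
    simp only [occ, count_psiHat_self hyx]
    omega
  · simp only [occ, count_psiHat hz]
    by_cases hyz : y = Sum.inl z
    · subst hyz
      have h1 := hq x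
      have hzx : (Sum.inl z : X ⊕ A) ≠ Sum.inl x := by simpa using hz
      have hxz : (Sum.inl x : X ⊕ A) ≠ Sum.inl z := by simpa using Ne.symm hz
      simp only [occ, List.count_cons_self, List.count_cons_of_ne hzx] at h1
      simp only [if_true, List.count_cons_self, List.count_cons_of_ne hxz]
      omega
    · simp only [if_neg hyz, List.count_cons]
      omega

lemma occ_insLeft_le (x : X) (y : X ⊕ A) (U V : List (X ⊕ A))
    (hq : Quadratic ((Sum.inl x :: U, y :: V) : Eqn X A)) (z : X) :
    occ ((Sum.inl x :: ins [y] x U, ins [y] x V) : Eqn X A) z ≤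
      occ ((Sum.inl x :: U, y :: V) : Eqn X A) z := by
  have h1 := hq x
  simp only [occ, List.count_cons_self] at h1
  simp only [occ, List.count_cons, count_ins_single]
  by_cases hyz : y = Sum.inl z
  · subst hyz
    by_cases hzx : z = x
    · subst hzx
      simp only [List.count_cons_self] at h1
      simp only [if_true, beq_self_eq_true]
      omega
    · have hzx' : (Sum.inl z : X ⊕ A) ≠ Sum.inl x := by simpa using hzx
      rw [List.count_cons_of_ne hzx'] at h1
      simp only [if_true, beq_self_eq_true]
      omega
  · simp only [if_neg hyz]
    omega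

lemma occ_le {E E' : Eqn X A} (hq : Quadratic E) (h : Step E E') (z : X) :
    occ E' z ≤ occ E z := by
  cases h with
  | cancel a U V => simp only [occ, List.count_cons]; omega
  | replLeft x y U V => exact occ_replLeft_le x y U V hq z
  | replRight x y U V =>
      have := occ_replLeft_le y x V U (quadratic_swap hq) z
      simp only [occ] at this ⊢
      omega
  | insLeft x y U V => exact occ_insLeft_le x y U V hq z
  | insRight x y U V =>
      have := occ_insLeft_le y x V U (quadratic_swap hq) z
      simp only [psi_eq_ins, occ] at this ⊢
      omega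

lemma quadratic_step {E E' : Eqn X A} (hq : Quadratic E) (h : Step E E') : Quadratic E' :=
  fun z => (occ_le hq h z).trans (hq z)

lemma quadratic_reach {E E' : Eqn X A} (hq : Quadratic E) (h : Reach E E') : Quadratic E' := by
  induction h with
  | refl => exact hq
  | tail _ hbc ih => exact quadratic_step ih hbc

lemma size_insLeft (x : X) (y : X ⊕ A) (U V : List (X ⊕ A)) :
    size ((Sum.inl x :: ins [y] x U, ins [y] x V) : Eqn X A) =
      1 + U.length + V.length + (U.count (Sum.inl x) + V.count (Sum.inl x)) := by
  simp only [size, List.length_cons, length_ins, List.length_nil]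
  ring

lemma size_le_insLeft (x : X) (y : X ⊕ A) (U V : List (X ⊕ A))
    (hq : Quadratic ((Sum.inl x :: U, y :: V) : Eqn X A)) :
    size ((Sum.inl x :: ins [y] x U, ins [y] x V) : Eqn X A) ≤
      size ((Sum.inl x :: U, y :: V) : Eqn X A) := by
  rw [size_insLeft]
  have h1 := hq x
  simp only [occ, List.count_cons_self, List.count_cons] at h1
  simp only [size, List.length_cons]
  omega

lemma size_le {E E' : Eqn X A} (hq : Quadratic E) (h : Step E E') : size E' ≤ size E := by
  cases h with
  | cancel a U V => simp only [size, List.length_cons]; omega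
  | replLeft x y U V => simp only [size, List.length_cons, length_psiHat]; omega
  | replRight x y U V => simp only [size, List.length_cons, length_psiHat]; omega
  | insLeft x y U V => exact size_le_insLeft x y U V hq
  | insRight x y U V =>
      have := size_le_insLeft y x V U (quadratic_swap hq)
      rw [← size_swap, ← size_swap ((x :: U, Sum.inl y :: V) : Eqn X A)]
      exact this

lemma size_reach {E E' : Eqn X A} (hq : Quadratic E) (h : Reach E E') : size E' ≤ size E := by
  induction h with
  | refl => exact le_rfl
  | tail hab hbc ih => exact (size_le (quadratic_reach hq hab) hbc).trans ih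

/-- A step that keeps the length is a step with a winner that occurs twice. -/
lemma dstepL_of_insLeft (D : Finset X) (x : X) (y : X ⊕ A) (U V : List (X ⊕ A))
    (hD : x ∈ D) (hq : Quadratic ((Sum.inl x :: U, y :: V) : Eqn X A))
    (hs : size ((Sum.inl x :: ins [y] x U, ins [y] x V) : Eqn X A) =
      size ((Sum.inl x :: U, y :: V) : Eqn X A)) :
    DStepL D ((Sum.inl x :: U, y :: V) : Eqn X A) (Sum.inl x :: ins [y] x U, ins [y] x V) := by
  refine ⟨x, hD, y, U, V, ?_, rfl, rfl⟩
  rintro rfl
  rw [size_insLeft] at hs
  simp only [size, List.length_cons] at hs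
  have h1 := hq x
  simp only [occ, List.count_cons_self] at h1
  omega

lemma occ_of_insLeft (x : X) (y : X ⊕ A) (U V : List (X ⊕ A))
    (hq : Quadratic ((Sum.inl x :: U, y :: V) : Eqn X A))
    (hs : size ((Sum.inl x :: ins [y] x U, ins [y] x V) : Eqn X A) =
      size ((Sum.inl x :: U, y :: V) : Eqn X A)) :
    occ ((Sum.inl x :: U, y :: V) : Eqn X A) x = 2 ∧
      ∀ z, occ ((Sum.inl x :: ins [y] x U, ins [y] x V) : Eqn X A) z =
        occ ((Sum.inl x :: U, y :: V) : Eqn X A) z := by
  rw [size_insLeft] at hs
  simp only [size, List.length_cons] at hs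
  have h1 := hq x
  have hc : U.count (Sum.inl x) + V.count (Sum.inl x) = 1 := by omega
  simp only [occ, List.count_cons_self, List.count_cons] at h1
  constructor
  · simp only [occ, List.count_cons_self, List.count_cons]
    omega
  · intro z
    simp only [occ, List.count_cons, count_ins_single]
    by_cases hyz : y = Sum.inl z
    · subst hyz
      simp only [if_true, beq_self_eq_true]
      omega
    · have : (y == Sum.inl z) = false := by simpa using hyz
      simp only [if_neg hyz, this, Bool.false_eq_true, if_false]
      omega

end Pool.Agent.helper36.WE
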