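import Pool.Agent.helper36.WE.Linear
import Pool.Agent.helper36.WE.Bound

/-! Segments of a path on which the lengths of both sides stay the same. -/

namespace Pool.Agent.helper36.WE

set_option linter.unusedSectionVars false

variable {X A : Type} [DecidableEq X] [DecidableEq A]

attribute [local instance] lawfulBEq_sum

/-- A step that keeps the lengths of both sides. -/
def Reg (s s' : Eqn X A) : Prop := s'.1.length = s.1.length ∧ s'.2.length = s.2.length

/-- The first block of shared variables. -/
noncomputable def firstBlock (b : X → ℕ) (s : Eqn X A) : Finset X :=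
  by
    classical
    exact (dbl s).filter (fun x => Shared s x ∧ ∀ z, Shared s z → b x ≤ b z)

lemma mem_firstBlock {b : X → ℕ} {s : Eqn X A} (hq : Quadratic s) (x : X) :
    x ∈ firstBlock b s ↔ Shared s x ∧ ∀ z, Shared s z → b x ≤ b z := by
  classical
  unfold firstBlock
  rw [Finset.mem_filter, mem_dbl]
  constructor
  · exact fun h => h.2
  · intro h
    refine ⟨?_, h⟩
    have := shared_counts hq h.1
    simp only [occ]
    omega

lemma shared_of_counts {s t : Eqn X A}
    (h : ∀ z, t.1.count (Sum.inl z) = s.1.count (Sum.inl z) ∧
      t.2.count (Sum.inl z) = s.2.count (Sum.inl z)) (x : X) : Shared t x ↔ Shared s x := by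
  unfold Shared
  rw [← List.count_pos_iff, ← List.count_pos_iff, (h x).1, (h x).2, List.count_pos_iff,
    List.count_pos_iff]

lemma reg_step {b : X → ℕ} {D : Finset X} {s s' : Eqn X A} (hI : Inv b s)
    (hD : ∀ x, Shared s x → (∀ z, Shared s z → b x ≤ b z) → x ∈ D)
    (h : Step s s') (hr : Reg s s') :
    DStep D s s' ∧ ∀ z, s'.1.count (Sum.inl z) = s.1.count (Sum.inl z) ∧
      s'.2.count (Sum.inl z) = s.2.count (Sum.inl z) := by
  cases h with
  | cancel a U V => have := hr.1; simp at this
  | replLeft x y U V => have := hr.1; simp [length_psiHat] at this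
  | replRight x y U V => have := hr.1; simp [length_psiHat] at this
  | insLeft x y U V =>
      have h1 := hr.1
      have h2 := hr.2
      simp only [psi_eq_ins, List.length_cons, length_ins, List.length_nil] at h1 h2
      have hU : Sum.inl x ∉ U := List.count_eq_zero.mp (by omega)
      have hV : V.count (Sum.inl x) = 1 := by omega
      have hxs : Shared ((Sum.inl x :: U, y :: V) : Eqn X A) x :=
        ⟨by simp, List.mem_cons_of_mem _ (List.count_pos_iff.mp (by omega))⟩
      have hyx : y ≠ Sum.inl x := by
        rintro rfl
        have := hI.lin x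
        simp only [List.count_cons_self] at this
        omega
      refine ⟨Or.inl ⟨x, hD x hxs (fun z hz => head_min hI hxs hz), y, U, V, hyx, rfl, rfl⟩, ?_⟩
      intro z
      simp only [psi_eq_ins, ins_of_notMem [y] x hU, count_ins_single, true_and]
      by_cases hyz : y = Sum.inl z
      · subst hyz
        rw [if_pos rfl, List.count_cons_self]
        omega
      · rw [if_neg hyz, List.count_cons_of_ne hyz]
        rfl
  | insRight x y U V =>
      have h1 := hr.1
      have h2 := hr.2
      simp only [psi_eq_ins, List.length_cons, length_ins, List.length_nil] at h1 h2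
      have hV : Sum.inl y ∉ V := List.count_eq_zero.mp (by omega)
      have hU : U.count (Sum.inl y) = 1 := by omega
      have hys : Shared ((x :: U, Sum.inl y :: V) : Eqn X A) y :=
        ⟨List.mem_cons_of_mem _ (List.count_pos_iff.mp (by omega)), by simp⟩
      have hyx : x ≠ Sum.inl y := by
        rintro rfl
        have := hI.quad y
        simp only [occ, List.count_cons_self] at this
        omega
      refine ⟨Or.inr ⟨y, hD y hys (fun z hz => head_min' hI hys hz), x, V, U, hyx, rfl, rfl⟩, ?_⟩
      intro z
      simp only [psi_eq_ins, ins_of_notMem [x] y hV, count_ins_single, and_true]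
      by_cases hxz : x = Sum.inl z
      · subst hxz
        rw [if_pos rfl, List.count_cons_self]
        omega
      · rw [if_neg hxz, List.count_cons_of_ne hxz]
        rfl

lemma reg_reach {b : X → ℕ} {s s' : Eqn X A} (hI : Inv b s)
    (h : Relation.ReflTransGen (fun s s' => Step s s' ∧ Reg s s') s s') :
    Relation.ReflTransGen (DStep (firstBlock b s)) s s' ∧ Inv b s' ∧
      ∀ z, s'.1.count (Sum.inl z) = s.1.count (Sum.inl z) ∧
        s'.2.count (Sum.inl z) = s.2.count (Sum.inl z) := by
  induction h with
  | refl => exact ⟨Relation.ReflTransGen.refl, hI, fun _ => ⟨rfl, rfl⟩⟩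
  | tail _ hbc ih =>
      obtain ⟨h1, h2, h3⟩ := ih
      have hsh := shared_of_counts h3
      obtain ⟨h4, h5⟩ := reg_step (D := firstBlock b s) h2 (fun x hx hmin => by
        rw [mem_firstBlock hI.quad]
        exact ⟨(hsh x).mp hx, fun z hz => hmin z ((hsh z).mpr hz)⟩) hbc.1 hbc.2
      exact ⟨h1.tail h4, h2.step hbc.1,
        fun z => ⟨(h5 z).1.trans (h3 z).1, (h5 z).2.trans (h3 z).2⟩⟩

end Pool.Agent.helper36.WE
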