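import Pool.Agent.helper36.WE.SupBound
import Pool.Agent.helper36.WE.RegSeg

/-! Words spelled by units, and super moves as sequences of steps. -/

namespace Pool.Agent.helper36.WE

set_option linter.unusedSectionVars false

variable {X A : Type} [DecidableEq X] [DecidableEq A]

attribute [local instance] lawfulBEq_sum

/-- The word spelled by the list of variables `a`, every variable `x` followed by `T x`. -/
def spell (T : X → List (X ⊕ A)) (a : List X) : List (X ⊕ A) :=
  a.flatMap (fun x => Sum.inl x :: T x)

lemma spell_nil (T : X → List (X ⊕ A)) : spell T [] = [] := rfl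

lemma spell_cons (T : X → List (X ⊕ A)) (x : X) (a : List X) :
    spell T (x :: a) = Sum.inl x :: (T x ++ spell T a) := by
  simp [spell]

lemma spell_append (T : X → List (X ⊕ A)) (a b : List X) :
    spell T (a ++ b) = spell T a ++ spell T b := by
  simp [spell, List.flatMap_append]

/-- Rotating letters past the winner. -/
lemma walk_rotate (x : X) (U : List (X ⊕ A)) (hU : Sum.inl x ∉ U) :
    ∀ (w W : List (X ⊕ A)), Sum.inl x ∉ w →
      Walk Step w.length ((Sum.inl x :: U, w ++ W) : Eqn X A) (Sum.inl x :: U, ins w x W) := by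
  intro w
  induction w with
  | nil => intro W _; rw [ins_empty]; exact Walk.refl _ _
  | cons y w ih =>
      intro W hw
      rw [List.mem_cons, not_or] at hw
      have h1 : Step ((Sum.inl x :: U, y :: (w ++ W)) : Eqn X A)
          (Sum.inl x :: U, w ++ ins [y] x W) := by
        have := Step.insLeft x y U (w ++ W)
        rw [psi_eq_ins, psi_eq_ins, ins_of_notMem [y] x hU, ins_append,
          ins_of_notMem [y] x hw.2] at this
        exact this
      have h2 := ih (ins [y] x W) hw.2
      rw [ins_ins _ _ _ (by simpa using hw.1)] at h2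
      have := (Walk.single h1).append h2
      rw [List.length_cons, Nat.add_comm w.length 1]
      exact this

lemma walk_swap {n : ℕ} {s s' : Eqn X A} (h : Walk Step n s s') :
    Walk Step n s.swap s'.swap := by
  obtain ⟨f, f0, fn, hf⟩ := h
  exact ⟨fun i => (f i).swap, by simp [f0], by simp [fn], fun i hi => step_swap (hf i hi)⟩

/-- All tails consist of letters outside of `D`. -/
def TokT (D : Finset X) (T : X → List (X ⊕ A)) : Prop := ∀ x, ∀ t ∈ T x, Tok D t

lemma TokT.notMem {D : Finset X} {T : X → List (X ⊕ A)} (h : TokT D T) {x : X} (hx : x ∈ D)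
    (y : X) : Sum.inl x ∉ T y := fun hm => (h y _ hm).ne hx rfl

lemma TokT.notMem_spell {D : Finset X} {T : X → List (X ⊕ A)} (h : TokT D T) {x : X}
    (hx : x ∈ D) {a : List X} (ha : x ∉ a) : Sum.inl x ∉ spell T a := by
  induction a with
  | nil => simp [spell_nil]
  | cons y a ih =>
      rw [List.mem_cons, not_or] at ha
      rw [spell_cons, List.mem_cons, List.mem_append, not_or, not_or]
      refine ⟨?_, h.notMem hx y, ih ha.2⟩
      intro h'
      exact ha.1 (Sum.inl.inj h')

/-- The pairs of words that occur. -/
structure PairD (D : Finset X) (s : List X × List X) : Prop where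
  nodupA : s.1.Nodup
  nodupB : s.2.Nodup
  suppA : ∀ x, x ∈ s.1 ↔ x ∈ D
  suppB : ∀ x, x ∈ s.2 ↔ x ∈ D

lemma PairD.swap {D : Finset X} {s : List X × List X} (h : PairD D s) : PairD D s.swap :=
  ⟨h.nodupB, h.nodupA, h.suppB, h.suppA⟩

lemma PairD.sup {D : Finset X} {s s' : List X × List X} (h : PairD D s) (hs : Sup s s') :
    PairD D s' := by
  obtain ⟨h1, h2⟩ := sup_perm hs
  exact ⟨h1.nodup_iff.mp h.nodupA, h2.nodup_iff.mp h.nodupB,
    fun x => by rw [← h1.mem_iff]; exact h.suppA x, fun x => by rw [← h2.mem_iff]; exact h.suppB x⟩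

/-- The equation of a pair of words. -/
def real (TL TR : X → List (X ⊕ A)) (s : List X × List X) : Eqn X A :=
  (spell TL s.1, spell TR s.2)

lemma real_swap (TL TR : X → List (X ⊕ A)) (s : List X × List X) :
    (real TL TR s).swap = real TR TL s.swap := rfl

lemma length_spell_perm (T : X → List (X ⊕ A)) {a b : List X} (h : a.Perm b) :
    (spell T a).length = (spell T b).length := by
  unfold spell
  exact (h.flatMap_right _).length_eq

lemma real_supL {D : Finset X} {TL TR : X → List (X ⊕ A)} (hL : TokT D TL) (hR : TokT D TR)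
    {s s' : List X × List X} (hp : PairD D s) (hs : SupL s s') :
    ∃ n ≤ size (real TL TR s), Walk Step n (real TL TR s) (real TL TR s') := by
  obtain ⟨x, A', b1, b2, b3, rfl, rfl⟩ := hs
  have hxD : x ∈ D := (hp.suppA x).mp (by simp)
  have hxA : x ∉ A' := (List.nodup_cons.mp hp.nodupA).1
  have hnb := hp.nodupB
  simp only [List.nodup_append, List.nodup_cons] at hnb
  have hx1 : x ∉ b1 := by
    intro h
    exact hnb.2.2 x h x (by simp) rfl
  have hx2 : x ∉ b2 := by
    intro h
    exact hnb.2.1.2.2 x h x (by simp) rfl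
  have hx3 : x ∉ b3 := hnb.2.1.2.1.1
  refine ⟨(spell TR b1).length, ?_, ?_⟩
  · simp only [size, real, spell_append, List.length_append]
    omega
  · have hU : Sum.inl x ∉ TL x ++ spell TL A' := by
      rw [List.mem_append, not_or]
      exact ⟨hL.notMem hxD x, hL.notMem_spell hxD hxA⟩
    have h1 := walk_rotate x (TL x ++ spell TL A') hU (spell TR b1) (spell TR (b2 ++ x :: b3))
      (hR.notMem_spell hxD hx1)
    have h2 : ins (spell TR b1) x (spell TR (b2 ++ x :: b3)) =
        spell TR (b2 ++ (b1 ++ x :: b3)) := by
      rw [spell_append, spell_append, spell_append, ins_append,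
        ins_of_notMem _ _ (hR.notMem_spell hxD hx2), spell_cons, ins_cons, if_pos rfl, ins_append,
        ins_of_notMem _ _ (hR.notMem hxD x), ins_of_notMem _ _ (hR.notMem_spell hxD hx3)]
      simp
    rw [h2, ← spell_append] at h1
    simp only [real]
    rw [spell_cons]
    exact h1

lemma real_sup {D : Finset X} {TL TR : X → List (X ⊕ A)} (hL : TokT D TL) (hR : TokT D TR)
    {s s' : List X × List X} (hp : PairD D s) (hs : Sup s s') :
    ∃ n ≤ size (real TL TR s), Walk Step n (real TL TR s) (real TL TR s') := by
  rcases hs with hs | hs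
  · exact real_supL hL hR hp hs
  · obtain ⟨n, hn, hw⟩ := real_supL hR hL hp.swap hs
    refine ⟨n, ?_, ?_⟩
    · rw [← real_swap, size_swap] at hn
      exact hn
    · have := walk_swap hw
      rw [← real_swap, ← real_swap] at this
      simpa using this

lemma real_size {TL TR : X → List (X ⊕ A)} {s s' : List X × List X} (hs : Sup s s') :
    size (real TL TR s') = size (real TL TR s) := by
  obtain ⟨h1, h2⟩ := sup_perm hs
  simp only [size, real]
  rw [length_spell_perm TL h1, length_spell_perm TR h2]

lemma real_walk {D : Finset X} {TL TR : X → List (X ⊕ A)} (hL : TokT D TL) (hR : TokT D TR) :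
    ∀ (n : ℕ) {s s' : List X × List X}, PairD D s → Walk Sup n s s' →
      ∃ m ≤ n * size (real TL TR s), Walk Step m (real TL TR s) (real TL TR s') := by
  intro n
  induction n with
  | zero =>
      intro s s' _ hw
      obtain ⟨f, f0, fn, -⟩ := hw
      rw [f0] at fn
      rw [fn]
      exact ⟨0, by omega, Walk.refl _ _⟩
  | succ n ih =>
      intro s s' hp hw
      obtain ⟨c, h1, h2⟩ := Walk.cons_inv hw
      obtain ⟨m1, hm1, w1⟩ := real_sup hL hR hp h1
      obtain ⟨m2, hm2, w2⟩ := ih (hp.sup h1) h2
      rw [real_size h1] at hm2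
      exact ⟨m1 + m2, by nlinarith, w1.append w2⟩

end Pool.Agent.helper36.WE
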