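import Pool.Agent.helper36.WE.Real

/-! The structure of segments. -/

namespace Pool.Agent.helper36.WE

set_option linter.unusedSectionVars false

variable {X A : Type} [DecidableEq X] [DecidableEq A]

attribute [local instance] lawfulBEq_sum

/-- The equation `t` occurs while the unit of `d` is moved before the unit of `x`. -/
def SegL (TL TR : X → List (X ⊕ A)) (t : Eqn X A) (p c : List X × List X) : Prop :=
  ∃ (x : X) (A' : List X) (d : X) (P Q : List X) (e w : List (X ⊕ A)),
    p = (x :: A', d :: (P ++ x :: Q)) ∧ c = (x :: A', P ++ d :: x :: Q) ∧ TR d = e ++ w ∧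
    t = (spell TL (x :: A'), w ++ (spell TR P ++ ((Sum.inl d :: e) ++ spell TR (x :: Q))))

/-- The position of an equation in a segment. -/
def Seg (TL TR : X → List (X ⊕ A)) (t : Eqn X A) (p c : List X × List X) : Prop :=
  (t = real TL TR p ∧ c = p) ∨ SegL TL TR t p c ∨ SegL TR TL t.swap p.swap c.swap

lemma SegL.sup {TL TR : X → List (X ⊕ A)} {t : Eqn X A} {p c : List X × List X}
    (h : SegL TL TR t p c) : SupL p c := by
  obtain ⟨x, A', d, P, Q, e, w, rfl, rfl, -, -⟩ := h
  exact ⟨x, A', [d], P, Q, by simp, by simp⟩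

lemma Seg.sup {TL TR : X → List (X ⊕ A)} {t : Eqn X A} {p c : List X × List X}
    (h : Seg TL TR t p c) : c = p ∨ Sup p c := by
  rcases h with h | h | h
  · exact Or.inl h.2
  · exact Or.inr (Or.inl h.sup)
  · exact Or.inr (Or.inr h.sup)

lemma SegL.size {TL TR : X → List (X ⊕ A)} {t : Eqn X A} {p c : List X × List X}
    (h : SegL TL TR t p c) : size t = size (real TL TR p) := by
  obtain ⟨x, A', d, P, Q, e, w, rfl, rfl, h, rfl⟩ := h
  simp only [WE.size, real, spell_cons, spell_append, List.length_append, List.length_cons, h]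
  omega

lemma Seg.size {TL TR : X → List (X ⊕ A)} {t : Eqn X A} {p c : List X × List X}
    (h : Seg TL TR t p c) : size t = size (real TL TR p) := by
  rcases h with h | h | h
  · rw [h.1]
  · exact SegL.size h
  · have := SegL.size h
    rw [size_swap, ← real_swap, size_swap] at this
    exact this

lemma SegL.out {D : Finset X} {TL TR : X → List (X ⊕ A)} (hL : TokT D TL) (hR : TokT D TR)
    {t : Eqn X A} {p c : List X × List X} (hp : PairD D p) (h : SegL TL TR t p c) :
    ∃ n ≤ WE.size t, Walk Step n (real TL TR p) t := by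
  obtain ⟨x, A', d, P, Q, e, w, rfl, rfl, hd, rfl⟩ := h
  have hxD : x ∈ D := (hp.suppA x).mp (by simp)
  have hxA : x ∉ A' := (List.nodup_cons.mp hp.nodupA).1
  have hnb := hp.nodupB
  simp only [List.nodup_append, List.nodup_cons, List.mem_append, List.mem_cons, not_or] at hnb
  have hxd : x ≠ d := fun h => hnb.1.2.1 h.symm
  have hxP : x ∉ P := by
    intro h
    exact hnb.2.2.2 x h x (Or.inl rfl) rfl
  have hxQ : x ∉ Q := hnb.2.2.1.1
  have hxe : Sum.inl x ∉ e ++ w := by rw [← hd]; exact hR.notMem hxD d
  rw [List.mem_append, not_or] at hxe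
  refine ⟨(Sum.inl d :: e).length, ?_, ?_⟩
  · simp only [WE.size, List.length_append, List.length_cons]
    omega
  · have hU : Sum.inl x ∉ TL x ++ spell TL A' := by
      rw [List.mem_append, not_or]
      exact ⟨hL.notMem hxD x, hL.notMem_spell hxD hxA⟩
    have hde : Sum.inl x ∉ Sum.inl d :: e := by
      rw [List.mem_cons, not_or]
      exact ⟨fun h => hxd (Sum.inl.inj h), hxe.1⟩
    have h1 := walk_rotate x (TL x ++ spell TL A') hU (Sum.inl d :: e)
      (w ++ spell TR (P ++ x :: Q)) hde
    have h2 : ins (Sum.inl d :: e) x (w ++ spell TR (P ++ x :: Q)) =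
        w ++ (spell TR P ++ ((Sum.inl d :: e) ++ spell TR (x :: Q))) := by
      rw [spell_append, ins_append, ins_append, ins_of_notMem _ _ hxe.2,
        ins_of_notMem _ _ (hR.notMem_spell hxD hxP), spell_cons, ins_cons, if_pos rfl, ins_append,
        ins_of_notMem _ _ (hR.notMem hxD x), ins_of_notMem _ _ (hR.notMem_spell hxD hxQ)]
      simp
    rw [h2] at h1
    simp only [real]
    rw [spell_cons TL, spell_cons TR, hd]
    have e1 : (Sum.inl d :: ((e ++ w) ++ spell TR (P ++ x :: Q)) : List (X ⊕ A)) =
        (Sum.inl d :: e) ++ (w ++ spell TR (P ++ x :: Q)) := by simp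
    rw [e1]
    exact h1

lemma Seg.out {D : Finset X} {TL TR : X → List (X ⊕ A)} (hL : TokT D TL) (hR : TokT D TR)
    {t : Eqn X A} {p c : List X × List X} (hp : PairD D p) (h : Seg TL TR t p c) :
    ∃ n ≤ WE.size t, Walk Step n (real TL TR p) t := by
  rcases h with h | h | h
  · rw [h.1]; exact ⟨0, by omega, Walk.refl _ _⟩
  · exact SegL.out hL hR hp h
  · obtain ⟨n, hn, hw⟩ := SegL.out hR hL hp.swap h
    rw [size_swap] at hn
    refine ⟨n, hn, ?_⟩
    have := walk_swap hw
    rw [← real_swap] at this
    simpa using this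

lemma SegL.into {D : Finset X} {TL TR : X → List (X ⊕ A)} (hL : TokT D TL) (hR : TokT D TR)
    {t : Eqn X A} {p c : List X × List X} (hp : PairD D p) (h : SegL TL TR t p c) :
    ∃ n ≤ WE.size t, Walk Step n t (real TL TR c) := by
  obtain ⟨x, A', d, P, Q, e, w, rfl, rfl, hd, rfl⟩ := h
  have hxD : x ∈ D := (hp.suppA x).mp (by simp)
  have hxA : x ∉ A' := (List.nodup_cons.mp hp.nodupA).1
  have hnb := hp.nodupB
  simp only [List.nodup_append, List.nodup_cons, List.mem_append, List.mem_cons, not_or] at hnb
  have hxd : x ≠ d := fun h => hnb.1.2.1 h.symm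
  have hxP : x ∉ P := by
    intro h
    exact hnb.2.2.2 x h x (Or.inl rfl) rfl
  have hxQ : x ∉ Q := hnb.2.2.1.1
  have hxe : Sum.inl x ∉ e ++ w := by rw [← hd]; exact hR.notMem hxD d
  rw [List.mem_append, not_or] at hxe
  refine ⟨w.length, ?_, ?_⟩
  · simp only [WE.size, List.length_append, List.length_cons]
    omega
  · have hU : Sum.inl x ∉ TL x ++ spell TL A' := by
      rw [List.mem_append, not_or]
      exact ⟨hL.notMem hxD x, hL.notMem_spell hxD hxA⟩
    have hde : Sum.inl x ∉ Sum.inl d :: e := by
      rw [List.mem_cons, not_or]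
      exact ⟨fun h => hxd (Sum.inl.inj h), hxe.1⟩
    have h1 := walk_rotate x (TL x ++ spell TL A') hU w
      (spell TR P ++ ((Sum.inl d :: e) ++ spell TR (x :: Q))) hxe.2
    have h2 : ins w x (spell TR P ++ ((Sum.inl d :: e) ++ spell TR (x :: Q))) =
        spell TR (P ++ d :: x :: Q) := by
      rw [ins_append, ins_append, ins_of_notMem _ _ hde,
        ins_of_notMem _ _ (hR.notMem_spell hxD hxP), spell_cons, ins_cons, if_pos rfl, ins_append,
        ins_of_notMem _ _ (hR.notMem hxD x), ins_of_notMem _ _ (hR.notMem_spell hxD hxQ),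
        spell_append, spell_cons, spell_cons, hd]
      simp
    rw [h2] at h1
    simp only [real]
    rw [spell_cons TL]
    exact h1

lemma Seg.into {D : Finset X} {TL TR : X → List (X ⊕ A)} (hL : TokT D TL) (hR : TokT D TR)
    {t : Eqn X A} {p c : List X × List X} (hp : PairD D p) (h : Seg TL TR t p c) :
    ∃ n ≤ WE.size t, Walk Step n t (real TL TR c) := by
  rcases h with h | h | h
  · rw [h.1, h.2]; exact ⟨0, by omega, Walk.refl _ _⟩
  · exact SegL.into hL hR hp h
  · obtain ⟨n, hn, hw⟩ := SegL.into hR hL hp.swap h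
    rw [size_swap] at hn
    refine ⟨n, hn, ?_⟩
    have := walk_swap hw
    rw [← real_swap] at this
    simpa using this

lemma clean_stepL {D : Finset X} {TL TR : X → List (X ⊕ A)} (hL : TokT D TL) (hR : TokT D TR)
    {t' : Eqn X A} {p : List X × List X} (hp : PairD D p) (h : DStepL D (real TL TR p) t') :
    ∃ c, SegL TL TR t' p c := by
  obtain ⟨x, hx, y, U, V, hy, h1, rfl⟩ := h
  obtain ⟨a, b⟩ := p
  simp only [real, Prod.mk.injEq] at h1
  obtain ⟨ha, hb⟩ := h1
  cases a with
  | nil => simp [spell_nil] at ha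
  | cons x' A' =>
      cases b with
      | nil => simp [spell_nil] at hb
      | cons d B =>
          rw [spell_cons, List.cons.injEq] at ha hb
          obtain ⟨hxx, rfl⟩ := ha
          obtain ⟨rfl, rfl⟩ := hb
          have hxx' : x' = x := Sum.inl.inj hxx
          subst hxx'
          have hdx : d ≠ x' := fun h => hy (by rw [h])
          have hxB : x' ∈ B := by
            have := (hp.suppB x').mpr hx
            simpa [Ne.symm hdx] using this
          obtain ⟨P, Q, rfl⟩ := List.append_of_mem hxB
          have hxA : x' ∉ A' := (List.nodup_cons.mp hp.nodupA).1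
          have hnb := hp.nodupB
          simp only [List.nodup_append, List.nodup_cons, List.mem_append, List.mem_cons,
            not_or] at hnb
          have hxP : x' ∉ P := by
            intro h
            exact hnb.2.2.2 x' h x' (Or.inl rfl) rfl
          have hxQ : x' ∉ Q := hnb.2.2.1.1
          refine ⟨(x' :: A', P ++ d :: x' :: Q), x', A', d, P, Q, [], TR d, rfl, rfl, by simp, ?_⟩
          have hU : Sum.inl x' ∉ TL x' ++ spell TL A' := by
            rw [List.mem_append, not_or]
            exact ⟨hL.notMem hx x', hL.notMem_spell hx hxA⟩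
          rw [ins_of_notMem _ _ hU, spell_cons, ins_append, ins_of_notMem _ _ (hR.notMem hx d),
            spell_append, ins_append, ins_of_notMem _ _ (hR.notMem_spell hx hxP), spell_cons,
            ins_cons, if_pos rfl, ins_append, ins_of_notMem _ _ (hR.notMem hx x'),
            ins_of_notMem _ _ (hR.notMem_spell hx hxQ)]
          simp

lemma trans_step {D : Finset X} {TL TR : X → List (X ⊕ A)} (hL : TokT D TL) (hR : TokT D TR)
    {t t' : Eqn X A} {p c : List X × List X} (hp : PairD D p) (hs : SegL TL TR t p c)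
    (h : DStep D t t') :
    t = real TL TR c ∨ SegL TL TR t' p c := by
  obtain ⟨x, A', d, P, Q, e, w, rfl, rfl, hd, rfl⟩ := hs
  cases w with
  | nil =>
      left
      rw [List.append_nil] at hd
      simp only [real, List.nil_append]
      rw [spell_append, spell_cons TR d, hd]
      simp
  | cons y' w =>
      right
      have hxD : x ∈ D := (hp.suppA x).mp (by simp)
      have hxA : x ∉ A' := (List.nodup_cons.mp hp.nodupA).1
      have hnb := hp.nodupB
      simp only [List.nodup_append, List.nodup_cons, List.mem_append, List.mem_cons,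
        not_or] at hnb
      have hxd : x ≠ d := fun h => hnb.1.2.1 h.symm
      have hxP : x ∉ P := by
        intro h
        exact hnb.2.2.2 x h x (Or.inl rfl) rfl
      have hxQ : x ∉ Q := hnb.2.2.1.1
      have hxe : Sum.inl x ∉ e ++ y' :: w := by rw [← hd]; exact hR.notMem hxD d
      rw [List.mem_append, List.mem_cons, not_or, not_or] at hxe
      have hU : Sum.inl x ∉ TL x ++ spell TL A' := by
        rw [List.mem_append, not_or]
        exact ⟨hL.notMem hxD x, hL.notMem_spell hxD hxA⟩
      rcases h with ⟨z, hz, y, U, V, hy, h1, rfl⟩ | ⟨z, hz, y, U, V, hy, h1, h2⟩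
      · rw [Prod.mk.injEq, spell_cons, List.cons.injEq, List.cons_append, List.cons.injEq] at h1
        obtain ⟨⟨hxz, rfl⟩, rfl, rfl⟩ := h1
        have hxz' : x = z := Sum.inl.inj hxz
        subst hxz'
        have hde : Sum.inl x ∉ Sum.inl d :: e := by
          rw [List.mem_cons, not_or]
          exact ⟨fun h => hxd (Sum.inl.inj h), hxe.1⟩
        refine ⟨x, A', d, P, Q, e ++ [y'], w, rfl, rfl, by rw [hd]; simp, ?_⟩
        rw [ins_of_notMem _ _ hU, spell_cons, ins_append, ins_of_notMem _ _ hxe.2.2, ins_append,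
          ins_of_notMem _ _ (hR.notMem_spell hxD hxP), ins_append, ins_of_notMem _ _ hde,
          ins_cons, if_pos rfl, ins_append, ins_of_notMem _ _ (hR.notMem hxD x),
          ins_of_notMem _ _ (hR.notMem_spell hxD hxQ), spell_cons TL]
        simp
      · exfalso
        rw [Prod.swap_prod_mk, Prod.mk.injEq, List.cons_append, List.cons.injEq] at h1
        have hy' : y' ∈ TR d := by rw [hd]; simp
        exact (hR d y' hy').ne hz h1.1.1

lemma seg_step {D : Finset X} {TL TR : X → List (X ⊕ A)} (hL : TokT D TL) (hR : TokT D TR)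
    {t t' : Eqn X A} {p c : List X × List X} (hp : PairD D p) (hs : Seg TL TR t p c)
    (h : DStep D t t') :
    ∃ p' c', Seg TL TR t' p' c' ∧ PairD D p' ∧ Relation.ReflTransGen Sup p p' := by
  -- clean equations
  have clean : ∀ p : List X × List X, PairD D p → DStep D (real TL TR p) t' →
      ∃ c, Seg TL TR t' p c := by
    intro p hp h
    rcases h with h | h
    · obtain ⟨c, hc⟩ := clean_stepL hL hR hp h
      exact ⟨c, Or.inr (Or.inl hc)⟩
    · rw [real_swap] at h
      obtain ⟨c, hc⟩ := clean_stepL hR hL hp.swap h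
      exact ⟨c.swap, Or.inr (Or.inr (by simpa using hc))⟩
  rcases hs with ⟨rfl, rfl⟩ | hs | hs
  · obtain ⟨c', hc'⟩ := clean c hp h
    exact ⟨c, c', hc', hp, Relation.ReflTransGen.refl⟩
  · rcases trans_step hL hR hp hs h with h1 | h1
    · have hpc : PairD D c := hp.sup (Or.inl hs.sup)
      rw [h1] at h
      obtain ⟨c', hc'⟩ := clean c hpc h
      exact ⟨c, c', hc', hpc, Relation.ReflTransGen.single (Or.inl hs.sup)⟩
    · exact ⟨p, c, Or.inr (Or.inl h1), hp, Relation.ReflTransGen.refl⟩
  · rcases trans_step hR hL hp.swap hs h.swap with h1 | h1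
    · have hpc : PairD D c := hp.sup (Or.inr hs.sup)
      have h2 : t = real TL TR c := by
        rw [← real_swap] at h1
        exact Prod.swap_injective h1
      rw [h2] at h
      obtain ⟨c', hc'⟩ := clean c hpc h
      exact ⟨c, c', hc', hpc, Relation.ReflTransGen.single (Or.inr hs.sup)⟩
    · exact ⟨p, c, Or.inr (Or.inr h1), hp, Relation.ReflTransGen.refl⟩

end Pool.Agent.helper36.WE
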