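import Pool.Agent.helper36.WE.Sup

/-! Standardisation of pairs of words. -/

namespace Pool.Agent.helper36.WE

set_option linter.unusedSectionVars false

open Equiv Equiv.Perm List

variable {X : Type} [DecidableEq X]

lemma supL_mk (x : X) (A b1 b2 b3 : List X) {b b' : List X} (h : b = b1 ++ (b2 ++ x :: b3))
    (h' : b' = b2 ++ (b1 ++ x :: b3)) : Sup (x :: A, b) (x :: A, b') :=
  Or.inl ⟨x, A, b1, b2, b3, by rw [h], by rw [h']⟩

lemma supR_mk (x : X) (A b1 b2 b3 : List X) {b b' : List X} (h : b = b1 ++ (b2 ++ x :: b3))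
    (h' : b' = b2 ++ (b1 ++ x :: b3)) : Sup (b, x :: A) (b', x :: A) :=
  Or.inr ⟨x, A, b1, b2, b3, by rw [h]; rfl, by rw [h']; rfl⟩

/-- In an irreducible pair there is a letter before the head that comes late in the other word. -/
lemma exists_blocking {D : Finset X} {e q : X} {ρ : Perm X} {x : X} {A V b3 : List X}
    (h : Cls D e q ρ (x :: A) (V ++ x :: b3)) (hb : b3 ≠ []) :
    ∃ y z a1 a2 a3, x :: A = x :: (a1 ++ z :: (a2 ++ y :: a3)) ∧ y ∈ V ∧ z ∈ b3 := by
  have hnb := h.nodupB
  have hna := h.nodup
  have hmem : ∀ s, s ∈ x :: A ↔ s ∈ V ++ x :: b3 := fun s => h.perm.mem_iff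
  set t := (x :: A).takeWhile (fun s => decide (s = x ∨ s ∈ V)) with ht
  set r := (x :: A).dropWhile (fun s => decide (s = x ∨ s ∈ V)) with hr
  have htr : x :: A = t ++ r := (List.takeWhile_append_dropWhile).symm
  have htm : ∀ s ∈ t, s = x ∨ s ∈ V := by
    intro s hs
    simpa using List.mem_takeWhile_imp hs
  obtain ⟨a1, ha1⟩ : ∃ a1, t = x :: a1 := by
    rw [ht, List.takeWhile_cons]
    simp
  have hxV : x ∉ V ∧ x ∉ b3 := by
    simp only [List.nodup_append, List.nodup_cons, List.mem_cons, forall_eq_or_imp] at hnb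
    exact ⟨fun hx => (hnb.2.2 x hx).1 rfl, hnb.2.1.1⟩
  have hVb : ∀ s ∈ V, s ∉ b3 := by
    intro s hs hs'
    simp only [List.nodup_append, List.nodup_cons, List.mem_cons, forall_eq_or_imp] at hnb
    exact (hnb.2.2 s hs).2 s hs' rfl
  have hVn : (V ++ [x]).Nodup := by
    have e1 : V ++ x :: b3 = (V ++ [x]) ++ b3 := by simp
    rw [e1] at hnb
    exact (List.nodup_append.mp hnb).1
  have htn : t.Nodup := by
    rw [htr] at hna
    exact (List.nodup_append.mp hna).1
  have hrne : r ≠ [] := by
    intro hr0
    obtain ⟨s, hs⟩ := List.exists_mem_of_ne_nil b3 hb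
    have h1 : s ∈ x :: A := (hmem s).mpr (by simp [hs])
    rw [htr, hr0, List.append_nil] at h1
    rcases htm s h1 with h2 | h2
    · subst h2; exact hxV.2 hs
    · exact hVb s h2 hs
  obtain ⟨z, r', hzr⟩ := List.exists_cons_of_ne_nil hrne
  have hz : ¬ (z = x ∨ z ∈ V) := by
    have := List.head?_dropWhile_not (fun s => decide (s = x ∨ s ∈ V)) (x :: A)
    rw [← hr, hzr] at this
    simpa using this
  push Not at hz
  have hzA : z ∈ x :: A := by rw [htr, hzr]; simp
  have hzb : z ∈ b3 := by
    have := (hmem z).mp hzA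
    simpa [hz.1, hz.2] using this
  by_cases hall : ∀ y ∈ V, y ∈ t
  · exfalso
    have hperm : t.Perm (V ++ [x]) := by
      refine (List.perm_ext_iff_of_nodup htn hVn).mpr ?_
      intro s
      constructor
      · intro hs
        rcases htm s hs with h2 | h2
        · simp [h2]
        · simp [h2]
      · intro hs
        rcases List.mem_append.mp hs with h2 | h2
        · exact hall s h2
        · rw [List.mem_singleton.mp h2, ha1]; simp
    refine h.irr t.length ?_ ?_ ?_
    · rw [ha1]; simp
    · rw [htr, hzr]; simp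
    · have e1 : (x :: A).take t.length = t := by
        rw [htr, List.take_left']
        rfl
      have e2 : (V ++ x :: b3).take t.length = V ++ [x] := by
        have e3 : V ++ x :: b3 = (V ++ [x]) ++ b3 := by simp
        rw [e3, List.take_left']
        exact hperm.length_eq.symm
      rw [e1, e2]
      exact hperm
  · push Not at hall
    obtain ⟨y, hyV, hyt⟩ := hall
    have hy : y ∈ x :: A := (hmem y).mpr (by simp [hyV])
    have hyr : y ∈ r' := by
      rw [htr, hzr, List.mem_append, List.mem_cons] at hy
      rcases hy with h1 | h1 | h1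
      · exact absurd h1 hyt
      · subst h1; exact absurd hyV hz.2
      · exact h1
    obtain ⟨a2, a3, rfl⟩ := List.append_of_mem hyr
    exact ⟨y, z, a1, a2, a3, by rw [htr, hzr, ha1]; rfl, hyV, hzb⟩

/-- **Standardisation.** -/
lemma standardize {D : Finset X} {e q : X} {ρ : Perm X} : ∀ (k : ℕ) (x : X) (A V b3 : List X),
    Cls D e q ρ (x :: A) (V ++ x :: b3) → b3.length ≤ k →
    ∃ n ≤ 2 * k, ∃ A' B', Walk Sup n (x :: A, V ++ x :: b3) (e :: A', B' ++ [e]) := by
  intro k
  induction k with
  | zero =>
      intro x A V b3 h hk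
      have h0 : b3 = [] := List.length_eq_zero_iff.mp (by omega)
      subst h0
      have h1 := h.lastB
      simp only [List.getLast?_append, List.getLast?_singleton, Option.some_or,
        Option.some.injEq] at h1
      subst h1
      exact ⟨0, by omega, A, V, Walk.refl _ _⟩
  | succ k ih =>
      intro x A V b3 h hk
      by_cases hb : b3 = []
      · subst hb
        have h1 := h.lastB
        simp only [List.getLast?_append, List.getLast?_singleton, Option.some_or,
          Option.some.injEq] at h1
        subst h1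
        exact ⟨0, by omega, A, V, Walk.refl _ _⟩
      · obtain ⟨y, z, a1, a2, a3, ha, hy, hz⟩ := exists_blocking h hb
        obtain ⟨p, c, rfl⟩ := List.append_of_mem hy
        obtain ⟨c1, c2, rfl⟩ := List.append_of_mem hz
        have m1 : Sup (x :: A, (p ++ y :: c) ++ x :: (c1 ++ z :: c2))
            (x :: A, y :: (c ++ (p ++ x :: (c1 ++ z :: c2)))) :=
          supL_mk x A p (y :: c) (c1 ++ z :: c2) (by simp) (by simp)
        have m2 : Sup (x :: A, y :: (c ++ (p ++ x :: (c1 ++ z :: c2))))
            (z :: (a2 ++ (x :: a1 ++ y :: a3)), y :: (c ++ (p ++ x :: (c1 ++ z :: c2)))) := by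
          rw [ha]
          exact supR_mk y (c ++ (p ++ x :: (c1 ++ z :: c2))) (x :: a1) (z :: a2) a3
            (by simp) (by simp)
        have h2 := (h.sup (s := (x :: A, (p ++ y :: c) ++ x :: (c1 ++ z :: c2))) m1).sup m2
        have e1 : y :: (c ++ (p ++ x :: (c1 ++ z :: c2))) =
            (y :: (c ++ (p ++ x :: c1))) ++ z :: c2 := by simp
        simp only at h2
        rw [e1] at h2 m1 m2
        obtain ⟨n, hn, A', B', hw⟩ := ih z _ _ c2 h2 (by
          simp only [List.length_append, List.length_cons] at hk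
          omega)
        refine ⟨1 + 1 + n, by omega, A', B',
          ((Walk.single m1).append (Walk.single m2)).append hw⟩

/-- The rotation with a prescribed last letter. -/
lemma exists_rot_last {l : List X} {q : X} (h : q ∈ l) : ∃ l', (l' ++ [q]) ~r l := by
  obtain ⟨u, v, rfl⟩ := List.append_of_mem h
  exact ⟨v ++ u, rot_of_eq (u := v) (v := u ++ [q]) (by simp) (by simp)⟩

lemma rot_last_unique {l l' : List X} {q : X} (h : (l ++ [q]) ~r (l' ++ [q]))
    (hn : (l ++ [q]).Nodup) : l = l' := by
  have h1 : (q :: l) ~r (q :: l') :=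
    (rot_of_eq (u := [q]) (v := l) rfl rfl).trans
      (h.trans (rot_of_eq (u := l') (v := [q]) rfl rfl))
  have h2 : (q :: l).Nodup := by
    rw [List.nodup_cons]
    simp only [List.nodup_append, List.mem_singleton, forall_eq] at hn
    exact ⟨fun h' => hn.2.2 q h' rfl, hn.1⟩
  have hlen : (q :: l).length = (q :: l').length := h1.perm.length_eq
  have hf : formPerm (q :: l) = formPerm (q :: l') := formPerm_eq_of_isRotated h2 h1
  have h3 : q :: l = q :: l' := by
    apply List.ext_getElem hlen
    intro i hi hi'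
    have e1 := formPerm_pow_apply_head q l h2 i
    have e2 := formPerm_pow_apply_head q l' (h1.nodup_iff.mp h2) i
    rw [hf, e2] at e1
    simp only [Nat.mod_eq_of_lt hi, Nat.mod_eq_of_lt hi'] at e1
    exact e1.symm
  exact (List.cons.inj h3).2

end Pool.Agent.helper36.WE
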