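import Pool.Agent.helper36.WE.NF

/-! Super moves of pairs of words. -/

namespace Pool.Agent.helper36.WE

set_option linter.unusedSectionVars false

open Equiv Equiv.Perm List

variable {X : Type} [DecidableEq X]

/-- Super move with the left head as winner. -/
def SupL (s s' : List X × List X) : Prop :=
  ∃ (x : X) (A b1 b2 b3 : List X), s = (x :: A, b1 ++ (b2 ++ x :: b3)) ∧
    s' = (x :: A, b2 ++ (b1 ++ x :: b3))

/-- Super move. -/
def Sup (s s' : List X × List X) : Prop := SupL s s' ∨ SupL s.swap s'.swap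

lemma SupL.symm {s s' : List X × List X} (h : SupL s s') : SupL s' s := by
  obtain ⟨x, A, b1, b2, b3, h1, h2⟩ := h
  exact ⟨x, A, b2, b1, b3, h2, h1⟩

lemma Sup.symm {s s' : List X × List X} (h : Sup s s') : Sup s' s := by
  rcases h with h | h
  · exact Or.inl h.symm
  · exact Or.inr h.symm

lemma Sup.swap {s s' : List X × List X} (h : Sup s s') : Sup s.swap s'.swap := by
  rcases h with h | h
  · right; simpa using h
  · left; exact h

/-- The invariant permutation of a pair of words. -/
def rho (a b : List X) : Perm X :=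
  match a, b with
  | x :: A, y :: B => (formPerm (y :: B))⁻¹ * Equiv.swap y x * formPerm (x :: A)
  | _, _ => 1

lemma rho_swap (a b : List X) : rho b a = (rho a b)⁻¹ := by
  cases a with
  | nil => cases b <;> simp [rho]
  | cons x A =>
      cases b with
      | nil => simp [rho]
      | cons y B =>
          simp only [rho, mul_inv_rev, inv_inv, Equiv.swap_inv]
          rw [Equiv.swap_comm x y, mul_assoc]

/-- The data of the class of a pair of words. -/
structure Cls (D : Finset X) (e q : X) (ρ : Perm X) (a b : List X) : Prop where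
  nodup : a.Nodup
  perm : a.Perm b
  supp : a.toFinset = D
  lastB : b.getLast? = some e
  lastA : a.getLast? = some q
  irr : ∀ k, 0 < k → k < a.length → ¬ (a.take k).Perm (b.take k)
  rh : rho a b = ρ

lemma Cls.nodupB {D : Finset X} {e q : X} {ρ : Perm X} {a b : List X} (h : Cls D e q ρ a b) :
    b.Nodup := h.perm.nodup_iff.mp h.nodup

lemma Cls.swap {D : Finset X} {e q : X} {ρ : Perm X} {a b : List X} (h : Cls D e q ρ a b) :
    Cls D q e ρ⁻¹ b a := by
  refine ⟨h.nodupB, h.perm.symm, ?_, h.lastA, h.lastB, ?_, ?_⟩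
  · rw [← h.supp]; exact (List.toFinset_eq_of_perm _ _ h.perm).symm
  · intro k hk hk' hp
    exact h.irr k hk (by rw [h.perm.length_eq]; exact hk') hp.symm
  · rw [rho_swap, h.rh]

lemma take_big {l l' r : List X} (hl : l.Perm l') {k : ℕ} (hk : l.length ≤ k) :
    ((l ++ r).take k).Perm ((l' ++ r).take k) := by
  have h1 : l.take k = l := List.take_of_length_le hk
  have h2 : l'.take k = l' := List.take_of_length_le (by rw [← hl.length_eq]; exact hk)
  rw [List.take_append, List.take_append, h1, h2, hl.length_eq]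
  exact hl.append_right _

lemma Cls.supL {D : Finset X} {e q : X} {ρ : Perm X} {a b a' b' : List X}
    (h : Cls D e q ρ a b) (hs : SupL (a, b) (a', b')) : Cls D e q ρ a' b' := by
  obtain ⟨x, A, b1, b2, b3, h1, h2⟩ := hs
  rw [Prod.mk.injEq] at h1 h2
  obtain ⟨rfl, rfl⟩ := h1
  obtain ⟨rfl, rfl⟩ := h2
  have hp : (b1 ++ (b2 ++ x :: b3)).Perm (b2 ++ (b1 ++ x :: b3)) := by
    rw [← List.append_assoc, ← List.append_assoc]
    exact List.perm_append_comm.append_right _
  refine ⟨h.nodup, h.perm.trans hp, h.supp, ?_, h.lastA, ?_, ?_⟩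
  · rw [← h.lastB]
    simp [List.getLast?_append, List.getLast?_cons]
  · intro k hk hk' hp'
    apply h.irr k hk hk'
    -- the prefix contains `x`
    have hx : x ∈ (x :: A).take k := by
      cases k with
      | zero => omega
      | succ k => simp
    have hx' : x ∈ (b2 ++ (b1 ++ x :: b3)).take k := hp'.subset hx
    have hnd : (b2 ++ (b1 ++ x :: b3)).Nodup := hp.nodup_iff.mp h.nodupB
    have hlen : (b2 ++ b1 ++ [x]).length ≤ k := by
      by_contra hlt
      push Not at hlt
      rw [List.length_append, List.length_singleton] at hlt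
      have h3 : (b2 ++ (b1 ++ x :: b3)).take k = (b2 ++ b1).take k := by
        rw [← List.append_assoc, List.take_append_of_le_length (by omega)]
      rw [h3] at hx'
      have h4 : x ∈ b2 ++ b1 := List.mem_of_mem_take hx'
      rw [← List.append_assoc] at hnd
      exact (List.nodup_append.mp hnd).2.2 x h4 x (by simp) rfl
    refine hp'.trans ?_
    have e1 : b2 ++ (b1 ++ x :: b3) = (b2 ++ b1 ++ [x]) ++ b3 := by simp
    have e2 : b1 ++ (b2 ++ x :: b3) = (b1 ++ b2 ++ [x]) ++ b3 := by simp
    rw [e1, e2]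
    exact take_big (List.perm_append_comm.append_right _) hlen
  · rw [← h.rh]
    -- the invariant
    rcases List.eq_nil_or_concat b1 with hb1 | hb1
    · rw [hb1]; rfl
    rcases List.eq_nil_or_concat b2 with hb2 | hb2
    · rw [hb2]; rfl
    have hb1' : b1 ≠ [] := by
      obtain ⟨u, v, rfl⟩ := hb1; simp
    have hb2' : b2 ≠ [] := by
      obtain ⟨u, v, rfl⟩ := hb2; simp
    obtain ⟨s1, c1, rfl⟩ := List.exists_cons_of_ne_nil hb1'
    obtain ⟨s2, c2, rfl⟩ := List.exists_cons_of_ne_nil hb2'
    have n1 := h.nodupB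
    have n2 := hp.nodup_iff.mp n1
    have e1 : (s1 :: c1) ++ ((s2 :: c2) ++ x :: b3) = (s1 :: (c1 ++ s2 :: c2)) ++ (x :: b3) := by
      simp
    have e2 : (s2 :: c2) ++ ((s1 :: c1) ++ x :: b3) = (s2 :: (c2 ++ s1 :: c1)) ++ (x :: b3) := by
      simp
    have e3 : ∀ (y z : X) (P Q : List X), (y :: P) ++ z :: Q = y :: (P ++ z :: Q) := by
      intros; rfl
    rw [e1] at n1
    rw [e2] at n2
    rw [e1, e2]
    have f1 := formPerm_append2 s1 x (c1 ++ s2 :: c2) b3 n1
    have f2 := formPerm_append2 s2 x (c2 ++ s1 :: c1) b3 n2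
    have f3 : formPerm (s1 :: (c1 ++ s2 :: c2)) = formPerm (s2 :: (c2 ++ s1 :: c1)) := by
      apply formPerm_eq_of_isRotated
      · exact (List.nodup_append.mp n1).1
      · exact rot_of_eq (u := s1 :: c1) (v := s2 :: c2) rfl rfl
    have g1 : rho (x :: A) ((s1 :: (c1 ++ s2 :: c2)) ++ (x :: b3)) =
        (formPerm ((s1 :: (c1 ++ s2 :: c2)) ++ (x :: b3)))⁻¹ * Equiv.swap s1 x *
          formPerm (x :: A) := rfl
    have g2 : rho (x :: A) ((s2 :: (c2 ++ s1 :: c1)) ++ (x :: b3)) =
        (formPerm ((s2 :: (c2 ++ s1 :: c1)) ++ (x :: b3)))⁻¹ * Equiv.swap s2 x *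
          formPerm (x :: A) := rfl
    rw [g1, g2, f1, f2, f3]
    simp only [mul_inv_rev, Equiv.swap_inv, mul_assoc]
    congr 2
    rw [← mul_assoc (Equiv.swap s2 x), Equiv.swap_mul_self, ← mul_assoc (Equiv.swap s1 x),
      Equiv.swap_mul_self]

lemma Cls.sup {D : Finset X} {e q : X} {ρ : Perm X} {s s' : List X × List X}
    (h : Cls D e q ρ s.1 s.2) (hs : Sup s s') : Cls D e q ρ s'.1 s'.2 := by
  rcases hs with hs | hs
  · exact h.supL hs
  · have := (h.swap.supL (a' := s'.2) (b' := s'.1) hs).swap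
    simpa using this

lemma Cls.walk {D : Finset X} {e q : X} {ρ : Perm X} {n : ℕ} {s s' : List X × List X}
    (h : Cls D e q ρ s.1 s.2) (hw : Walk Sup n s s') : Cls D e q ρ s'.1 s'.2 := by
  obtain ⟨f, f0, fn, hf⟩ := hw
  have key : ∀ i ≤ n, Cls D e q ρ (f i).1 (f i).2 := by
    intro i
    induction i with
    | zero => intro _; rw [f0]; exact h
    | succ i ih => intro hi; exact (ih (by omega)).sup (hf i (by omega))
  have := key n le_rfl
  rwa [fn] at this

lemma Cls.reach {D : Finset X} {e q : X} {ρ : Perm X} {s s' : List X × List X}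
    (h : Cls D e q ρ s.1 s.2) (hw : Relation.ReflTransGen Sup s s') : Cls D e q ρ s'.1 s'.2 := by
  induction hw with
  | refl => exact h
  | tail _ hbc ih => exact ih.sup hbc

end Pool.Agent.helper36.WE
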