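import Pool.Agent.helper36.WE.Hub

/-! The distance of two connected pairs of words. -/

namespace Pool.Agent.helper36.WE

set_option linter.unusedSectionVars false

open List

variable {X : Type} [DecidableEq X]

/-- Moves only change the active prefix. -/
lemma supL_prefix {a0 a1 b0 b1 : List X} (hn : (b0 ++ b1).Nodup) (hp : a0.Perm b0) (ha : a0 ≠ [])
    {s' : List X × List X} (h : SupL (a0 ++ a1, b0 ++ b1) s') :
    ∃ a0' b0', s' = (a0' ++ a1, b0' ++ b1) ∧ a0'.Perm b0' ∧ a0' ≠ [] ∧
      SupL (a0, b0) (a0', b0') := by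
  obtain ⟨x, A, c1, c2, c3, h1, rfl⟩ := h
  rw [Prod.mk.injEq] at h1
  obtain ⟨h1, h2⟩ := h1
  obtain ⟨x', A0, rfl⟩ := List.exists_cons_of_ne_nil ha
  rw [List.cons_append, List.cons.injEq] at h1
  obtain ⟨rfl, rfl⟩ := h1
  have hx : x' ∈ b0 := hp.subset (by simp)
  obtain ⟨u, v, rfl⟩ := List.append_of_mem hx
  -- the two decompositions agree
  have h3 : u ++ x' :: (v ++ b1) = (c1 ++ c2) ++ x' :: c3 := by
    rw [List.append_assoc] at h2
    simpa using h2
  have hnu : x' ∉ u := by
    rw [List.append_assoc] at hn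
    intro h'
    exact (List.nodup_append.mp hn).2.2 x' h' x' (by simp) rfl
  have hnc : x' ∉ c1 ++ c2 := by
    have hn' : ((c1 ++ c2) ++ x' :: c3).Nodup := by
      rw [← h3]; simpa using hn
    intro h'
    exact (List.nodup_append.mp hn').2.2 x' h' x' (by simp) rfl
  have h4 : u = c1 ++ c2 ∧ v ++ b1 = c3 := by
    have key : ∀ (u w : List X) (p q : List X), x' ∉ u → x' ∉ w →
        u ++ x' :: p = w ++ x' :: q → u = w ∧ p = q := by
      intro u
      induction u with
      | nil =>
          intro w p q _ hw he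
          cases w with
          | nil => simpa using he
          | cons t w =>
              rw [List.nil_append, List.cons_append, List.cons.injEq] at he
              exact absurd (by simp [he.1]) hw
      | cons t u ih =>
          intro w p q hu hw he
          cases w with
          | nil =>
              rw [List.nil_append, List.cons_append, List.cons.injEq] at he
              exact absurd (by simp [he.1]) hu
          | cons t' w =>
              rw [List.cons_append, List.cons_append, List.cons.injEq] at he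
              rw [List.mem_cons, not_or] at hu hw
              obtain ⟨e1, e2⟩ := ih w p q hu.2 hw.2 he.2
              exact ⟨by rw [he.1, e1], e2⟩
    exact key _ _ _ _ hnu hnc h3
  obtain ⟨rfl, rfl⟩ := h4
  refine ⟨x' :: A0, c2 ++ (c1 ++ x' :: v), ?_, ?_, by simp, x', A0, c1, c2, v, ?_, rfl⟩
  · simp
  · refine hp.trans ?_
    rw [← List.append_assoc c2]
    exact List.perm_append_comm.append_right _
  · simp

lemma sup_prefix {a0 a1 b0 b1 : List X} (hn : (a0 ++ a1).Nodup) (hn' : (b0 ++ b1).Nodup)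
    (hp : a0.Perm b0) (ha : a0 ≠ [])
    {s' : List X × List X} (h : Sup (a0 ++ a1, b0 ++ b1) s') :
    ∃ a0' b0', s' = (a0' ++ a1, b0' ++ b1) ∧ a0'.Perm b0' ∧ a0' ≠ [] ∧
      Sup (a0, b0) (a0', b0') := by
  rcases h with h | h
  · obtain ⟨a0', b0', h1, h2, h3, h4⟩ := supL_prefix hn' hp ha h
    exact ⟨a0', b0', h1, h2, h3, Or.inl h4⟩
  · have hb : b0 ≠ [] := by
      rintro rfl
      exact ha (List.perm_nil.mp hp)
    obtain ⟨a0', b0', h1, h2, h3, h4⟩ := supL_prefix (a0 := b0) (a1 := b1) (b0 := a0) (b1 := a1)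
      hn hp.symm hb h
    refine ⟨b0', a0', ?_, h2.symm, ?_, Or.inr h4⟩
    · rw [← Prod.swap_swap s', h1]; rfl
    · rintro rfl
      exact h3 (List.perm_nil.mp h2)

lemma sup_append {a0 a1 b0 b1 a0' b0' : List X} (h : Sup (a0, b0) (a0', b0')) :
    Sup (a0 ++ a1, b0 ++ b1) (a0' ++ a1, b0' ++ b1) := by
  rcases h with ⟨x, A, c1, c2, c3, h1, h2⟩ | ⟨x, A, c1, c2, c3, h1, h2⟩
  · rw [Prod.mk.injEq] at h1 h2
    obtain ⟨rfl, rfl⟩ := h1
    obtain ⟨rfl, rfl⟩ := h2
    exact Or.inl ⟨x, A ++ a1, c1, c2, c3 ++ b1, by simp, by simp⟩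
  · rw [Prod.swap_prod_mk, Prod.mk.injEq] at h1 h2
    obtain ⟨rfl, rfl⟩ := h1
    obtain ⟨rfl, rfl⟩ := h2
    exact Or.inr ⟨x, A ++ b1, c1, c2, c3 ++ a1, by simp, by simp⟩

lemma sup_perm {s s' : List X × List X} (h : Sup s s') : s.1.Perm s'.1 ∧ s.2.Perm s'.2 := by
  have key : ∀ {s s' : List X × List X}, SupL s s' → s.1.Perm s'.1 ∧ s.2.Perm s'.2 := by
    rintro s s' ⟨x, A, c1, c2, c3, rfl, rfl⟩
    refine ⟨List.Perm.refl _, ?_⟩
    simp only
    rw [← List.append_assoc, ← List.append_assoc]
    exact List.perm_append_comm.append_right _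
  rcases h with h | h
  · exact key h
  · exact (key h).symm

/-- **Theorem.** Two connected pairs of duplicate free words of length `d` on the same letters
are joined by at most `55 d^4` super moves. -/
theorem sup_bound {a b : List X} (hn : a.Nodup) (hp : a.Perm b) {s' : List X × List X}
    (h : Relation.ReflTransGen Sup (a, b) s') : ∃ n ≤ 55 * a.length ^ 4, Walk Sup n (a, b) s' := by
  classical
  by_cases ha : a = []
  · subst ha
    have hb : b = [] := List.nil_perm.mp hp
    subst hb
    have h1 : s' = ([], []) := by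
      rcases Relation.ReflTransGen.cases_head h with h | ⟨c, h, -⟩
      · exact h.symm
      · exfalso
        rcases h with ⟨x, A, c1, c2, c3, h1, -⟩ | ⟨x, A, c1, c2, c3, h1, -⟩
        · simp at h1
        · simp at h1
    rw [h1]
    exact ⟨0, by simp, Walk.refl _ _⟩
  have hlen : 0 < a.length := List.length_pos_iff.mpr ha
  have hex : ∃ k, 0 < k ∧ k ≤ a.length ∧ (a.take k).Perm (b.take k) := by
    refine ⟨a.length, hlen, le_rfl, ?_⟩
    rw [List.take_length, hp.length_eq, List.take_length]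
    exact hp
  set k := Nat.find hex with hk
  obtain ⟨hk0, hka, hkp⟩ := Nat.find_spec hex
  rw [← hk] at hk0 hka hkp
  have hmin : ∀ j, 0 < j → j < k → ¬ (a.take j).Perm (b.take j) := by
    intro j hj hjk hjp
    exact Nat.find_min hex hjk ⟨hj, by omega, hjp⟩
  set a0 := a.take k with ha0
  set a1 := a.drop k with ha1
  set b0 := b.take k with hb0
  set b1 := b.drop k with hb1
  have ea : a = a0 ++ a1 := (List.take_append_drop _ _).symm
  have eb : b = b0 ++ b1 := (List.take_append_drop _ _).symm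
  have hla0 : a0.length = k := by rw [ha0, List.length_take]; omega
  have ha0ne : a0 ≠ [] := by
    intro h'
    rw [h'] at hla0
    simp at hla0
    omega
  have hb0ne : b0 ≠ [] := by
    intro h'
    rw [h'] at hkp
    exact ha0ne (List.perm_nil.mp hkp)
  obtain ⟨q, hq⟩ : ∃ q, a0.getLast? = some q := by
    rw [List.getLast?_eq_getLast_of_ne_nil ha0ne]; exact ⟨_, rfl⟩
  obtain ⟨e, he⟩ : ∃ e, b0.getLast? = some e := by
    rw [List.getLast?_eq_getLast_of_ne_nil hb0ne]; exact ⟨_, rfl⟩
  have hnb : b.Nodup := hp.nodup_iff.mp hn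
  have hn0 : a0.Nodup := by
    rw [ea] at hn
    exact (List.nodup_append.mp hn).1
  have hcls : Cls a0.toFinset e q (rho a0 b0) (a0, b0).1 (a0, b0).2 := by
    refine ⟨hn0, hkp, rfl, he, hq, ?_, rfl⟩
    intro j hj hja hjp
    simp only at hja hjp
    rw [hla0] at hja
    apply hmin j hj hja
    rw [ha0, hb0, List.take_take, List.take_take, min_eq_left hja.le] at hjp
    exact hjp
  -- moves stay in the prefix
  have hreach : ∃ a0' b0', s' = (a0' ++ a1, b0' ++ b1) ∧
      Relation.ReflTransGen Sup (a0, b0) (a0', b0') ∧ a0'.Perm b0' ∧ a0' ≠ [] ∧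
      (a0' ++ a1).Nodup ∧ (b0' ++ b1).Nodup := by
    rw [ea, eb] at h
    induction h with
    | refl =>
        exact ⟨a0, b0, rfl, Relation.ReflTransGen.refl, hkp, ha0ne, by rw [← ea]; exact hn,
          by rw [← eb]; exact hnb⟩
    | tail _ hbc ih =>
        obtain ⟨a0', b0', rfl, h1, h2, h3, h4, h5⟩ := ih
        obtain ⟨a2, b2, h6, h7, h8, h9⟩ := sup_prefix h4 h5 h2 h3 hbc
        have h10 := sup_perm hbc
        subst h6
        simp only at h10
        exact ⟨a2, b2, rfl, h1.tail h9, h7, h8, h10.1.nodup_iff.mp h4, h10.2.nodup_iff.mp h5⟩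
  obtain ⟨a0', b0', rfl, h1, -⟩ := hreach
  obtain ⟨n, hn', f, f0, fn, hf⟩ := cls_bound hcls h1
  refine ⟨n, ?_, fun i => ((f i).1 ++ a1, (f i).2 ++ b1), ?_, ?_, ?_⟩
  · refine hn'.trans ?_
    rw [List.toFinset_card_of_nodup hn0, hla0]
    exact Nat.mul_le_mul_left _ (Nat.pow_le_pow_left hka 4)
  · simp only [f0]
    rw [← ea, ← eb]
  · simp only [fn]
  · intro i hi
    exact sup_append (hf i hi)

end Pool.Agent.helper36.WE
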