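import Pool.Agent.helper36.WE.Defs

/-! Units: a letter of `D` together with the following letters outside `D`. -/

namespace Pool.Agent.helper36.WE

set_option linter.unusedSectionVars false

variable {X A : Type} [DecidableEq X] [DecidableEq A]

theorem lawfulBEq_sum : LawfulBEq (X ⊕ A) where
  eq_of_beq := by
    intro a b h
    cases a <;> cases b <;> simp_all [BEq.beq, Sum.instBEq.beq]
  rfl := by
    intro a
    cases a <;> simp [BEq.beq, Sum.instBEq.beq]

attribute [local instance] lawfulBEq_sum

/-- Insert the word `w` before every occurrence of the variable `x`. -/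
def ins (w : List (X ⊕ A)) (x : X) (l : List (X ⊕ A)) : List (X ⊕ A) :=
  l.flatMap (fun s => if s = Sum.inl x then w ++ [s] else [s])

lemma psi_eq_ins (y : X ⊕ A) (x : X) (l : List (X ⊕ A)) : psi y x l = ins [y] x l := rfl

lemma ins_nil (w : List (X ⊕ A)) (x : X) : ins w x [] = [] := rfl

lemma ins_cons (w : List (X ⊕ A)) (x : X) (s : X ⊕ A) (l : List (X ⊕ A)) :
    ins w x (s :: l) = (if s = Sum.inl x then w ++ [s] else [s]) ++ ins w x l := rfl

lemma ins_append (w : List (X ⊕ A)) (x : X) (l₁ l₂ : List (X ⊕ A)) :
    ins w x (l₁ ++ l₂) = ins w x l₁ ++ ins w x l₂ := by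
  simp [ins, List.flatMap_append]

lemma ins_of_notMem (w : List (X ⊕ A)) (x : X) {l : List (X ⊕ A)} (h : Sum.inl x ∉ l) :
    ins w x l = l := by
  induction l with
  | nil => rfl
  | cons s l ih =>
      rw [List.mem_cons, not_or] at h
      rw [ins_cons, if_neg (Ne.symm h.1), ih h.2]
      rfl

lemma ins_empty (x : X) (l : List (X ⊕ A)) : ins [] x l = l := by
  induction l with
  | nil => rfl
  | cons s l ih => rw [ins_cons, ih]; split_ifs <;> rfl

lemma ins_ins (w₁ w₂ : List (X ⊕ A)) (x : X) (h : Sum.inl x ∉ w₁) (l : List (X ⊕ A)) :
    ins w₂ x (ins w₁ x l) = ins (w₁ ++ w₂) x l := by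
  induction l with
  | nil => rfl
  | cons s l ih =>
      rw [ins_cons, ins_append, ih, ins_cons]
      congr 1
      split_ifs with hs
      · rw [ins_append, ins_of_notMem w₂ x h, ins_cons, if_pos hs]
        simp [ins_nil]
      · rw [ins_cons, if_neg hs]; rfl

lemma count_ins (w : List (X ⊕ A)) (x : X) (l : List (X ⊕ A)) (t : X ⊕ A) :
    (ins w x l).count t = l.count t + l.count (Sum.inl x) * w.count t := by
  induction l with
  | nil => simp [ins_nil]
  | cons s l ih =>
      rw [ins_cons, List.count_append, ih]
      by_cases hs : s = Sum.inl x
      · subst hs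
        rw [if_pos rfl, List.count_append, List.count_cons_self]
        have h1 : (Sum.inl x :: l).count t = [Sum.inl x].count t + l.count t := by
          rw [← List.count_append]; rfl
        rw [h1]
        ring
      · rw [if_neg hs, List.count_cons_of_ne hs]
        have h1 : (s :: l).count t = [s].count t + l.count t := by
          rw [← List.count_append]; rfl
        rw [h1]
        ring

lemma length_ins (w : List (X ⊕ A)) (x : X) (l : List (X ⊕ A)) :
    (ins w x l).length = l.length + l.count (Sum.inl x) * w.length := by
  induction l with
  | nil => simp [ins_nil]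
  | cons s l ih =>
      rw [ins_cons, List.length_append, ih]
      by_cases hs : s = Sum.inl x
      · subst hs
        rw [if_pos rfl, List.count_cons_self, List.length_append, List.length_cons]
        simp only [List.length_cons, List.length_nil]
        ring
      · rw [if_neg hs, List.count_cons_of_ne hs]
        simp only [List.length_cons, List.length_nil]
        ring

/-- The word spelled by a list of units. -/
def flat (l : List (X × List (X ⊕ A))) : List (X ⊕ A) :=
  l.flatMap (fun u => Sum.inl u.1 :: u.2)

lemma flat_nil : flat ([] : List (X × List (X ⊕ A))) = [] := rfl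

lemma flat_cons (u : X × List (X ⊕ A)) (l : List (X × List (X ⊕ A))) :
    flat (u :: l) = (Sum.inl u.1 :: u.2) ++ flat l := rfl

/-- Insert the unit `v` before every unit whose head is `x`. -/
def insU (v : X × List (X ⊕ A)) (x : X) (l : List (X × List (X ⊕ A))) :
    List (X × List (X ⊕ A)) :=
  l.flatMap (fun u => if u.1 = x then [v, u] else [u])

lemma insU_cons (v : X × List (X ⊕ A)) (x : X) (u : X × List (X ⊕ A))
    (l : List (X × List (X ⊕ A))) :
    insU v x (u :: l) = (if u.1 = x then [v, u] else [u]) ++ insU v x l := rfl

lemma flat_append (l₁ l₂ : List (X × List (X ⊕ A))) : flat (l₁ ++ l₂) = flat l₁ ++ flat l₂ := by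
  simp [flat, List.flatMap_append]

lemma ins_flat (v : X × List (X ⊕ A)) (x : X) (l : List (X × List (X ⊕ A)))
    (h : ∀ u ∈ l, Sum.inl x ∉ u.2) :
    ins (Sum.inl v.1 :: v.2) x (flat l) = flat (insU v x l) := by
  induction l with
  | nil => rfl
  | cons u l ih =>
      have hu := h u (by simp)
      rw [flat_cons, ins_append, ih (fun u hu => h u (List.mem_cons_of_mem _ hu)), insU_cons,
        flat_append, ins_cons, ins_of_notMem _ x hu]
      congr 1
      by_cases hx : u.1 = x
      · simp [hx, flat]
      · simp [hx, flat]

lemma insU_perm (v : X × List (X ⊕ A)) (x : X) (l : List (X × List (X ⊕ A))) :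
    (insU v x l).Perm (List.replicate ((l.map Prod.fst).count x) v ++ l) := by
  induction l with
  | nil => simp [insU]
  | cons u l ih =>
      rw [insU_cons, List.map_cons, List.count_cons]
      by_cases hx : u.1 = x
      · simp only [hx, if_true, beq_self_eq_true]
        rw [List.replicate_succ]
        simp only [List.cons_append, List.nil_append]
        refine List.Perm.cons v ?_
        refine (List.Perm.cons u ih).trans ?_
        exact (List.perm_middle).symm
      · have : (u.1 == x) = false := by simpa using hx
        simp only [hx, if_false, this, Bool.false_eq_true, add_zero]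
        simp only [List.cons_append, List.nil_append]
        refine (List.Perm.cons u ih).trans ?_
        exact (List.perm_middle).symm

/-- Letters outside of `D`. -/
def Tok (D : Finset X) (s : X ⊕ A) : Prop := ∀ x ∈ D, s ≠ Sum.inl x

instance (D : Finset X) (s : X ⊕ A) : Decidable (Tok D s) := by
  unfold Tok; infer_instance

/-- A list of units for `D`. -/
def GoodU (D : Finset X) (u : X × List (X ⊕ A)) : Prop := u.1 ∈ D ∧ ∀ s ∈ u.2, Tok D s

/-- A word that is empty or starts with a letter of `D` is spelled by a list of units. -/
lemma exists_units (D : Finset X) : ∀ (n : ℕ) (w : List (X ⊕ A)), w.length ≤ n →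
    (w = [] ∨ ∃ x ∈ D, ∃ w', w = Sum.inl x :: w') →
    ∃ l : List (X × List (X ⊕ A)), flat l = w ∧ ∀ u ∈ l, GoodU D u := by
  intro n
  induction n with
  | zero =>
      intro w hw _
      have : w = [] := List.length_eq_zero_iff.mp (by omega)
      exact ⟨[], by simp [this, flat_nil], by simp⟩
  | succ n ih =>
      intro w hw h
      rcases h with rfl | ⟨x, hx, w', rfl⟩
      · exact ⟨[], rfl, by simp⟩
      · set t := w'.takeWhile (fun s => decide (Tok D s)) with ht
        set r := w'.dropWhile (fun s => decide (Tok D s)) with hr
        have hw' : w' = t ++ r := (List.takeWhile_append_dropWhile).symm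
        have hlen : r.length ≤ n := by
          have h1 : w'.length = t.length + r.length := by
            conv_lhs => rw [hw']
            rw [List.length_append]
          simp only [List.length_cons] at hw
          omega
        have hr' : r = [] ∨ ∃ x ∈ D, ∃ w', r = Sum.inl x :: w' := by
          rcases hrr : r with _ | ⟨s, r'⟩
          · exact Or.inl rfl
          · right
            have hs : ¬ Tok D s := by
              have := List.head?_dropWhile_not (fun s => decide (Tok D s)) w'
              rw [← hr, hrr] at this
              simpa using this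
            unfold Tok at hs
            push Not at hs
            obtain ⟨z, hz, hsz⟩ := hs
            exact ⟨z, hz, r', by rw [hsz]⟩
        obtain ⟨l, hl, hgood⟩ := ih r hlen hr'
        refine ⟨(x, t) :: l, ?_, ?_⟩
        · rw [flat_cons, hl]
          simp only [List.cons_append]
          rw [← hw']
        · intro u hu
          rcases List.mem_cons.mp hu with rfl | hu
          · refine ⟨hx, ?_⟩
            intro s hs
            have := List.mem_takeWhile_imp hs
            simpa using this
          · exact hgood u hu

end Pool.Agent.helper36.WE
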